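import Mathlib

set_option autoImplicit false

/-!
# TGJ-6: exchanging two power series variables

The exchange of the variables is an involution and a ring homomorphism: the coefficients of a product
are sums over two antidiagonals.
-/

noncomputable section

open PowerSeries
open scoped Classical

namespace TGJ

universe u v

/-- Exchange of the two variables. -/
def swapFun {A : Type u} [CommRing A] (F : A⟦X⟧⟦X⟧) : A⟦X⟧⟦X⟧ :=
  PowerSeries.mk fun n => PowerSeries.mk fun m => coeff n (coeff m F)

private theorem swap_coeff {A : Type u} [CommRing A] (F : A⟦X⟧⟦X⟧) (m n : ℕ) :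
    coeff m (coeff n (swapFun F)) = coeff n (coeff m F) := by
  unfold swapFun
  rw [PowerSeries.coeff_mk, PowerSeries.coeff_mk]

private theorem swap_swap {A : Type u} [CommRing A] (F : A⟦X⟧⟦X⟧) : swapFun (swapFun F) = F := by
  ext n m
  rw [swap_coeff, swap_coeff]

private theorem swap_mul {A : Type u} [CommRing A] (F G : A⟦X⟧⟦X⟧) :
    swapFun (F * G) = swapFun F * swapFun G := by
  ext n m
  rw [swap_coeff, PowerSeries.coeff_mul, PowerSeries.coeff_mul, map_sum, map_sum]
  simp_rw [PowerSeries.coeff_mul, swap_coeff]
  exact Finset.sum_comm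

private theorem swap_one {A : Type u} [CommRing A] : swapFun (1 : A⟦X⟧⟦X⟧) = 1 := by
  ext n m
  rw [swap_coeff, PowerSeries.coeff_one, PowerSeries.coeff_one]
  by_cases hm : m = 0 <;> by_cases hn : n = 0 <;> simp [hm, hn, PowerSeries.coeff_one]

private theorem swap_C {A : Type u} [CommRing A] (x : A⟦X⟧) :
    swapFun (PowerSeries.C x) = PowerSeries.map PowerSeries.C x := by
  ext n m
  rw [swap_coeff, PowerSeries.coeff_C, PowerSeries.coeff_map, PowerSeries.coeff_C]
  by_cases hm : m = 0 <;> simp [hm]

private theorem swap_X {A : Type u} [CommRing A] :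
    swapFun (PowerSeries.X : A⟦X⟧⟦X⟧) = PowerSeries.C PowerSeries.X := by
  ext n m
  rw [swap_coeff, PowerSeries.coeff_C, PowerSeries.coeff_X]
  by_cases hm : m = 1 <;> by_cases hn : n = 0 <;>
    simp [hm, hn, PowerSeries.coeff_one, PowerSeries.coeff_X]

theorem exists_swap (A : Type u) [CommRing A] : ∃ σ : A⟦X⟧⟦X⟧ →+* A⟦X⟧⟦X⟧,
    (∀ F m n, coeff m (coeff n (σ F)) = coeff n (coeff m F)) ∧
    (∀ x : A⟦X⟧, σ (PowerSeries.C x) = PowerSeries.map PowerSeries.C x) ∧
    (∀ x : A⟦X⟧, σ (PowerSeries.map PowerSeries.C x) = PowerSeries.C x) ∧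
    σ PowerSeries.X = PowerSeries.C PowerSeries.X ∧
    σ (PowerSeries.C PowerSeries.X) = PowerSeries.X ∧ Function.Injective σ := by
  refine ⟨{ toFun := swapFun
            map_one' := swap_one
            map_mul' := swap_mul
            map_zero' := by
              ext n m
              rw [swap_coeff]
              simp
            map_add' := fun F G => by
              ext n m
              rw [swap_coeff, map_add, map_add, map_add, map_add, swap_coeff, swap_coeff] },
    fun F m n => swap_coeff F m n, fun x => swap_C x, fun x => ?_, swap_X, ?_, fun F G h => ?_⟩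
  · change swapFun (PowerSeries.map PowerSeries.C x) = _
    rw [← swap_C, swap_swap]
  · change swapFun (PowerSeries.C PowerSeries.X) = _
    rw [← swap_X, swap_swap]
  · change swapFun F = swapFun G at h
    rw [← swap_swap F, h, swap_swap]

end TGJ
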