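import Pool.Agent.TGJ.Jv
import Pool.Agent.TGJ.Swap

set_option autoImplicit false

/-!
# TGJ-8: the identity in `k[[s]][[T]]`

Put `ρ_(i,j) = ∑_m (x m i).coeff j s^m`, `γ_(l,j) = ∑_m d m l j s^m`; `k = F_q`, `Q = q^(n-1)`, so
`γ_(l,j)^Q = ∑_m d m l j s^(m Q)` (`pow_card`, `expand`: Frobenius on `k[[s]]`, e.g.
`PowerSeries` version of `Polynomial.expand`, or coefficientwise by `frobenius` iterates).  Multiply
the identity of `jv` by `T^(M + a N + g) · T^(1 + g e + g N)` (`T = HahnSeries.single 1 1`,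
`T U = 1`): it becomes an identity between images of elements of `k[[T]][[s]]` under the injective
map `PowerSeries.map (HahnSeries.ofPowerSeries ℤ k)`; then apply `swap` (`exists_swap`):
* `T^(M + a N) b'_l` becomes the evaluation of `hpol` at `θ_l` (the exponent `M + a N - j - a i`);
* `T^g Γ_l` becomes `gpol (γ l)`, `T^(g e) Γ'_l` becomes `gpol' e (γ l ^ Q)`;
* `T u_l` becomes `X - C X` or `X`;
* `o_l` becomes an element with constant coefficient `1` (as `o l m ∈ Lm 1` for `m ≥ 1`; its
  coefficients are in `Lm 0`, `mem_Lm_zero`).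
So `e1 = 1 + g e + g N`, `e2 = M + a N + g`.
-/

noncomputable section

open Polynomial PowerSeries
open scoped Classical

namespace TGJ

universe u v

variable {k : Type u} [Field k]

/-! ### the Frobenius -/

private theorem jr_poly_pow [Finite k] (r : ℕ) (P : Polynomial k) :
    P ^ (Nat.card k ^ r) = Polynomial.expand k (Nat.card k ^ r) P := by
  have : Fintype k := Fintype.ofFinite k
  have hq : Nat.card k = Fintype.card k := Nat.card_eq_fintype_card
  induction r with
  | zero => rw [pow_zero, pow_one, Polynomial.expand_one]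
  | succ r ih =>
    rw [pow_succ, pow_mul, ih, mul_comm, Polynomial.expand_mul, hq, FiniteField.expand_card]

private theorem jr_pow [Finite k] (r : ℕ) (f : PowerSeries k) :
    f ^ (Nat.card k ^ r) = PowerSeries.mk (fun n => if Nat.card k ^ r ∣ n then
      PowerSeries.coeff (n / Nat.card k ^ r) f else 0) := by
  have hft : Fintype k := Fintype.ofFinite k
  have hq : Nat.card k = Fintype.card k := Nat.card_eq_fintype_card
  obtain ⟨p, hp⟩ := CharP.exists k
  obtain ⟨⟨m, hm0⟩, hpp, hm⟩ := FiniteField.card k p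
  have hfact : Fact p.Prime := ⟨hpp⟩
  have hQ : Nat.card k ^ r = p ^ (m * r) := by
    rw [hq, hm, PNat.mk_coe, ← pow_mul]
  have hcp : CharP (PowerSeries k) p := by
    refine charP_of_injective_ringHom (f := (PowerSeries.C : k →+* PowerSeries k)) ?_ p
    exact PowerSeries.C_injective
  have hQ0 : 0 < Nat.card k ^ r := pow_pos Nat.card_pos r
  ext n
  rw [PowerSeries.coeff_mk]
  have h1 := PowerSeries.eq_X_pow_mul_shift_add_trunc (n + 1) f
  have h2 : f ^ (Nat.card k ^ r) =
      (PowerSeries.X ^ (n + 1) * (PowerSeries.mk fun i => PowerSeries.coeff (i + (n + 1)) f)) ^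
        (Nat.card k ^ r) +
      ((PowerSeries.trunc (n + 1) f : Polynomial k) : PowerSeries k) ^ (Nat.card k ^ r) := by
    conv_lhs => rw [h1]
    rw [hQ, add_pow_char_pow]
  rw [h2, map_add, mul_pow, ← pow_mul]
  have h3 : PowerSeries.coeff n (PowerSeries.X ^ ((n + 1) * Nat.card k ^ r) *
      (PowerSeries.mk fun i => PowerSeries.coeff (i + (n + 1)) f) ^ (Nat.card k ^ r)) = 0 := by
    have hlt : n < (n + 1) * Nat.card k ^ r :=
      lt_of_lt_of_le (Nat.lt_succ_self n) (Nat.le_mul_of_pos_right _ hQ0)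
    exact (PowerSeries.X_pow_dvd_iff.mp (dvd_mul_right _ _)) n hlt
  have h4 : ((PowerSeries.trunc (n + 1) f : Polynomial k) : PowerSeries k) ^ (Nat.card k ^ r) =
      ((Polynomial.expand k (Nat.card k ^ r) (PowerSeries.trunc (n + 1) f) : Polynomial k) :
        PowerSeries k) := by
    rw [← jr_poly_pow, Polynomial.coe_pow]
  rw [h3, zero_add, h4, Polynomial.coeff_coe, Polynomial.coeff_expand hQ0]
  split_ifs with hd
  · rw [PowerSeries.coeff_trunc, if_pos (lt_of_le_of_lt (Nat.div_le_self _ _) (Nat.lt_succ_self n))]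
  · rfl

/-! ### the transfer -/

private theorem jr_TU : HahnSeries.ofPowerSeries ℤ k PowerSeries.X * U k = 1 := by
  rw [HahnSeries.ofPowerSeries_X, U, HahnSeries.single_mul_single]
  norm_num

private theorem jr_smul (r : k) (y : LaurentSeries k) :
    r • y = HahnSeries.ofPowerSeries ℤ k (PowerSeries.C r) * y := by
  rw [HahnSeries.ofPowerSeries_C, HahnSeries.C_mul_eq_smul]

private theorem jr_cancel {A : Type u} [CommRing A] {T V : A} (h : T * V = 1) {a b : ℕ}
    (hab : b ≤ a) : T ^ a * V ^ b = T ^ (a - b) := by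
  obtain ⟨c, rfl⟩ := Nat.exists_eq_add_of_le hab
  rw [Nat.add_sub_cancel_left, pow_add, mul_assoc, mul_comm (T ^ c), ← mul_assoc, ← mul_pow, h,
    one_pow, one_mul]

private theorem jr_pol {A : Type u} [CommRing A] {T V : A} (h : T * V = 1) (g e : ℕ)
    (c : Fin g → A) : T ^ (g * e) * (1 + ∑ m : Fin g, c m * V ^ ((m : ℕ) * e)) =
      T ^ (g * e) + ∑ m : Fin g, c m * T ^ ((g - (m : ℕ)) * e) := by
  rw [mul_add, mul_one, Finset.mul_sum]
  congr 1
  refine Finset.sum_congr rfl fun m _ => ?_
  rw [mul_left_comm, jr_cancel h (Nat.mul_le_mul_right e m.2.le), Nat.sub_mul]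

/-- the transfer `k[[s]][[T]] → k((T))[[s]]` -/
private structure jr_Tr (k : Type u) [Field k] where
  φ : PowerSeries (PowerSeries k) →+* PowerSeries (LaurentSeries k)
  inj : Function.Injective φ
  hX : φ PowerSeries.X = PowerSeries.C (HahnSeries.ofPowerSeries ℤ k PowerSeries.X)
  hC : ∀ x : PowerSeries k, φ (PowerSeries.C x) =
    PowerSeries.mk (fun n => HahnSeries.ofPowerSeries ℤ k (PowerSeries.C (PowerSeries.coeff n x)))
  hm : ∀ x : PowerSeries k, φ (PowerSeries.map PowerSeries.C x) =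
    PowerSeries.C (HahnSeries.ofPowerSeries ℤ k x)
  hS : φ (PowerSeries.C PowerSeries.X) = PowerSeries.X
  ex : ∀ f : ℕ → LaurentSeries k, f 0 = 1 → (∀ m, 1 ≤ m → f m ∈ Lm k 1) →
    ∃ F : PowerSeries (PowerSeries k), φ F = PowerSeries.mk f ∧ PowerSeries.constantCoeff F = 1

private theorem jr_map_inj : Function.Injective
    (PowerSeries.map (HahnSeries.ofPowerSeries ℤ k) :
      PowerSeries (PowerSeries k) → PowerSeries (LaurentSeries k)) := by
  intro x y h
  ext1 n
  have h1 := congrArg (PowerSeries.coeff n) h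
  rw [PowerSeries.coeff_map, PowerSeries.coeff_map] at h1
  exact HahnSeries.ofPowerSeries_injective h1

private theorem jr_tr (k : Type u) [Field k] : Nonempty (jr_Tr k) := by
  obtain ⟨σ, h1, h2, h3, h4, h5, h6⟩ := exists_swap k
  have hinv : ∀ F, σ (σ F) = F := by
    intro F
    ext n m
    rw [h1, h1]
  refine ⟨⟨(PowerSeries.map (HahnSeries.ofPowerSeries ℤ k)).comp σ, ?_, ?_, ?_, ?_, ?_, ?_⟩⟩
  · intro x y h
    exact h6 (jr_map_inj h)
  · rw [RingHom.comp_apply, h4, PowerSeries.map_C]
  · intro x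
    rw [RingHom.comp_apply, h2]
    ext1 n
    rw [PowerSeries.coeff_map, PowerSeries.coeff_map, PowerSeries.coeff_mk]
  · intro x
    rw [RingHom.comp_apply, h3, PowerSeries.map_C]
  · rw [RingHom.comp_apply, h5, PowerSeries.map_X]
  · intro f hf0 hf
    have hL : ∀ m, f m ∈ Lm k 0 := by
      intro m
      rcases Nat.eq_zero_or_pos m with hm | hm
      · rw [hm, hf0]
        have h := U_mem (k := k) 0
        simpa using h
      · intro i hi
        exact hf m hm i (by omega)
    choose G hG using fun m => mem_Lm_zero (hL m)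
    have hσ : (PowerSeries.map (HahnSeries.ofPowerSeries ℤ k)) (PowerSeries.mk G) =
        PowerSeries.mk f := by
      ext1 n
      rw [PowerSeries.coeff_map, PowerSeries.coeff_mk, PowerSeries.coeff_mk, hG]
    refine ⟨σ (PowerSeries.mk G), ?_, ?_⟩
    · rw [RingHom.comp_apply, hinv, hσ]
    · rw [← PowerSeries.coeff_zero_eq_constantCoeff_apply]
      ext n
      rw [h1, PowerSeries.coeff_mk]
      have h7 : PowerSeries.coeff 0 (G n) = (f n).coeff 0 := by
        rw [← hG n]
        exact (HahnSeries.ofPowerSeries_apply_coeff (Γ := ℤ) (G n) 0).symm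
      rw [h7]
      rcases Nat.eq_zero_or_pos n with hn | hn
      · rw [hn, hf0, PowerSeries.coeff_zero_one]
        exact HahnSeries.coeff_one.trans (if_pos rfl)
      · rw [hf n hn 0 (by norm_num), PowerSeries.coeff_one, if_neg (by omega)]

private theorem jr_sum (D : jr_Tr k) {g : ℕ} (e : Fin g → ℕ) (f : ℕ → Fin g → k) :
    PowerSeries.mk (fun n => ∑ m : Fin g, f n m • U k ^ e m) =
      ∑ m : Fin g, D.φ (PowerSeries.C (PowerSeries.mk fun n => f n m)) *
        PowerSeries.C (U k) ^ e m := by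
  ext1 n
  rw [PowerSeries.coeff_mk, map_sum]
  refine Finset.sum_congr rfl fun m _ => ?_
  rw [← map_pow, PowerSeries.coeff_mul_C, D.hC, PowerSeries.coeff_mk, PowerSeries.coeff_mk, jr_smul]

private theorem jr_TUc : PowerSeries.C (HahnSeries.ofPowerSeries ℤ k PowerSeries.X) *
    PowerSeries.C (U k) = (1 : PowerSeries (LaurentSeries k)) := by
  rw [← map_mul, jr_TU, map_one]

private theorem jr_gpol (D : jr_Tr k) {g : ℕ} (d : ℕ → Fin g → k) :
    D.φ ((gpol (fun m => PowerSeries.mk fun n => d n m) : Polynomial (PowerSeries k)) :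
      PowerSeries (PowerSeries k)) =
    PowerSeries.C (HahnSeries.ofPowerSeries ℤ k PowerSeries.X) ^ g *
      (1 + PowerSeries.mk (fun n => gel (d n))) := by
  have h := jr_sum D (fun m : Fin g => (m : ℕ) * 1) d
  have h1 : PowerSeries.mk (fun n => gel (d n)) =
      ∑ m : Fin g, D.φ (PowerSeries.C (PowerSeries.mk fun n => d n m)) *
        PowerSeries.C (U k) ^ ((m : ℕ) * 1) := by
    rw [← h]
    simp only [mul_one, gel]
  have h2 := jr_pol jr_TUc g 1 (fun m => D.φ (PowerSeries.C (PowerSeries.mk fun n => d n m)))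
  rw [mul_one] at h2
  rw [h1, h2, gpol, ← Polynomial.coeToPowerSeries.ringHom_apply, map_add, map_pow, map_sum,
    Polynomial.coeToPowerSeries.ringHom_apply, Polynomial.coe_X, map_add, map_pow, D.hX, map_sum]
  congr 1
  refine Finset.sum_congr rfl fun m _ => ?_
  rw [map_mul, map_pow, Polynomial.coeToPowerSeries.ringHom_apply,
    Polynomial.coeToPowerSeries.ringHom_apply, Polynomial.coe_X, Polynomial.coe_C, map_mul, map_pow,
    D.hX, mul_one]

private theorem jr_gpol' (D : jr_Tr k) {g : ℕ} (e : ℕ) (d : ℕ → Fin g → k)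
    (c : Fin g → PowerSeries k) (hc : ∀ m, c m = PowerSeries.mk fun n => d n m) :
    D.φ ((gpol' e c : Polynomial (PowerSeries k)) : PowerSeries (PowerSeries k)) =
    PowerSeries.C (HahnSeries.ofPowerSeries ℤ k PowerSeries.X) ^ (g * e) *
      (1 + PowerSeries.mk (fun n => gel' e (d n))) := by
  have h := jr_sum D (fun m : Fin g => (m : ℕ) * e) d
  have h1 : PowerSeries.mk (fun n => gel' e (d n)) =
      ∑ m : Fin g, D.φ (PowerSeries.C (PowerSeries.mk fun n => d n m)) *
        PowerSeries.C (U k) ^ ((m : ℕ) * e) := by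
    rw [← h]
    rfl
  have h2 := jr_pol jr_TUc g e (fun m => D.φ (PowerSeries.C (PowerSeries.mk fun n => d n m)))
  rw [h1, h2, gpol', ← Polynomial.coeToPowerSeries.ringHom_apply, map_add, map_pow, map_sum,
    Polynomial.coeToPowerSeries.ringHom_apply, Polynomial.coe_X, map_add, map_pow, D.hX, map_sum]
  congr 1
  refine Finset.sum_congr rfl fun m _ => ?_
  rw [map_mul, map_pow, Polynomial.coeToPowerSeries.ringHom_apply,
    Polynomial.coeToPowerSeries.ringHom_apply, Polynomial.coe_X, Polynomial.coe_C, map_mul, map_pow,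
    D.hX, hc]

private theorem jr_pu {M : ℕ} {x : Polynomial k} (hx : x.natDegree ≤ M) :
    pu x = ∑ j : Fin (M + 1),
      HahnSeries.ofPowerSeries ℤ k (PowerSeries.C (x.coeff j)) * U k ^ (j : ℕ) := by
  rw [pu, Polynomial.aeval_eq_sum_range' (Nat.lt_succ_of_le hx),
    Fin.sum_univ_eq_sum_range (fun j => HahnSeries.ofPowerSeries ℤ k (PowerSeries.C (x.coeff j)) *
      U k ^ j) (M + 1)]
  refine Finset.sum_congr rfl fun j _ => ?_
  rw [Algebra.smul_def]
  rfl

private theorem jr_hpol (D : jr_Tr k) {c : Cv k} (t : Th c) (l : Fin c.N) (M : ℕ)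
    (x : ℕ → Fin c.N → Polynomial k) (hx : ∀ m i, (x m i).natDegree ≤ M) :
    D.φ (((hpol c.N M c.a (fun i j => PowerSeries.mk fun m => (x m i).coeff j)).map
        Polynomial.coeToPowerSeries.ringHom).eval (PowerSeries.map (PowerSeries.C) (t.θ l))) =
      PowerSeries.C (HahnSeries.ofPowerSeries ℤ k PowerSeries.X) ^ (M + c.a * c.N) *
        PowerSeries.mk (fun m => bel t (x m) l) := by
  have hT : (PowerSeries.C (HahnSeries.ofPowerSeries ℤ k PowerSeries.X) :
      PowerSeries (LaurentSeries k)) ^ (M + c.a * c.N) =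
      PowerSeries.C (HahnSeries.ofPowerSeries ℤ k PowerSeries.X ^ (M + c.a * c.N)) := by
    rw [map_pow]
  rw [Polynomial.eval_map, Polynomial.hom_eval₂, D.hm, hpol, Polynomial.eval₂_finsetSum, hT]
  ext1 m
  rw [PowerSeries.coeff_C_mul, PowerSeries.coeff_mk, bel, Finset.mul_sum, map_sum]
  refine Finset.sum_congr rfl fun i _ => ?_
  rw [Polynomial.eval₂_finsetSum, map_sum, jr_pu (hx m i), Finset.sum_mul, Finset.mul_sum]
  refine Finset.sum_congr rfl fun j _ => ?_
  have hco : D.φ (Polynomial.coeToPowerSeries.ringHom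
      (Polynomial.C (PowerSeries.mk fun m => (x m i).coeff (j : ℕ)) *
        Polynomial.X ^ (M + c.a * c.N - (j : ℕ) - c.a * (i : ℕ)))) =
      PowerSeries.mk (fun m => HahnSeries.ofPowerSeries ℤ k
        (PowerSeries.C ((x m i).coeff (j : ℕ)))) *
      PowerSeries.C (HahnSeries.ofPowerSeries ℤ k PowerSeries.X ^
        (M + c.a * c.N - (j : ℕ) - c.a * (i : ℕ))) := by
    rw [map_mul, map_pow, Polynomial.coeToPowerSeries.ringHom_apply,
      Polynomial.coeToPowerSeries.ringHom_apply, Polynomial.coe_X, Polynomial.coe_C, map_mul,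
      map_pow, D.hX, D.hC, map_pow]
    congr 1
    ext1 m
    rw [PowerSeries.coeff_mk, PowerSeries.coeff_mk, PowerSeries.coeff_mk]
  have hth : (PowerSeries.C (HahnSeries.ofPowerSeries ℤ k (t.θ l)) :
      PowerSeries (LaurentSeries k)) ^ (i : ℕ) =
      PowerSeries.C (HahnSeries.ofPowerSeries ℤ k (t.θ l) ^ (i : ℕ)) := by
    rw [map_pow]
  rw [Polynomial.eval₂_mul, Polynomial.eval₂_C, Polynomial.eval₂_pow, Polynomial.eval₂_X,
    RingHom.comp_apply, hco, hth, PowerSeries.coeff_mul_C, PowerSeries.coeff_mul_C,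
    PowerSeries.coeff_mk]
  have h1 : (j : ℕ) ≤ M := Nat.lt_succ_iff.mp j.2
  have h2 : c.a * (i : ℕ) ≤ c.a * c.N := Nat.mul_le_mul_left _ i.2.le
  have h3 : (HahnSeries.ofPowerSeries ℤ k PowerSeries.X) ^ (M + c.a * c.N - (j : ℕ) - c.a * (i : ℕ))
      = (HahnSeries.ofPowerSeries ℤ k PowerSeries.X) ^ (M + c.a * c.N) *
        (U k ^ ((j : ℕ) + c.a * (i : ℕ))) := by
    rw [jr_cancel jr_TU (by omega), Nat.sub_sub]
  rw [h3, pow_add, pow_mul, mul_pow]
  ring

theorem exists_jalg [Finite k] {c : Cv k} (t : Th c) (i0 : Fin c.N) {n : ℕ} (hn : 2 ≤ n) :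
    Nonempty (JAlg c t i0 (Nat.card k ^ (n - 1)) (Nat.card k ^ n)) := by
  have hq : 2 ≤ Nat.card k := Finite.one_lt_card
  have hQ : 2 ≤ Nat.card k ^ (n - 1) :=
    le_trans hq (Nat.le_self_pow (by omega) _)
  obtain ⟨M, g, x, d, o, hx, hx0, hd0, ho0, ho, hJ⟩ := jv t i0 hQ (Nat.card k ^ n)
  obtain ⟨D⟩ := jr_tr k
  choose F hF hF0 using fun l => D.ex (o l) (ho0 l) (fun m hm => ho l m hm)
  refine ⟨{
    M := M
    g := g
    ρ := fun i j => PowerSeries.mk fun m => (x m i).coeff j
    γ := fun l m => PowerSeries.mk fun n => d n l m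
    o := F
    e1 := 1 + g * Nat.card k ^ n + g * c.N
    e2 := M + c.a * c.N + g
    hρ := ?_
    hγ := ?_
    ho := hF0
    eq := ?_ }⟩
  · intro i j
    rw [← PowerSeries.coeff_zero_eq_constantCoeff_apply, PowerSeries.coeff_mk, hx0]
    by_cases hi : (i : ℕ) = 0
    · by_cases hj : (j : ℕ) = 0
      · rw [if_pos hi, if_pos ⟨hi, hj⟩, hj, Polynomial.coeff_one_zero]
      · rw [if_pos hi, if_neg (fun h => hj h.2), Polynomial.coeff_one, if_neg hj]
    · rw [if_neg hi, if_neg (fun h => hi h.1), Polynomial.coeff_zero]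
  · intro l m
    rw [← PowerSeries.coeff_zero_eq_constantCoeff_apply, PowerSeries.coeff_mk, hd0]
    rfl
  · intro l
    apply D.inj
    have hG : ∀ l', D.φ ((gpol (fun m => PowerSeries.mk fun n => d n l' m) :
        Polynomial (PowerSeries k)) : PowerSeries (PowerSeries k)) =
        PowerSeries.C (HahnSeries.ofPowerSeries ℤ k PowerSeries.X) ^ g *
          (1 + PowerSeries.mk (fun n => gel (d n l'))) := fun l' => jr_gpol D (fun n => d n l')
    have hG' := jr_gpol' D (Nat.card k ^ n)
      (fun m => if Nat.card k ^ (n - 1) ∣ m then d (m / Nat.card k ^ (n - 1)) l else 0)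
      (fun m => (PowerSeries.mk fun n => d n l m) ^ Nat.card k ^ (n - 1)) (by
        intro m
        rw [jr_pow]
        ext i
        rw [PowerSeries.coeff_mk]
        by_cases h : Nat.card k ^ (n - 1) ∣ i
        · rw [if_pos h, PowerSeries.coeff_mk, PowerSeries.coeff_mk, if_pos h]
        · rw [if_neg h, PowerSeries.coeff_mk, if_neg h]
          rfl)
    have hG2 : (fun m => gel' (Nat.card k ^ n) (if Nat.card k ^ (n - 1) ∣ m then
        d (m / Nat.card k ^ (n - 1)) l else 0)) = fun m => if Nat.card k ^ (n - 1) ∣ m then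
          gel' (Nat.card k ^ n) (d (m / Nat.card k ^ (n - 1)) l) else 0 := by
      funext m
      split_ifs
      · rfl
      · rw [gel']
        exact Finset.sum_eq_zero (fun m _ => by rw [Pi.zero_apply, zero_smul])
    rw [hG2] at hG'
    have hu : D.φ (if l = i0 then PowerSeries.X - PowerSeries.C PowerSeries.X else PowerSeries.X) =
        PowerSeries.C (HahnSeries.ofPowerSeries ℤ k PowerSeries.X) *
          (if l = i0 then 1 - PowerSeries.X * PowerSeries.C (U k) else 1) := by
      split_ifs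
      · rw [map_sub, D.hX, D.hS, mul_sub, mul_one, mul_left_comm, jr_TUc, mul_one]
      · rw [D.hX, mul_one]
    rw [map_mul, map_mul, map_mul, map_mul, map_mul, map_mul, map_pow, map_pow, map_prod, hu, hG',
      jr_hpol D t l M x hx, hG l, hF l, D.hX]
    rw [Finset.prod_congr rfl (fun l' _ => hG l'), Finset.prod_mul_distrib, Finset.prod_const,
      Finset.card_univ, Fintype.card_fin, ← pow_mul]
    have h1 := hJ l
    generalize (PowerSeries.C (HahnSeries.ofPowerSeries ℤ k PowerSeries.X) :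
      PowerSeries (LaurentSeries k)) = T
    linear_combination (T ^ (M + c.a * c.N) * T ^ g * T ^ (1 + g * Nat.card k ^ n + g * c.N)) * h1

end TGJ
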