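import Pool.Agent.TGJ.Defs

set_option autoImplicit false

/-!
# TGJ-15: the multiplicities of the roots of `gpol'`

Let `q = p^f`, `e = q^n`, `Q = q^(n-1)`; choose `κ_m` with `κ_m^q = c_m` (`Ω` algebraically closed), then
`gpol' e (c^Q) = (gpol κ)^e` (characteristic `p`: `add_pow_char_pow`, `sum_pow_char_pow`; note
`c_m^Q = κ_m^e`), and
`rootMultiplicity β (gpol κ) = rootMultiplicity (β^q) (gpol c)` as `gpol c` is the image of
`gpol κ` under the Frobenius `x ↦ x^q` (`Polynomial.eq_rootMultiplicity_map`).  So the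
multiplicity is `e` times this (`rootMultiplicity_pow`).
`gpol_ne`: `constantCoeff (c m) = 0`, so `gpol c` modulo `s` is `X^g`.
`gpol_root`: a root `β` of `gpol` with `v β ≥ 1`: divide by `β^g`: `1 + ∑ c_m β^(-m) = 0`, but the
sum is small.
-/

noncomputable section

open Polynomial PowerSeries
open scoped Classical

namespace TGJ

universe u v

variable {k : Type u} [Field k] {Ω : Type v} [Field Ω]

private theorem mult_map {A : Type u} {B : Type v} [CommRing A] [CommRing B] (φ : A →+* B)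
    {g : ℕ} (c : Fin g → A) : (gpol c).map φ = gpol (fun m => φ (c m)) := by
  simp only [gpol, Polynomial.map_add, Polynomial.map_sum, Polynomial.map_mul,
    Polynomial.map_pow, Polynomial.map_X, Polynomial.map_C]

private theorem mult_pow {p : ℕ} [Fact p.Prime] [CharP Ω p] (N : ℕ) {g : ℕ} (κ : Fin g → Ω) :
    gpol' (p ^ N) (fun m => κ m ^ (p ^ N)) = gpol κ ^ (p ^ N) := by
  have h1 : ∀ x : Polynomial Ω, x ^ (p ^ N) = iterateFrobenius (Polynomial Ω) p N x := fun x => by
    rw [iterateFrobenius_def]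
  rw [h1, gpol, gpol', map_add, map_sum]
  congr 1
  · rw [← h1, pow_mul]
  · refine Finset.sum_congr rfl fun m _ => ?_
    rw [map_mul, ← h1, ← h1, ← Polynomial.C_pow, ← pow_mul]

theorem mult_gpol' [IsAlgClosed Ω] {q n : ℕ} (hn : 1 ≤ n) {p f : ℕ} [Fact p.Prime] [CharP Ω p]
    (hq : q = p ^ f) (hf : f ≠ 0) {g : ℕ} (c : Fin g → Ω) (β : Ω) :
    rootMultiplicity β (gpol' (q ^ n) (fun m => c m ^ (q ^ (n - 1)))) =
      q ^ n * rootMultiplicity (β ^ q) (gpol c) := by
  have hp : 0 < p := (Fact.out : p.Prime).pos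
  have hq0 : 0 < q := by rw [hq]; exact pow_pos hp f
  choose κ hκ using fun m => IsAlgClosed.exists_pow_nat_eq (c m) hq0
  have hqn : q ^ n = p ^ (f * n) := by rw [hq, pow_mul]
  have hcm : (fun m => c m ^ (q ^ (n - 1))) = fun m => κ m ^ (p ^ (f * n)) := by
    funext m
    rw [← hκ m, ← pow_mul, ← pow_succ', Nat.sub_add_cancel hn, hqn]
  have hgc : gpol c = (gpol κ).map (iterateFrobenius Ω p f) := by
    rw [mult_map]
    congr 1
    funext m
    rw [iterateFrobenius_def, ← hq, hκ]
  have hroot : rootMultiplicity (β ^ q) (gpol c) = rootMultiplicity β (gpol κ) := by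
    have h1 : β ^ q = iterateFrobenius Ω p f β := by rw [iterateFrobenius_def, hq]
    rw [hgc, h1]
    exact (Polynomial.eq_rootMultiplicity_map (iterateFrobenius Ω p f).injective β).symm
  rw [hroot, hcm, hqn, mult_pow]
  by_cases h0 : gpol κ = 0
  · rw [h0, zero_pow (pow_pos hp _).ne', Polynomial.rootMultiplicity_zero, mul_zero]
  · rw [← Polynomial.count_roots, ← Polynomial.count_roots, Polynomial.roots_pow,
      Multiset.count_nsmul]

theorem gpol_map {A : Type u} {B : Type v} [CommRing A] [CommRing B] (φ : A →+* B) {g : ℕ}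
    (c : Fin g → A) : (gpol c).map φ = gpol (fun m => φ (c m)) := mult_map φ c

theorem gpol'_map {A : Type u} {B : Type v} [CommRing A] [CommRing B] (φ : A →+* B) {g : ℕ}
    (e : ℕ) (c : Fin g → A) : (gpol' e c).map φ = gpol' e (fun m => φ (c m)) := by
  simp only [gpol', Polynomial.map_add, Polynomial.map_sum, Polynomial.map_mul,
    Polynomial.map_pow, Polynomial.map_X, Polynomial.map_C]

theorem gpol_ne {g : ℕ} {c : Fin g → k⟦X⟧} (hc : ∀ m, PowerSeries.constantCoeff (c m) = 0) :
    gpol c ≠ 0 := by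
  intro h
  have h1 := gpol_map (PowerSeries.constantCoeff (R := k)) c
  rw [h, Polynomial.map_zero] at h1
  have h2 : gpol (fun m => PowerSeries.constantCoeff (c m)) = (Polynomial.X : Polynomial k) ^ g := by
    unfold gpol
    simp only [hc, Polynomial.C_0, zero_mul, Finset.sum_const_zero, add_zero]
  rw [h2] at h1
  exact pow_ne_zero g Polynomial.X_ne_zero h1.symm

theorem gpol_root (w : Om k Ω) {g : ℕ} {c : Fin g → k⟦X⟧}
    (hc : ∀ m, PowerSeries.constantCoeff (c m) = 0) {β : Ω}
    (h : ((gpol c).map w.j).eval β = 0) : w.sm β := by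
  unfold Om.sm
  by_contra hcon
  rw [not_lt] at hcon
  have hβ0 : w.A.valuation β ≠ 0 := (lt_of_lt_of_le zero_lt_one hcon).ne'
  have hcm : ∀ m, w.A.valuation (w.j (c m)) < 1 := by
    intro m
    obtain ⟨r, hr⟩ := PowerSeries.X_dvd_iff.2 (hc m)
    rw [hr, map_mul, map_mul]
    have h1 : w.A.valuation (w.j r) ≤ 1 := (ValuationSubring.valuation_le_one_iff _ _).2 (w.mem r)
    calc w.A.valuation (w.j PowerSeries.X) * w.A.valuation (w.j r)
        ≤ w.A.valuation (w.j PowerSeries.X) * 1 := mul_le_mul_right h1 _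
      _ = w.A.valuation (w.j PowerSeries.X) := mul_one _
      _ < 1 := w.non
  rw [gpol_map] at h
  simp only [gpol, Polynomial.eval_add, Polynomial.eval_finsetSum, Polynomial.eval_mul,
    Polynomial.eval_pow, Polynomial.eval_X, Polynomial.eval_C] at h
  have h2 : w.A.valuation (∑ m : Fin g, w.j (c m) * β ^ (g - (m : ℕ))) <
      w.A.valuation β ^ g := by
    refine Valuation.map_sum_lt _ (pow_ne_zero g hβ0) fun m _ => ?_
    rw [map_mul, map_pow]
    have h3 : w.A.valuation β ^ (g - (m : ℕ)) ≤ w.A.valuation β ^ g :=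
      pow_le_pow_right₀ hcon (Nat.sub_le _ _)
    have h4 : w.A.valuation β ^ (g - (m : ℕ)) ≠ 0 := pow_ne_zero _ hβ0
    calc w.A.valuation (w.j (c m)) * w.A.valuation β ^ (g - (m : ℕ))
        < 1 * w.A.valuation β ^ (g - (m : ℕ)) :=
          mul_lt_mul_of_pos_right (hcm m) (zero_lt_iff.2 h4)
      _ = w.A.valuation β ^ (g - (m : ℕ)) := one_mul _
      _ ≤ w.A.valuation β ^ g := h3
  have h5 : β ^ g = - ∑ m : Fin g, w.j (c m) * β ^ (g - (m : ℕ)) := eq_neg_of_add_eq_zero_left h
  have h6 : w.A.valuation β ^ g =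
      w.A.valuation (∑ m : Fin g, w.j (c m) * β ^ (g - (m : ℕ))) := by
    rw [← map_pow, h5, Valuation.map_neg]
  rw [← h6] at h2
  exact lt_irrefl _ h2

end TGJ
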