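import Pool.Agent.TGJ.Val

set_option autoImplicit false

/-!
# TGJ-12: the roots of `F(β, Y)` for small `β`

`at_coeff`: the coefficients of `F(β, Y)` are in `A`, and congruent to those of `F(0, Y)`
(`v(β) < 1`).  `F(β, i η) - i (F(0, η))` is small, `F(0, η_l) = 0`.  As `Ω` is algebraically
closed `F(β, Y) = ∏ (Y - ρ_m)`, with `ρ_m ∈ A` (`Om.int`), so `∏ (i η_l - ρ_m)` is small, and some
`i η_l - ρ_m` is small.  The differences `i η_l - i η_l'` are units, so the `N` roots found
in this way are distinct, they are all the roots, and all are simple.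
`frob`: with `q` the cardinality of `k`, `F(β, ρ)^q = F(β^q, ρ^q)` and `(ρ - i η)^q = ρ^q - i η`.
-/

noncomputable section

open Polynomial PowerSeries
open scoped Classical

namespace TGJ

universe u v

variable {k : Type u} [Field k] {Ω : Type v} [Field Ω]

private theorem root_i_le (w : Om k Ω) (x : k) : w.A.valuation (w.i x) ≤ 1 := by
  by_cases hx : x = 0
  · rw [hx, map_zero, map_zero]
    exact zero_le_one
  · exact (w.v_i hx).le

private theorem root_zero (w : Om k Ω) : w.sm 0 := by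
  show w.A.valuation 0 < 1
  rw [map_zero]
  exact zero_lt_one

private theorem root_sum (w : Om k Ω) {ι : Type*} (s : Finset ι) (f : ι → Ω)
    (h : ∀ n ∈ s, w.sm (f n)) : w.sm (∑ n ∈ s, f n) := by
  induction s using Finset.induction_on with
  | empty =>
    rw [Finset.sum_empty]
    exact root_zero w
  | insert a s ha ih =>
    rw [Finset.sum_insert ha]
    exact w.sm_add (h a (Finset.mem_insert_self a s)) (ih fun n hn => h n (Finset.mem_insert_of_mem hn))

private theorem root_ev_le (w : Om k Ω) {β : Ω} (hβ : w.sm β) (p : k[X]) :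
    w.A.valuation (p.eval₂ w.i β) ≤ 1 := by
  have hb : β ∈ w.A := (w.A.valuation_le_one_iff β).1 (le_of_lt hβ)
  have hi : ∀ x, w.i x ∈ w.A := fun x => (w.A.valuation_le_one_iff _).1 (root_i_le w x)
  rw [w.A.valuation_le_one_iff, Polynomial.eval₂_eq_sum_range]
  exact w.A.toSubring.sum_mem fun n _ => w.A.toSubring.mul_mem (hi _) (w.A.toSubring.pow_mem hb n)

private theorem root_ev_sm (w : Om k Ω) {β : Ω} (hβ : w.sm β) (p : k[X]) :
    w.sm (p.eval₂ w.i β - w.i (p.eval 0)) := by
  have e : p.eval₂ w.i β = w.i (p.eval 0) + β * (p.divX.eval₂ w.i β) := by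
    conv_lhs => rw [← Polynomial.X_mul_divX_add p]
    rw [Polynomial.eval₂_add, Polynomial.eval₂_mul, Polynomial.eval₂_X, Polynomial.eval₂_C,
      Polynomial.coeff_zero_eq_eval_zero]
    ring
  rw [e, add_sub_cancel_left]
  exact w.sm_mul hβ (root_ev_le w hβ _)

private theorem root_at_coeff (c : Cv k) (w : Om k Ω) (β : Ω) (n : ℕ) :
    (c.at w.i β).coeff n = (c.F.coeff n).eval₂ w.i β := by
  rw [Cv.at, Polynomial.coeff_map]
  rfl

private theorem root_deg_split (c : Cv k) : c.F.natDegree = c.N := by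
  have h1 := congrArg Polynomial.natDegree c.split
  rw [c.monic.natDegree_map, Polynomial.natDegree_prod_of_monic _ _
    (fun i _ => Polynomial.monic_X_sub_C (c.η i))] at h1
  rw [h1]
  simp

private theorem root_at_monic (c : Cv k) (w : Om k Ω) (β : Ω) : (c.at w.i β).Monic :=
  c.monic.map _

private theorem root_at_deg (c : Cv k) (w : Om k Ω) (β : Ω) : (c.at w.i β).natDegree = c.N := by
  rw [Cv.at, c.monic.natDegree_map, root_deg_split]

private theorem root_prod (c : Cv k) (w : Om k Ω) (y : Ω) :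
    ∏ l, (y - w.i (c.η l)) = ∑ n ∈ Finset.range (c.N + 1), w.i ((c.F.coeff n).eval 0) * y ^ n := by
  have h1 : ((c.F.map (evalRingHom 0)).map w.i).eval y = ∏ l, (y - w.i (c.η l)) := by
    rw [c.split, Polynomial.map_prod, Polynomial.eval_prod]
    refine Finset.prod_congr rfl fun l _ => ?_
    simp
  rw [← h1, Polynomial.eval_eq_sum_range' (n := c.N + 1)]
  · refine Finset.sum_congr rfl fun n _ => ?_
    rw [Polynomial.coeff_map, Polynomial.coeff_map, Polynomial.coe_evalRingHom]
  · rw [(c.monic.map _).natDegree_map, c.monic.natDegree_map, root_deg_split]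
    exact Nat.lt_succ_self _

private theorem root_near (c : Cv k) (w : Om k Ω) {β y : Ω} (hβ : w.sm β)
    (hy : w.A.valuation y ≤ 1) : w.sm ((c.at w.i β).eval y - ∏ l, (y - w.i (c.η l))) := by
  rw [root_prod, Polynomial.eval_eq_sum_range' (n := c.N + 1), ← Finset.sum_sub_distrib]
  · refine root_sum w _ _ fun n _ => ?_
    rw [root_at_coeff, ← sub_mul]
    refine w.sm_mul (root_ev_sm w hβ _) ?_
    rw [map_pow]
    exact pow_le_one₀ zero_le hy
  · rw [root_at_deg]
    exact Nat.lt_succ_self _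

private theorem root_factor (w : Om k Ω) (s : Multiset Ω) (y : Ω)
    (h : w.sm ((s.map fun a => y - a).prod)) : ∃ a ∈ s, w.sm (y - a) := by
  induction s using Multiset.induction_on with
  | empty =>
    rw [Multiset.map_zero, Multiset.prod_zero] at h
    exact absurd h (by
      show ¬ w.A.valuation 1 < 1
      rw [map_one]
      exact lt_irrefl 1)
  | cons a s ih =>
    rw [Multiset.map_cons, Multiset.prod_cons] at h
    by_cases ha : w.sm (y - a)
    · exact ⟨a, Multiset.mem_cons_self a s, ha⟩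
    · have h1 : 1 ≤ w.A.valuation (y - a) := not_lt.1 ha
      have h2 : w.sm ((s.map fun a => y - a).prod) := by
        have h3 : w.A.valuation (y - a) * w.A.valuation ((s.map fun a => y - a).prod) < 1 := by
          rw [← map_mul]
          exact h
        refine lt_of_le_of_lt ?_ h3
        exact le_mul_of_one_le_left zero_le h1
      obtain ⟨b, hb, hs⟩ := ih h2
      exact ⟨b, Multiset.mem_cons_of_mem hb, hs⟩

theorem root_exists [IsAlgClosed Ω] (c : Cv k) (w : Om k Ω) {β : Ω} (hβ : w.sm β)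
    (l : Fin c.N) : ∃ ρ : Ω, (c.at w.i β).eval ρ = 0 ∧ w.sm (ρ - w.i (c.η l)) := by
  have h1 := root_near c w hβ (root_i_le w (c.η l))
  have h2 : ∏ l', (w.i (c.η l) - w.i (c.η l')) = 0 :=
    Finset.prod_eq_zero (Finset.mem_univ l) (sub_self _)
  rw [h2, sub_zero] at h1
  have h3 := (IsAlgClosed.splits (c.at w.i β)).eq_prod_roots_of_monic (root_at_monic c w β)
  have h4 : (c.at w.i β).eval (w.i (c.η l)) =
      (((c.at w.i β).roots).map fun a => w.i (c.η l) - a).prod := by
    conv_lhs => rw [h3]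
    rw [Polynomial.eval_multiset_prod, Multiset.map_map]
    simp
  rw [h4] at h1
  obtain ⟨ρ, hρ, hs⟩ := root_factor w _ _ h1
  refine ⟨ρ, (Polynomial.mem_roots'.1 hρ).2, ?_⟩
  have e : ρ - w.i (c.η l) = 0 - (w.i (c.η l) - ρ) := by ring
  rw [e]
  exact w.sm_sub (root_zero w) hs

private theorem root_idx (c : Cv k) (w : Om k Ω) {ρ : Ω} {l l' : Fin c.N}
    (h : w.sm (ρ - w.i (c.η l))) (h' : w.sm (ρ - w.i (c.η l'))) : l = l' := by
  by_contra hne
  have h1 := w.sm_sub h h'
  have e : ρ - w.i (c.η l) - (ρ - w.i (c.η l')) = w.i (c.η l' - c.η l) := by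
    rw [map_sub]
    ring
  rw [e] at h1
  have h2 : c.η l' - c.η l ≠ 0 := sub_ne_zero.2 fun h3 => hne (c.inj h3).symm
  have h3 := w.v_i h2
  exact absurd h1 (by
    show ¬ w.A.valuation _ < 1
    rw [h3]
    exact lt_irrefl 1)

private theorem root_all [IsAlgClosed Ω] (c : Cv k) (w : Om k Ω) {β : Ω} (hβ : w.sm β) :
    ∃ f : Fin c.N → Ω, (∀ l, (c.at w.i β).eval (f l) = 0 ∧ w.sm (f l - w.i (c.η l))) ∧
      (∀ ρ, (c.at w.i β).eval ρ = 0 → ∃ l, ρ = f l) ∧ (c.at w.i β).roots.Nodup := by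
  choose f hf using fun l => root_exists c w hβ l
  have hP : c.at w.i β ≠ 0 := (root_at_monic c w β).ne_zero
  have hinj : Function.Injective f := by
    intro l l' h
    refine root_idx c w (hf l).2 ?_
    rw [h]
    exact (hf l').2
  have hcard : (c.at w.i β).roots.card = c.N := by
    rw [← (IsAlgClosed.splits (c.at w.i β)).natDegree_eq_card_roots, root_at_deg]
  have hsub : Finset.univ.image f ⊆ (c.at w.i β).roots.toFinset := by
    intro x hx
    obtain ⟨l, _, rfl⟩ := Finset.mem_image.1 hx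
    rw [Multiset.mem_toFinset, Polynomial.mem_roots hP]
    exact (hf l).1
  have hc1 : (Finset.univ.image f).card = c.N := by
    rw [Finset.card_image_of_injective _ hinj, Finset.card_univ, Fintype.card_fin]
  have hc2 := Finset.card_le_card hsub
  have hc3 := Multiset.toFinset_card_le (c.at w.i β).roots
  have hc4 : (c.at w.i β).roots.toFinset.card = (c.at w.i β).roots.card := by omega
  have heq : Finset.univ.image f = (c.at w.i β).roots.toFinset :=
    Finset.eq_of_subset_of_card_le hsub (by omega)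
  refine ⟨f, hf, fun ρ hρ => ?_, Multiset.toFinset_card_eq_card_iff_nodup.1 hc4⟩
  have h1 : ρ ∈ (c.at w.i β).roots.toFinset := by
    rw [Multiset.mem_toFinset, Polynomial.mem_roots hP]
    exact hρ
  rw [← heq] at h1
  obtain ⟨l, _, hl⟩ := Finset.mem_image.1 h1
  exact ⟨l, hl.symm⟩

theorem root_unique [IsAlgClosed Ω] (c : Cv k) (w : Om k Ω) {β : Ω} (hβ : w.sm β)
    (l : Fin c.N) {ρ ρ' : Ω} (h : (c.at w.i β).eval ρ = 0) (hs : w.sm (ρ - w.i (c.η l)))
    (h' : (c.at w.i β).eval ρ' = 0) (hs' : w.sm (ρ' - w.i (c.η l))) : ρ = ρ' := by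
  obtain ⟨f, hf, hall, _⟩ := root_all c w hβ
  have key : ∀ x, (c.at w.i β).eval x = 0 → w.sm (x - w.i (c.η l)) → x = f l := by
    intro x hx hxs
    obtain ⟨l', hl'⟩ := hall x hx
    have h1 : l' = l := by
      refine root_idx c w (ρ := x) ?_ hxs
      rw [hl']
      exact (hf l').2
    rw [hl', h1]
  rw [key ρ h hs, key ρ' h' hs']

theorem root_cases [IsAlgClosed Ω] (c : Cv k) (w : Om k Ω) {β : Ω} (hβ : w.sm β)
    {ρ : Ω} (h : (c.at w.i β).eval ρ = 0) : ∃ l : Fin c.N, w.sm (ρ - w.i (c.η l)) := by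
  obtain ⟨f, hf, hall, _⟩ := root_all c w hβ
  obtain ⟨l, hl⟩ := hall ρ h
  refine ⟨l, ?_⟩
  rw [hl]
  exact (hf l).2

theorem root_simple [IsAlgClosed Ω] (c : Cv k) (w : Om k Ω) {β : Ω} (hβ : w.sm β)
    {ρ : Ω} (h : (c.at w.i β).eval ρ = 0) : (c.at w.i β).derivative.eval ρ ≠ 0 := by
  obtain ⟨_, _, _, hn⟩ := root_all c w hβ
  have hP : c.at w.i β ≠ 0 := (root_at_monic c w β).ne_zero
  intro hd
  have h1 : 1 < (c.at w.i β).rootMultiplicity ρ :=
    (Polynomial.one_lt_rootMultiplicity_iff_isRoot hP).2 ⟨h, hd⟩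
  rw [← Polynomial.count_roots] at h1
  have h2 := Multiset.nodup_iff_count_le_one.1 hn ρ
  omega

theorem idx_unique (c : Cv k) (w : Om k Ω) {ρ : Ω} {l l' : Fin c.N}
    (h : w.sm (ρ - w.i (c.η l))) (h' : w.sm (ρ - w.i (c.η l'))) : l = l' :=
  root_idx c w h h'

private theorem root_phi [Finite k] (w : Om k Ω) : ∃ φ : Ω →+* Ω,
    (∀ x, φ x = x ^ Nat.card k) ∧ ∀ x : k, φ (w.i x) = w.i x := by
  have := Fintype.ofFinite k
  obtain ⟨p, hp⟩ := CharP.exists k
  have := hp
  obtain ⟨n, hpr, hc⟩ := FiniteField.card k p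
  have : Fact p.Prime := ⟨hpr⟩
  have : CharP Ω p := charP_of_injective_ringHom w.i.injective p
  have hc' : Nat.card k = p ^ (n : ℕ) := by rw [Nat.card_eq_fintype_card, hc]
  refine ⟨iterateFrobenius Ω p n, fun x => ?_, fun x => ?_⟩
  · rw [iterateFrobenius_def, hc']
  · rw [iterateFrobenius_def, ← map_pow, ← hc, FiniteField.pow_card]

theorem root_frob [Finite k] (c : Cv k) (w : Om k Ω) {β ρ : Ω}
    (h : (c.at w.i β).eval ρ = 0) :
    (c.at w.i (β ^ Nat.card k)).eval (ρ ^ Nat.card k) = 0 := by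
  obtain ⟨φ, h1, h2⟩ := root_phi w
  have e : c.at w.i (β ^ Nat.card k) = (c.at w.i β).map φ := by
    rw [Cv.at, Cv.at, Polynomial.map_map]
    congr 1
    refine Polynomial.ringHom_ext (fun x => ?_) ?_
    · simp [h2]
    · simp [h1]
  rw [e, ← h1 ρ, Polynomial.eval_map, Polynomial.eval₂_hom, h, map_zero]

theorem sm_frob [Finite k] (c : Cv k) (w : Om k Ω) {ρ : Ω} {l : Fin c.N}
    (h : w.sm (ρ - w.i (c.η l))) : w.sm (ρ ^ Nat.card k - w.i (c.η l)) := by
  obtain ⟨φ, h1, h2⟩ := root_phi w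
  have e : ρ ^ Nat.card k - w.i (c.η l) = (ρ - w.i (c.η l)) ^ Nat.card k := by
    rw [← h1, ← h1, map_sub, h2]
  rw [e]
  obtain ⟨m, hm⟩ : ∃ m, Nat.card k = m + 1 := ⟨Nat.card k - 1, by
    have : 0 < Nat.card k := Nat.card_pos
    omega⟩
  rw [hm, pow_succ']
  refine w.sm_mul h ?_
  rw [map_pow]
  exact pow_le_one₀ zero_le (le_of_lt h)

end TGJ
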