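import Pool.Agent.TGJ.Pts
import Pool.Agent.TGJ.Root
import Pool.Agent.TGJ.Mult

set_option autoImplicit false

/-!
# TGJ-19: the divisor `μ`

The divisor has the multiplicity of `y T` as a root of the gap polynomial `gpol (γ l)` at a point
`y` with `y T` small and `y θ - i (η l)` small, and is `0` at all other points.  The support is
finite, since such a point is determined by `l` and the root.
-/

noncomputable section

open Polynomial PowerSeries
open scoped Classical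

namespace TGJ

open TGF

universe u v

variable {k0 L Ω : Type u} [Field k0] [Field L] [Field Ω]

/-- the multiplicity at `y` -/
private def mu_f (p0 : SRG.Pl (RatFunc k0) L) (c : Cv k0) (w : Om k0 Ω) {g : ℕ}
    (γ : Fin c.N → Fin g → k0⟦X⟧) (y : L →+* Ω) : ℤ :=
  if h : Pnt p0 w.i y ∧ w.sm (y (cT p0)) ∧ ∃ l, w.sm (y (th p0) - w.i (c.η l)) then
    (rootMultiplicity (y (cT p0)) ((gpol (γ h.2.2.choose)).map w.j) : ℤ)
  else 0

private theorem mu_f_eq {p0 : SRG.Pl (RatFunc k0) L} {c : Cv k0} (w : Om k0 Ω) {g : ℕ}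
    (γ : Fin c.N → Fin g → k0⟦X⟧) {y : L →+* Ω} (hy : Pnt p0 w.i y) {l : Fin c.N}
    (hT : w.sm (y (cT p0))) (hl : w.sm (y (th p0) - w.i (c.η l))) :
    mu_f p0 c w γ y = rootMultiplicity (y (cT p0)) ((gpol (γ l)).map w.j) := by
  have h : Pnt p0 w.i y ∧ w.sm (y (cT p0)) ∧ ∃ l, w.sm (y (th p0) - w.i (c.η l)) :=
    ⟨hy, hT, l, hl⟩
  have e : h.2.2.choose = l := idx_unique c w h.2.2.choose_spec hl
  rw [mu_f, dif_pos h, e]

private theorem mu_poly_ne (w : Om k0 Ω) {g : ℕ} {γ : Fin g → k0⟦X⟧}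
    (hγ : ∀ m, PowerSeries.constantCoeff (γ m) = 0) : (gpol γ).map w.j ≠ 0 := by
  intro h
  exact gpol_ne hγ (Polynomial.map_injective w.j w.inj (by rw [h, Polynomial.map_zero]))

private theorem mu_fin [IsAlgClosed Ω] {p0 : SRG.Pl (RatFunc k0) L} {c : Cv k0}
    (hc : c.F.map (algebraMap k0[X] (RatFunc k0)) = p0.P) (w : Om k0 Ω) {g : ℕ}
    (γ : Fin c.N → Fin g → k0⟦X⟧) (hγ : ∀ l m, PowerSeries.constantCoeff (γ l m) = 0) :
    (Function.support (mu_f p0 c w γ)).Finite := by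
  have hsub : Function.support (mu_f p0 c w γ) ⊆ ⋃ l : Fin c.N,
      {y : L →+* Ω | Pnt p0 w.i y ∧ w.sm (y (cT p0)) ∧ w.sm (y (th p0) - w.i (c.η l)) ∧
        y (cT p0) ∈ ((gpol (γ l)).map w.j).roots.toFinset} := by
    intro y hy
    rw [Function.mem_support] at hy
    by_cases h : Pnt p0 w.i y ∧ w.sm (y (cT p0)) ∧ ∃ l, w.sm (y (th p0) - w.i (c.η l))
    · obtain ⟨h1, h2, l, h3⟩ := h
      rw [mu_f_eq w γ h1 h2 h3] at hy
      rw [Set.mem_iUnion]
      refine ⟨l, h1, h2, h3, ?_⟩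
      rw [Multiset.mem_toFinset, Polynomial.mem_roots (mu_poly_ne w (hγ l))]
      rw [← Polynomial.rootMultiplicity_pos (mu_poly_ne w (hγ l))]
      rw [Nat.pos_iff_ne_zero]
      intro h4
      exact hy (by rw [h4]; rfl)
    · exact absurd (by rw [mu_f, dif_neg h]) hy
  refine (Set.finite_iUnion fun l => ?_).subset hsub
  refine Set.Finite.of_injOn (f := fun y : L →+* Ω => y (cT p0))
    (t := (((gpol (γ l)).map w.j).roots.toFinset : Set Ω)) ?_ ?_ (Finset.finite_toSet _)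
  · rintro y ⟨_, _, _, h4⟩
    exact Finset.mem_coe.2 h4
  · rintro y ⟨h1, h2, h3, h4⟩ y' ⟨h1', h2', h3', h4'⟩ hyy
    have hyy' : y (cT p0) = y' (cT p0) := hyy
    have hr := pnt_root hc h1
    have hr' := pnt_root hc h1'
    rw [← hyy'] at hr'
    have hth : y (th p0) = y' (th p0) := root_unique c w h2 l hr h3 hr' h3'
    refine pnt_ext (fun x => ?_) hyy' hth
    rw [h1.ov, h1'.ov]

theorem exists_mu [IsAlgClosed Ω] {p0 : SRG.Pl (RatFunc k0) L} {c : Cv k0}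
    (hc : c.F.map (algebraMap k0[X] (RatFunc k0)) = p0.P) (w : Om k0 Ω) {g : ℕ}
    (γ : Fin c.N → Fin g → k0⟦X⟧) (hγ : ∀ l m, PowerSeries.constantCoeff (γ l m) = 0) :
    ∃ μ : (L →+* Ω) →₀ ℤ, (∀ y, μ y ≠ 0 → Pnt p0 w.i y) ∧
      (∀ y, Pnt p0 w.i y → ∀ l, w.sm (y (cT p0)) → w.sm (y (th p0) - w.i (c.η l)) →
        μ y = rootMultiplicity (y (cT p0)) ((gpol (γ l)).map w.j)) ∧
      (∀ y, Pnt p0 w.i y → ¬ w.sm (y (cT p0)) → μ y = 0) := by
  refine ⟨Finsupp.ofSupportFinite (mu_f p0 c w γ) (mu_fin hc w γ hγ), ?_, ?_, ?_⟩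
  · intro y hy
    rw [Finsupp.ofSupportFinite_coe] at hy
    by_contra hn
    exact hy (by rw [mu_f, dif_neg fun h => hn h.1])
  · intro y hy l hT hl
    rw [Finsupp.ofSupportFinite_coe]
    exact mu_f_eq w γ hy hT hl
  · intro y _ hn
    rw [Finsupp.ofSupportFinite_coe, mu_f, dif_neg fun h => hn h.2.1]

end TGJ
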