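import Pool.Agent.TGJ.Ser
import Pool.Agent.TGJ.Mult

set_option autoImplicit false

/-!
# TGJ-17: the points with `|β| ≥ 1`

Let `v = w.A.valuation`, `1 ≤ v β`, `u = β⁻¹`, `v u ≤ 1`, and `F(β, ρ) = 0`.  Then `ϑ = u^a ρ` is in
`A`: it is a root of the monic polynomial `Y^N + ∑_(i < N) u^(a (N - i)) F_i(β) Y^i`
(multiply `F(β, ρ) = 0` by `u^(a N)`), and `u^(a (N - i)) F_i(β)` is a polynomial in `u` over `k` as
`deg F_i ≤ a ≤ a (N - i)` (`Cv.coeff_le`, in `Theta`; restated here as a hypothesis-free fact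
about `Finset.sup`), so `Om.int` applies.  The value of `hpol` at `T = β`, `Y = ρ` is
`β^(M + a N) ∑ j(ρ_(i,j)) u^j ϑ^i`, and the sum is `1` plus a small element by `J.hρ`
(`ρ_(i,j)` is small unless `i = j = 0`, and `1` plus small for `i = j = 0`; this needs `N ≥ 1`).
`far_b`: `gpol_root`.
-/

noncomputable section

open Polynomial PowerSeries
open scoped Classical

namespace TGJ

universe u v

variable {k : Type u} [Field k] {Ω : Type v} [Field Ω]

private theorem far_coeff_le (c : Cv k) (i : ℕ) : (c.F.coeff i).natDegree ≤ c.a := by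
  by_cases h : i ∈ c.F.support
  · unfold Cv.a
    exact Finset.le_sup (f := fun i => (c.F.coeff i).natDegree) h
  · rw [Polynomial.notMem_support_iff.1 h, Polynomial.natDegree_zero]
    exact Nat.zero_le _

private theorem far_deg (c : Cv k) : c.F.natDegree = c.N := by
  have h1 := congrArg Polynomial.natDegree c.split
  rw [c.monic.natDegree_map, Polynomial.natDegree_prod_of_monic _ _
    (fun i _ => Polynomial.monic_X_sub_C (c.η i))] at h1
  rw [h1]
  simp

private theorem far_zero (w : Om k Ω) : w.sm 0 := by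
  show w.A.valuation 0 < 1
  rw [map_zero]
  exact zero_lt_one

private theorem far_sum (w : Om k Ω) {ι : Type*} (s : Finset ι) (f : ι → Ω)
    (h : ∀ n ∈ s, w.sm (f n)) : w.sm (∑ n ∈ s, f n) := by
  induction s using Finset.induction_on with
  | empty =>
    rw [Finset.sum_empty]
    exact far_zero w
  | insert a s ha ih =>
    rw [Finset.sum_insert ha]
    exact w.sm_add (h a (Finset.mem_insert_self a s)) (ih fun n hn => h n (Finset.mem_insert_of_mem hn))

private theorem far_v_i (w : Om k Ω) (x : k) : w.A.valuation (w.i x) ≤ 1 := w.v_j _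

/-- `ϑ` is in `A` -/
private theorem far_theta (c : Cv k) (w : Om k Ω) {β ρ : Ω} (hβ0 : β ≠ 0)
    (hu : w.A.valuation β⁻¹ ≤ 1) (hρ : (c.at w.i β).eval ρ = 0) :
    w.A.valuation (β⁻¹ ^ c.a * ρ) ≤ 1 := by
  have hmon : (c.at w.i β).Monic := c.monic.map _
  have hdeg : (c.at w.i β).natDegree = c.N := by
    rw [Cv.at, c.monic.natDegree_map, far_deg]
  refine w.int (P := (c.at w.i β).scaleRoots (β⁻¹ ^ c.a))
    ((Polynomial.monic_scaleRoots_iff _).2 hmon) ?_ ?_
  · have h := Polynomial.scaleRoots_eval₂_eq_zero (p := c.at w.i β) (RingHom.id Ω) (r := ρ)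
      (s := β⁻¹ ^ c.a) (by rw [Polynomial.eval₂_id]; exact hρ)
    rw [Polynomial.eval₂_id] at h
    exact h
  · intro n
    rw [Polynomial.coeff_scaleRoots, hdeg]
    have hco : (c.at w.i β).coeff n = (c.F.coeff n).eval₂ w.i β := by
      rw [Cv.at, Polynomial.coeff_map]
      rfl
    rcases lt_trichotomy n c.N with hn | hn | hn
    · have h1 : c.a ≤ c.a * (c.N - n) := Nat.le_mul_of_pos_right _ (by omega)
      have h2 : (c.F.coeff n).natDegree ≤ c.a * (c.N - n) := (far_coeff_le c n).trans h1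
      rw [hco, ← pow_mul, Polynomial.eval₂_eq_sum_range, Finset.sum_mul]
      refine Valuation.map_sum_le _ fun m hm => ?_
      have hm' : m ≤ c.a * (c.N - n) := by
        have := Finset.mem_range.1 hm
        omega
      have e : β ^ m * β⁻¹ ^ (c.a * (c.N - n)) = β⁻¹ ^ (c.a * (c.N - n) - m) := by
        have h3 : c.a * (c.N - n) = m + (c.a * (c.N - n) - m) := by omega
        conv_lhs => rw [h3, pow_add, ← mul_assoc, ← mul_pow, mul_inv_cancel₀ hβ0, one_pow, one_mul]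
      rw [mul_assoc, e, map_mul, map_pow]
      exact mul_le_one' (far_v_i w _) (pow_le_one₀ zero_le hu)
    · have h1 : (c.at w.i β).coeff n = 1 := by
        rw [hn, ← hdeg]
        exact hmon.coeff_natDegree
      rw [h1, hn, Nat.sub_self, pow_zero, mul_one, map_one]
    · have h1 : (c.at w.i β).coeff n = 0 := by
        apply Polynomial.coeff_eq_zero_of_natDegree_lt
        rw [hdeg]
        exact hn
      rw [h1, zero_mul, map_zero]
      exact zero_le

theorem far_h {c : Cv k} (hN : 1 ≤ c.N) (w : Om k Ω) {β ρ : Ω}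
    (hβ : 1 ≤ w.A.valuation β) (hρ : (c.at w.i β).eval ρ = 0) {M : ℕ}
    (r : Fin c.N → Fin (M + 1) → k⟦X⟧)
    (hr : ∀ (i : Fin c.N) (j : Fin (M + 1)),
      PowerSeries.constantCoeff (r i j) = if (i : ℕ) = 0 ∧ (j : ℕ) = 0 then 1 else 0) :
    ((hpol c.N M c.a r).map (eval₂RingHom w.j β)).eval ρ ≠ 0 := by
  have hβ0 : β ≠ 0 := by
    rintro rfl
    rw [map_zero] at hβ
    exact absurd hβ (not_le.2 zero_lt_one)
  have hu : w.A.valuation β⁻¹ ≤ 1 := by
    rw [map_inv₀]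
    exact inv_le_one_of_one_le₀ hβ
  have hθ := far_theta c w hβ0 hu hρ
  have e1 : ((hpol c.N M c.a r).map (eval₂RingHom w.j β)).eval ρ =
      β ^ (M + c.a * c.N) * ∑ i : Fin c.N, ∑ j : Fin (M + 1),
        w.j (r i j) * (β⁻¹ ^ (j : ℕ) * (β⁻¹ ^ c.a * ρ) ^ (i : ℕ)) := by
    unfold hpol
    simp only [Polynomial.map_sum, Polynomial.eval_finset_sum, Polynomial.map_mul,
      Polynomial.map_C, Polynomial.map_pow, Polynomial.map_X, Polynomial.eval_mul,
      Polynomial.eval_C, Polynomial.eval_pow, Polynomial.eval_X, Polynomial.coe_eval₂RingHom,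
      Polynomial.eval₂_mul, Polynomial.eval₂_C, Polynomial.eval₂_pow, Polynomial.eval₂_X]
    rw [Finset.mul_sum]
    refine Finset.sum_congr rfl fun i _ => ?_
    rw [Finset.mul_sum]
    refine Finset.sum_congr rfl fun j _ => ?_
    have hj : (j : ℕ) ≤ M := Nat.lt_succ_iff.1 j.2
    have hi : c.a * (i : ℕ) ≤ c.a * c.N := Nat.mul_le_mul_left _ i.2.le
    have h2 : M + c.a * c.N = (M + c.a * c.N - (j : ℕ) - c.a * (i : ℕ)) +
        ((j : ℕ) + c.a * (i : ℕ)) := by omega
    have h3 : β ^ (M + c.a * c.N) = β ^ (M + c.a * c.N - (j : ℕ) - c.a * (i : ℕ)) *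
        (β ^ (j : ℕ) * β ^ (c.a * (i : ℕ))) := by
      conv_lhs => rw [h2]
      rw [pow_add, pow_add]
    have h4 : β ^ (j : ℕ) * β⁻¹ ^ (j : ℕ) = 1 := by
      rw [← mul_pow, mul_inv_cancel₀ hβ0, one_pow]
    have h5 : β ^ (c.a * (i : ℕ)) * β⁻¹ ^ (c.a * (i : ℕ)) = 1 := by
      rw [← mul_pow, mul_inv_cancel₀ hβ0, one_pow]
    rw [h3, mul_pow, ← pow_mul]
    linear_combination (-(w.j (r i j) * β ^ (M + c.a * c.N - (j : ℕ) - c.a * (i : ℕ)) *
      ρ ^ (i : ℕ) * β ^ (c.a * (i : ℕ)) * β⁻¹ ^ (c.a * (i : ℕ)))) * h4 -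
      w.j (r i j) * β ^ (M + c.a * c.N - (j : ℕ) - c.a * (i : ℕ)) * ρ ^ (i : ℕ) * h5
  rw [e1]
  refine mul_ne_zero (pow_ne_zero _ hβ0) ?_
  have e2 : ∑ i : Fin c.N, ∑ j : Fin (M + 1),
      w.j (r i j) * (β⁻¹ ^ (j : ℕ) * (β⁻¹ ^ c.a * ρ) ^ (i : ℕ)) =
      (∑ i : Fin c.N, ∑ j : Fin (M + 1),
        w.j (r i j - if (i : ℕ) = 0 ∧ (j : ℕ) = 0 then 1 else 0) *
          (β⁻¹ ^ (j : ℕ) * (β⁻¹ ^ c.a * ρ) ^ (i : ℕ))) + 1 := by
    have e3 : (∑ i : Fin c.N, ∑ j : Fin (M + 1),
        w.j (if (i : ℕ) = 0 ∧ (j : ℕ) = 0 then 1 else 0) *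
          (β⁻¹ ^ (j : ℕ) * (β⁻¹ ^ c.a * ρ) ^ (i : ℕ))) = 1 := by
      rw [Finset.sum_eq_single (⟨0, hN⟩ : Fin c.N), Finset.sum_eq_single (0 : Fin (M + 1))]
      · simp
      · intro j _ hj
        have hj' : (j : ℕ) ≠ 0 := fun h => hj (Fin.ext h)
        rw [if_neg (fun h => hj' h.2), map_zero, zero_mul]
      · intro h
        exact absurd (Finset.mem_univ _) h
      · intro i _ hi
        have hi' : (i : ℕ) ≠ 0 := fun h => hi (Fin.ext h)
        refine Finset.sum_eq_zero fun j _ => ?_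
        rw [if_neg (fun h => hi' h.1), map_zero, zero_mul]
      · intro h
        exact absurd (Finset.mem_univ _) h
    rw [← e3, ← Finset.sum_add_distrib]
    refine Finset.sum_congr rfl fun i _ => ?_
    rw [← Finset.sum_add_distrib]
    refine Finset.sum_congr rfl fun j _ => ?_
    rw [map_sub]
    ring
  rw [e2]
  intro h0
  have h1 : w.sm (∑ i : Fin c.N, ∑ j : Fin (M + 1),
        w.j (r i j - if (i : ℕ) = 0 ∧ (j : ℕ) = 0 then 1 else 0) *
          (β⁻¹ ^ (j : ℕ) * (β⁻¹ ^ c.a * ρ) ^ (i : ℕ))) := by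
    refine far_sum w _ _ fun i _ => far_sum w _ _ fun j _ => ?_
    refine w.sm_mul (w.v_jX ?_) ?_
    · rw [map_sub, hr i j]
      split_ifs
      · rw [map_one, sub_self]
      · rw [map_zero, sub_self]
    · rw [map_mul, map_pow, map_pow]
      exact mul_le_one' (pow_le_one₀ zero_le hu) (pow_le_one₀ zero_le hθ)
  rw [eq_neg_of_add_eq_zero_left h0] at h1
  unfold Om.sm at h1
  rw [Valuation.map_neg, map_one] at h1
  exact lt_irrefl _ h1

theorem far_b (w : Om k Ω) {g : ℕ} {γ : Fin g → k⟦X⟧}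
    (hγ : ∀ m, PowerSeries.constantCoeff (γ m) = 0) {β : Ω} (hβ : 1 ≤ w.A.valuation β) :
    ((gpol γ).map w.j).eval β ≠ 0 := by
  intro h
  exact absurd (gpol_root w hγ h) (not_lt.2 hβ)

end TGJ
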