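import Pool.Agent.TGJ.Defs
import Pool.Agent.TGF.JD

set_option autoImplicit false

/-!
# TGJ-21: the function `G`, and `IsCoprime`

`G = H / b`.  `coprime_G`: it suffices to prove it after the injection
`RatFunc Ω → LaurentSeries Ω` (`T ↦ T`; `Polynomial.isCoprime_map`).  There `c.F` (with
coefficients mapped) is `∏ (X - θ_l)`, `θ_l` the image of `t.θ l` under `k0⟦X⟧ → Ω⟦X⟧ → Ω((X))`
(`N` distinct roots of a monic polynomial of degree `N`), so it suffices that `G(θ_l) ≠ 0`.
`b ≠ 0` (see `gpol_ne`: the coefficients of `γ` are divisible by `s`).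
`H(θ_l)` is the image of `h_l ∈ k0⟦X⟧⟦X⟧` (the first factor in `JAlg.eq`), under the injection
`PowerSeries.map w.j`; and `h_l ≠ 0`: modulo `s` (apply `PowerSeries.map constantCoeff`) it is
`T^(M + a N)` by `hρ` (and `N ≥ 1`).
-/

noncomputable section

open Polynomial PowerSeries
open scoped Classical

namespace TGJ

open TGF

universe u v

variable {k0 L Ω : Type u} [Field k0] [Field L] [Field Ω]

/-- The denominator. -/
def bO (w : Om k0 Ω) {N g : ℕ} (γ : Fin N → Fin g → k0⟦X⟧) : Polynomial Ω :=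
  ∏ l, (gpol (γ l)).map w.j

/-- The function `G = H / b`. -/
def GO (w : Om k0 Ω) (N M a : ℕ) {g : ℕ} (ρ : Fin N → Fin (M + 1) → k0⟦X⟧)
    (γ : Fin N → Fin g → k0⟦X⟧) : Polynomial (RatFunc Ω) :=
  Polynomial.C (algebraMap (Polynomial Ω) (RatFunc Ω) (bO w γ))⁻¹ *
    (hpol N M a ρ).map ((algebraMap (Polynomial Ω) (RatFunc Ω)).comp (mapRingHom w.j))

private theorem gg_gpol {g : ℕ} (c : Fin g → k0⟦X⟧)
    (hc : ∀ m, PowerSeries.constantCoeff (c m) = 0) : gpol c ≠ 0 := by
  intro h
  have h1 : (gpol c).map (PowerSeries.constantCoeff (R := k0)) = Polynomial.X ^ g := by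
    unfold gpol
    rw [Polynomial.map_add, Polynomial.map_pow, Polynomial.map_X, Polynomial.map_sum,
      Finset.sum_eq_zero, add_zero]
    intro m _
    rw [Polynomial.map_mul, Polynomial.map_C, hc, Polynomial.C_0, zero_mul]
  rw [h, Polynomial.map_zero] at h1
  exact (pow_ne_zero g Polynomial.X_ne_zero) h1.symm

theorem bO_ne (w : Om k0 Ω) {N g : ℕ} (γ : Fin N → Fin g → k0⟦X⟧)
    (hγ : ∀ l m, PowerSeries.constantCoeff (γ l m) = 0) : bO w γ ≠ 0 := by
  unfold bO
  rw [Finset.prod_ne_zero_iff]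
  intro l _
  exact (Polynomial.map_ne_zero_iff w.inj).2 (gg_gpol (γ l) (hγ l))

private theorem gg_eval {A : Type u} {B : Type u} [CommRing A] [CommRing B] (Φ : A[X] →+* B)
    (x : B) (N M a : ℕ) (ρ : Fin N → Fin (M + 1) → A) :
    ((hpol N M a ρ).map Φ).eval x = ∑ i : Fin N, ∑ j : Fin (M + 1),
      Φ (Polynomial.C (ρ i j)) * Φ Polynomial.X ^ (M + a * N - (j : ℕ) - a * (i : ℕ)) *
        x ^ (i : ℕ) := by
  unfold hpol
  simp only [Polynomial.map_sum, Polynomial.map_mul, Polynomial.map_pow, Polynomial.map_C,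
    Polynomial.map_X, Polynomial.eval_finsetSum, Polynomial.eval_mul, Polynomial.eval_pow,
    Polynomial.eval_C, Polynomial.eval_X, map_mul, map_pow]

/-- the first factor is not zero -/
private theorem gg_ne {c : Cv k0} (t : Th c) (hN : 1 ≤ c.N) {M : ℕ}
    (ρ : Fin c.N → Fin (M + 1) → k0⟦X⟧)
    (hρ : ∀ (i : Fin c.N) (j : Fin (M + 1)),
      PowerSeries.constantCoeff (ρ i j) = if (i : ℕ) = 0 ∧ (j : ℕ) = 0 then 1 else 0)
    (l : Fin c.N) : ((hpol c.N M c.a ρ).map Polynomial.coeToPowerSeries.ringHom).eval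
        (PowerSeries.map (PowerSeries.C) (t.θ l)) ≠ 0 := by
  intro h
  rw [gg_eval] at h
  have h1 := congrArg (PowerSeries.map (PowerSeries.constantCoeff (R := k0))) h
  rw [map_sum, map_zero] at h1
  have h2 : ∀ i : Fin c.N, ∀ j : Fin (M + 1),
      PowerSeries.map (PowerSeries.constantCoeff (R := k0))
        (Polynomial.coeToPowerSeries.ringHom (Polynomial.C (ρ i j)) *
          Polynomial.coeToPowerSeries.ringHom Polynomial.X ^
            (M + c.a * c.N - (j : ℕ) - c.a * (i : ℕ)) *
          PowerSeries.map (PowerSeries.C) (t.θ l) ^ (i : ℕ)) =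
      PowerSeries.C (if (i : ℕ) = 0 ∧ (j : ℕ) = 0 then 1 else 0) *
        PowerSeries.X ^ (M + c.a * c.N - (j : ℕ) - c.a * (i : ℕ)) * t.θ l ^ (i : ℕ) := by
    intro i j
    rw [map_mul, map_mul, map_pow, map_pow, Polynomial.coeToPowerSeries.ringHom_apply,
      Polynomial.coe_C, Polynomial.coeToPowerSeries.ringHom_apply, Polynomial.coe_X,
      PowerSeries.map_C, PowerSeries.map_X, hρ]
    congr 2
  simp only [map_sum, h2] at h1
  rw [Finset.sum_eq_single (⟨0, hN⟩ : Fin c.N), Finset.sum_eq_single (⟨0, Nat.succ_pos M⟩ : Fin (M + 1))]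
    at h1
  · simp only [and_self, if_true, map_one, one_mul, pow_zero, mul_one, mul_zero, Nat.sub_zero] at h1
    exact (pow_ne_zero _ PowerSeries.X_ne_zero) h1
  · intro j _ hj
    have : ¬ ((j : ℕ) = 0) := fun h0 => hj (Fin.ext h0)
    rw [if_neg (fun h0 => this h0.2), map_zero, zero_mul, zero_mul]
  · intro h0
    exact absurd (Finset.mem_univ _) h0
  · intro i _ hi
    have : ¬ ((i : ℕ) = 0) := fun h0 => hi (Fin.ext h0)
    refine Finset.sum_eq_zero fun j _ => ?_
    rw [if_neg (fun h0 => this h0.1), map_zero, zero_mul, zero_mul]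
  · intro h0
    exact absurd (Finset.mem_univ _) h0

private theorem gg_inj : Function.Injective ((HahnSeries.ofPowerSeries ℤ Ω).comp
    (Polynomial.coeToPowerSeries.ringHom : Polynomial Ω →+* Ω⟦X⟧)) := by
  refine HahnSeries.ofPowerSeries_injective.comp ?_
  intro p q h
  rw [Polynomial.coeToPowerSeries.ringHom_apply, Polynomial.coeToPowerSeries.ringHom_apply] at h
  exact Polynomial.coe_injective Ω h

/-- the injection `Ω(T) → Ω((T))` -/
private def ggs (Ω : Type u) [Field Ω] : RatFunc Ω →+* LaurentSeries Ω :=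
  IsFractionRing.lift (A := Polynomial Ω) (gg_inj (Ω := Ω))

private theorem gg_alg (p : Polynomial Ω) :
    ggs Ω (algebraMap (Polynomial Ω) (RatFunc Ω) p) =
      HahnSeries.ofPowerSeries ℤ Ω (Polynomial.coeToPowerSeries.ringHom p) := by
  unfold ggs
  rw [IsFractionRing.lift_algebraMap]
  rfl

/-- the image of `θ_l` -/
private def ggt (w : Om k0 Ω) {c : Cv k0} (t : Th c) (l : Fin c.N) : LaurentSeries Ω :=
  HahnSeries.ofPowerSeries ℤ Ω (PowerSeries.map w.i (t.θ l))

/-- the value of `H` at `θ_l` -/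
private theorem gg_H (w : Om k0 Ω) {c : Cv k0} (t : Th c) {M : ℕ}
    (ρ : Fin c.N → Fin (M + 1) → k0⟦X⟧) (l : Fin c.N) :
    (((hpol c.N M c.a ρ).map ((algebraMap (Polynomial Ω) (RatFunc Ω)).comp
      (mapRingHom w.j))).map (ggs Ω)).eval (ggt w t l) =
    HahnSeries.ofPowerSeries ℤ Ω (PowerSeries.map w.j
      (((hpol c.N M c.a ρ).map Polynomial.coeToPowerSeries.ringHom).eval
        (PowerSeries.map (PowerSeries.C) (t.θ l)))) := by
  rw [Polynomial.map_map, gg_eval, gg_eval, map_sum, map_sum]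
  refine Finset.sum_congr rfl fun i _ => ?_
  rw [map_sum, map_sum]
  refine Finset.sum_congr rfl fun j _ => ?_
  rw [map_mul, map_mul, map_pow, map_pow, map_mul, map_mul, map_pow, map_pow]
  congr 1
  · congr 1
    · rw [RingHom.comp_apply, RingHom.comp_apply, gg_alg, Polynomial.coe_mapRingHom,
        Polynomial.map_C, Polynomial.coeToPowerSeries.ringHom_apply, Polynomial.coe_C,
        Polynomial.coeToPowerSeries.ringHom_apply, Polynomial.coe_C, PowerSeries.map_C]
    · rw [RingHom.comp_apply, RingHom.comp_apply, gg_alg, Polynomial.coe_mapRingHom,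
        Polynomial.map_X, Polynomial.coeToPowerSeries.ringHom_apply, Polynomial.coe_X,
        Polynomial.coeToPowerSeries.ringHom_apply, Polynomial.coe_X, PowerSeries.map_X]

/-- `F` as a product over `Ω((T))` -/
private theorem gg_F (w : Om k0 Ω) {c : Cv k0} (t : Th c) :
    ((c.F.map ((algebraMap (Polynomial Ω) (RatFunc Ω)).comp (mapRingHom w.i))).map
      (ggs Ω)) =
    ∏ l, (Polynomial.X - Polynomial.C (ggt w t l)) := by
  have hinj : Function.Injective (ggt w t) := by
    intro l l' h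
    unfold ggt at h
    have h1 := HahnSeries.ofPowerSeries_injective h
    have h2 := congrArg PowerSeries.constantCoeff h1
    rw [← PowerSeries.coeff_zero_eq_constantCoeff_apply,
      ← PowerSeries.coeff_zero_eq_constantCoeff_apply, PowerSeries.coeff_map, PowerSeries.coeff_map,
      PowerSeries.coeff_zero_eq_constantCoeff_apply, PowerSeries.coeff_zero_eq_constantCoeff_apply,
      t.cc, t.cc] at h2
    exact c.inj (w.i.injective h2)
  have hroot : ∀ l, ((c.F.map ((algebraMap (Polynomial Ω) (RatFunc Ω)).comp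
      (mapRingHom w.i))).map (ggs Ω)).eval (ggt w t l) = 0 := by
    intro l
    have h := congrArg (fun x => HahnSeries.ofPowerSeries ℤ Ω (PowerSeries.map w.i x)) (t.root l)
    simp only [map_zero] at h
    rw [← h, Polynomial.map_map, Polynomial.eval_map, Polynomial.eval_map,
      Polynomial.hom_eval₂, Polynomial.hom_eval₂]
    have h3 : (ggs Ω).comp
        ((algebraMap (Polynomial Ω) (RatFunc Ω)).comp (mapRingHom w.i)) =
        (HahnSeries.ofPowerSeries ℤ Ω).comp ((PowerSeries.map w.i).comp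
          Polynomial.coeToPowerSeries.ringHom) := by
      refine RingHom.ext fun p => ?_
      rw [RingHom.comp_apply, RingHom.comp_apply, RingHom.comp_apply, RingHom.comp_apply, gg_alg,
        Polynomial.coeToPowerSeries.ringHom_apply, Polynomial.coeToPowerSeries.ringHom_apply]
      congr 1
      ext n
      rw [PowerSeries.coeff_map, Polynomial.coeff_coe, Polynomial.coeff_coe,
        Polynomial.coe_mapRingHom, Polynomial.coeff_map]
    rw [h3]
    rfl
  have hm := ((c.monic.map ((algebraMap (Polynomial Ω) (RatFunc Ω)).comp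
      (mapRingHom w.i))).map (ggs Ω))
  have hdvd : ∏ l, (Polynomial.X - Polynomial.C (ggt w t l)) ∣
      ((c.F.map ((algebraMap (Polynomial Ω) (RatFunc Ω)).comp (mapRingHom w.i))).map
      (ggs Ω)) := by
    refine Finset.prod_dvd_of_coprime (fun a _ b _ h => ?_) fun a _ => ?_
    · exact pairwise_coprime_X_sub_C hinj h
    · exact Polynomial.dvd_iff_isRoot.2 (hroot a)
  refine Polynomial.eq_of_monic_of_dvd_of_natDegree_le (Polynomial.monic_prod_of_monic _ _
    fun l _ => Polynomial.monic_X_sub_C _) hm hdvd ?_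
  rw [Polynomial.natDegree_finsetProd_X_sub_C_eq_card, Polynomial.natDegree_map,
    Finset.card_univ, Fintype.card_fin]
  have h4 := congrArg Polynomial.natDegree c.split
  rw [c.monic.natDegree_map, Polynomial.natDegree_finsetProd_X_sub_C_eq_card, Finset.card_univ,
    Fintype.card_fin] at h4
  exact Polynomial.natDegree_map_le.trans h4.le

theorem coprime_G {p0 : SRG.Pl (RatFunc k0) L} {c : Cv k0}
    (hc : c.F.map (algebraMap k0[X] (RatFunc k0)) = p0.P) (t : Th c) (hN : 1 ≤ c.N)
    (w : Om k0 Ω) {M g : ℕ} (ρ : Fin c.N → Fin (M + 1) → k0⟦X⟧)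
    (hρ : ∀ (i : Fin c.N) (j : Fin (M + 1)),
      PowerSeries.constantCoeff (ρ i j) = if (i : ℕ) = 0 ∧ (j : ℕ) = 0 then 1 else 0)
    (γ : Fin c.N → Fin g → k0⟦X⟧)
    (hγ : ∀ l m, PowerSeries.constantCoeff (γ l m) = 0) :
    IsCoprime (p0.P.map (rm w.i)) (GO w c.N M c.a ρ γ) := by
  have hb : algebraMap (Polynomial Ω) (RatFunc Ω) (bO w γ) ≠ 0 :=
    (map_ne_zero_iff _ (RatFunc.algebraMap_injective Ω)).2 (bO_ne w γ hγ)
  have hu : IsUnit (Polynomial.C (algebraMap (Polynomial Ω) (RatFunc Ω) (bO w γ))⁻¹) :=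
    Polynomial.isUnit_C.2 (inv_ne_zero hb).isUnit
  have hP : p0.P.map (rm w.i) = c.F.map ((algebraMap (Polynomial Ω) (RatFunc Ω)).comp
      (mapRingHom w.i)) := by
    rw [← hc, Polynomial.map_map]
    congr 1
    refine RingHom.ext fun x => ?_
    rw [RingHom.comp_apply, RingHom.comp_apply]
    unfold rm
    rw [RatFunc.coe_mapRingHom_eq_coe_map, RatFunc.map_apply, RatFunc.num_algebraMap,
      RatFunc.denom_algebraMap, map_one, map_one, div_one]
  rw [GO, isCoprime_mul_unit_left_right hu, hP, ← Polynomial.isCoprime_map (ggs Ω), gg_F w t]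
  refine IsCoprime.prod_left fun l _ => ?_
  rw [(Polynomial.irreducible_X_sub_C _).coprime_iff_not_dvd, Polynomial.dvd_iff_isRoot]
  intro h
  rw [Polynomial.IsRoot, gg_H] at h
  have h1 := HahnSeries.ofPowerSeries_injective (h.trans (map_zero _).symm)
  refine gg_ne t hN ρ hρ l ?_
  refine PowerSeries.map_injective w.j w.inj (h1.trans (map_zero _).symm)

end TGJ
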