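import Pool.Agent.TGJ.Exp
import Pool.Agent.TGJ.GG
import Pool.Agent.TGJ.Far

set_option autoImplicit false

/-!
# TGJ-23: the order of `G` at the points with `|β| ≥ 1`

Let `E`, `τ` be as in `OrdAt`.  `exp_ps` gives `g` with constant coefficient `ρ = y θ`; the
constant coefficient of `evh w β H g` is the value of `H` at `(β, ρ)`, not `0` by `far_h`; that of
the power series of `b` is `b(β) ≠ 0` by `far_b`.  So both have order `0` (`tau_h`, `tau_poly`,
`order_ofPS`), and `G.eval₂ τ (E θ) = τ(b)⁻¹ H.eval₂ τ (E θ)` has order `0`.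
-/

noncomputable section

open Polynomial PowerSeries
open scoped Classical

namespace TGJ

open TGF

universe u v

variable {k0 L Ω : Type u} [Field k0] [Field L] [Field Ω]

private theorem ordf_cc (w : Om k0 Ω) (β : Ω) (H : Polynomial (Polynomial (PowerSeries k0)))
    (g : PowerSeries Ω) :
    PowerSeries.constantCoeff (evh w β H g) =
      (H.map (eval₂RingHom w.j β)).eval (PowerSeries.constantCoeff g) := by
  have h : (PowerSeries.constantCoeff (R := Ω)).comp
      (eval₂RingHom ((PowerSeries.C : Ω →+* PowerSeries Ω).comp w.j)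
        (PowerSeries.C β + PowerSeries.X)) = eval₂RingHom w.j β := by
    apply Polynomial.ringHom_ext
    · intro a
      simp
    · simp
  unfold evh
  rw [Polynomial.eval_map, Polynomial.eval_map, Polynomial.hom_eval₂, h]

private theorem ordf_order {g : PowerSeries Ω} (h : PowerSeries.constantCoeff g ≠ 0) :
    HahnSeries.ofPowerSeries ℤ Ω g ≠ 0 ∧ (HahnSeries.ofPowerSeries ℤ Ω g).order = 0 := by
  have h0 : PowerSeries.order g = ((0 : ℕ) : ℕ∞) := by
    rw [PowerSeries.order_eq_nat]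
    refine ⟨?_, fun i hi => absurd hi (Nat.not_lt_zero i)⟩
    rw [PowerSeries.coeff_zero_eq_constantCoeff_apply]
    exact h
  have h1 := order_ofPS h0
  exact ⟨h1.1, by rw [h1.2]; rfl⟩

private theorem ordf_b (w : Om k0 Ω) {N g : ℕ} (γ : Fin N → Fin g → PowerSeries k0)
    (hγ : ∀ l m, PowerSeries.constantCoeff (γ l m) = 0) {β : Ω} (hβ : 1 ≤ w.A.valuation β) :
    PowerSeries.constantCoeff ((((bO w γ).comp (Polynomial.X + Polynomial.C β) :
      Polynomial Ω) : PowerSeries Ω)) ≠ 0 := by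
  rw [← PowerSeries.coeff_zero_eq_constantCoeff_apply, Polynomial.coeff_coe,
    Polynomial.coeff_zero_eq_eval_zero, Polynomial.eval_comp, Polynomial.eval_add,
    Polynomial.eval_X, Polynomial.eval_C, zero_add]
  unfold bO
  rw [Polynomial.eval_prod]
  exact Finset.prod_ne_zero_iff.mpr (fun l _ => far_b w (hγ l) hβ)

theorem ord_far {p0 : SRG.Pl (RatFunc k0) L} {c : Cv k0}
    (hc : c.F.map (algebraMap k0[X] (RatFunc k0)) = p0.P) (hN : 1 ≤ c.N) (w : Om k0 Ω)
    {M g : ℕ} (ρ : Fin c.N → Fin (M + 1) → k0⟦X⟧)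
    (hρ : ∀ (i : Fin c.N) (j : Fin (M + 1)),
      PowerSeries.constantCoeff (ρ i j) = if (i : ℕ) = 0 ∧ (j : ℕ) = 0 then 1 else 0)
    (γ : Fin c.N → Fin g → k0⟦X⟧)
    (hγ : ∀ l m, PowerSeries.constantCoeff (γ l m) = 0)
    {y : L →+* Ω} (hy : Pnt p0 w.i y) (hs : ¬ w.sm (y (cT p0))) :
    OrdAt p0 w.i (GO w c.N M c.a ρ γ) y 0 := by
  intro E τ hE hτ
  obtain ⟨G, hG1, hG2, hG3⟩ := exp_ps hc hE
  have hβ : 1 ≤ w.A.valuation (y (cT p0)) := not_lt.mp hs
  have hH := ordf_order (g := evh w (y (cT p0)) (hpol c.N M c.a ρ) G) (by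
    rw [ordf_cc, hG2]
    exact far_h hN w hβ (pnt_root hc hy) ρ hρ)
  have hb := ordf_order (ordf_b w γ hγ hβ)
  rw [← tau_poly hτ] at hb
  rw [← tau_h w hτ, hG1] at hH
  have hz : (GO w c.N M c.a ρ γ).eval₂ τ (E (th p0)) =
      (τ (algebraMap (Polynomial Ω) (RatFunc Ω) (bO w γ)))⁻¹ *
        ((hpol c.N M c.a ρ).map ((algebraMap (Polynomial Ω) (RatFunc Ω)).comp
          (mapRingHom w.j))).eval₂ τ (E (th p0)) := by
    unfold GO
    rw [Polynomial.eval₂_mul, Polynomial.eval₂_C, map_inv₀]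
  have hz0 : (GO w c.N M c.a ρ γ).eval₂ τ (E (th p0)) ≠ 0 := by
    rw [hz]
    exact mul_ne_zero (inv_ne_zero hb.1) hH.1
  have hz1 : (GO w c.N M c.a ρ γ).eval₂ τ (E (th p0)) *
      τ (algebraMap (Polynomial Ω) (RatFunc Ω) (bO w γ)) =
        ((hpol c.N M c.a ρ).map ((algebraMap (Polynomial Ω) (RatFunc Ω)).comp
          (mapRingHom w.j))).eval₂ τ (E (th p0)) := by
    rw [hz, mul_right_comm, inv_mul_cancel₀ hb.1, one_mul]
  have hz2 := HahnSeries.order_mul hz0 hb.1
  rw [hz1, hH.2, hb.2, add_zero] at hz2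
  exact ⟨hz0, hz2.symm⟩

end TGJ
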