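import Pool.Agent.TGJ.Defs

set_option autoImplicit false

/-!
# TGJ-1: the roots of `F(T, Y)` in `k[[T]]`

`k[[T]]` is Henselian (`IsAdicComplete (Ideal.span {X}) k⟦X⟧` is an instance, then
`IsAdicComplete.henselianRing`; or lift the root coefficient by coefficient).  Modulo `T` the
polynomial is `∏ (Y - η i)` (`c.split`; `coeToPowerSeries` composed with `constantCoeff` is
evaluation at `0`), with the simple root `η i` (`c.inj`).
`natDegree_eq`: compare the degrees in `c.split`.
-/

noncomputable section

open Polynomial PowerSeries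
open scoped Classical

namespace TGJ

universe u v

variable {k : Type u} [Field k]

theorem Cv.natDegree_eq (c : Cv k) : c.F.natDegree = c.N := by
  have h1 : (c.F.map (evalRingHom 0)).natDegree = c.F.natDegree := c.monic.natDegree_map _
  rw [← h1, c.split, Polynomial.natDegree_finsetProd_X_sub_C_eq_card]
  simp

private theorem theta_cc (p : k[X]) :
    PowerSeries.constantCoeff (Polynomial.coeToPowerSeries.ringHom p) = p.eval 0 := by
  rw [Polynomial.coeToPowerSeries.ringHom_apply, Polynomial.constantCoeff_coe,
    Polynomial.coeff_zero_eq_eval_zero]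

private theorem theta_comp :
    (PowerSeries.constantCoeff (R := k)).comp (Polynomial.coeToPowerSeries.ringHom) =
      evalRingHom (0 : k) := by
  refine RingHom.ext fun p => ?_
  rw [RingHom.comp_apply, theta_cc, coe_evalRingHom]

private theorem theta_eval (P : k[X][X]) (y : k⟦X⟧) :
    PowerSeries.constantCoeff ((P.map Polynomial.coeToPowerSeries.ringHom).eval y) =
      (P.map (evalRingHom 0)).eval (PowerSeries.constantCoeff y) := by
  rw [← theta_comp, ← Polynomial.map_map, Polynomial.eval_map_apply]

private theorem theta_root (c : Cv k) (i : Fin c.N) : ∃ y : k⟦X⟧,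
    PowerSeries.constantCoeff y = c.η i ∧
      (c.F.map Polynomial.coeToPowerSeries.ringHom).eval y = 0 := by
  have hH : HenselianRing k⟦X⟧ (Ideal.span {PowerSeries.X}) := inferInstance
  have hm : (c.F.map (Polynomial.coeToPowerSeries.ringHom (R := k))).Monic := c.monic.map _
  have hmem : ∀ z : k⟦X⟧, z ∈ Ideal.span {(PowerSeries.X : k⟦X⟧)} ↔
      PowerSeries.constantCoeff z = 0 := fun z => by
    rw [Ideal.mem_span_singleton, PowerSeries.X_dvd_iff]
  have h1 : (c.F.map (Polynomial.coeToPowerSeries.ringHom (R := k))).eval (PowerSeries.C (c.η i)) ∈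
      Ideal.span {(PowerSeries.X : k⟦X⟧)} := by
    rw [hmem, theta_eval, PowerSeries.constantCoeff_C, c.split, Polynomial.eval_prod]
    exact Finset.prod_eq_zero (Finset.mem_univ i) (by simp)
  have h2 : IsUnit (Ideal.Quotient.mk (Ideal.span {(PowerSeries.X : k⟦X⟧)})
      ((c.F.map (Polynomial.coeToPowerSeries.ringHom (R := k))).derivative.eval
        (PowerSeries.C (c.η i)))) := by
    apply IsUnit.map
    rw [PowerSeries.isUnit_iff_constantCoeff, isUnit_iff_ne_zero, Polynomial.derivative_map,
      theta_eval, PowerSeries.constantCoeff_C, ← Polynomial.derivative_map, c.split]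
    rw [Polynomial.derivative_prod_finset, Polynomial.eval_finsetSum,
      Finset.sum_eq_single i]
    · rw [Polynomial.eval_mul, Polynomial.eval_prod]
      refine mul_ne_zero ?_ (by simp)
      rw [Finset.prod_ne_zero_iff]
      intro j hj
      rw [Polynomial.eval_sub, Polynomial.eval_X, Polynomial.eval_C, sub_ne_zero]
      intro h
      exact (Finset.ne_of_mem_erase hj) (c.inj h).symm
    · intro j _ hj
      rw [Polynomial.eval_mul, Polynomial.eval_prod]
      rw [Finset.prod_eq_zero (i := i) (Finset.mem_erase.2 ⟨hj.symm, Finset.mem_univ i⟩)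
        (by simp), zero_mul]
    · intro h
      exact absurd (Finset.mem_univ i) h
  obtain ⟨y, hy1, hy2⟩ := hH.is_henselian _ hm _ h1 h2
  refine ⟨y, ?_, hy1⟩
  rw [hmem, map_sub, PowerSeries.constantCoeff_C, sub_eq_zero] at hy2
  exact hy2

theorem exists_th (c : Cv k) : Nonempty (Th c) := by
  choose y hy1 hy2 using theta_root c
  exact ⟨⟨y, hy1, hy2⟩⟩

/-- The coefficients of `F` have degree at most `a`. -/
theorem Cv.coeff_le (c : Cv k) (i : ℕ) : (c.F.coeff i).natDegree ≤ c.a := by
  by_cases h : i ∈ c.F.support
  · exact Finset.le_sup (f := fun i => (c.F.coeff i).natDegree) h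
  · rw [Polynomial.notMem_support_iff.1 h, Polynomial.natDegree_zero]
    exact Nat.zero_le _

end TGJ
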