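import Pool.Agent.TGJ.OrdN
import Pool.Agent.TGJ.OrdF
import Pool.Agent.TGJ.Mu
import Pool.Agent.TGJ.Jr
import Pool.Agent.TGJ.Theta

set_option autoImplicit false

/-!
# TGJ-24: the main theorem of section 8

Assembly: the point `y₁` lies over `T = s`, with the root of index `0`; the orders of `G` at the points
with small `T` and with `T` not small are compared with the divisor `μ` and its Frobenius twist.
-/

noncomputable section

open Polynomial PowerSeries
open scoped Classical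

namespace TGJ

open TGF

universe u v

variable {k0 L : Type u} [Field k0] [Field L] [Finite k0]

private theorem fin_frob {Ω : Type u} [Field Ω] (i : k0 →+* Ω) :
    ∃ φ : Ω →+* Ω, ∀ x, φ x = x ^ Nat.card k0 := by
  haveI := Fintype.ofFinite k0
  obtain ⟨p, hp⟩ := CharP.exists k0
  haveI := hp
  obtain ⟨f, hpp, hf⟩ := FiniteField.card k0 p
  haveI : Fact p.Prime := ⟨hpp⟩
  haveI : CharP Ω p := charP_of_injective_ringHom i.injective p
  refine ⟨iterateFrobenius Ω p f, fun x => ?_⟩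
  rw [iterateFrobenius_def, Nat.card_eq_fintype_card, hf]

private theorem fin_fix {Ω : Type u} [Field Ω] (i : k0 →+* Ω) {φ : Ω →+* Ω}
    (hφ : ∀ x, φ x = x ^ Nat.card k0) (x : k0) : φ (i x) = i x := by
  haveI := Fintype.ofFinite k0
  rw [hφ, ← map_pow, Nat.card_eq_fintype_card, FiniteField.pow_card]

private theorem fin_pnt {Ω : Type u} [Field Ω] {p0 : SRG.Pl (RatFunc k0) L} {i : k0 →+* Ω}
    {φ : Ω →+* Ω} (hφ : ∀ x, φ x = x ^ Nat.card k0) {y : L →+* Ω} (hy : Pnt p0 i y) :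
    Pnt p0 i (φ.comp y) := by
  refine ⟨fun x => ?_, fun P hP h => hy.tr P hP ?_⟩
  · rw [RingHom.comp_apply, hy.ov, fin_fix i hφ]
  · have h1 : φ.comp i = i := RingHom.ext fun x => by
      rw [RingHom.comp_apply, fin_fix i hφ]
    have h2 : φ (P.eval₂ i (y (cT p0))) = 0 := by
      rw [Polynomial.hom_eval₂, h1]
      exact h
    exact φ.injective (h2.trans (map_zero φ).symm)

private theorem fin_card_ne : Nat.card k0 ≠ 0 := Nat.card_pos.ne'

private theorem fin_sm_pow {Ω : Type u} [Field Ω] (w : Om k0 Ω) (x : Ω) :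
    w.sm (x ^ Nat.card k0) ↔ w.sm x := by
  unfold Om.sm
  rw [map_pow]
  constructor
  · intro h
    by_contra hcon
    exact absurd h (not_lt.2 (one_le_pow_of_one_le' (not_lt.1 hcon) _))
  · intro h
    exact pow_lt_one₀ zero_le' h (fin_card_ne (k0 := k0))

/-- The statement of `TGF.J_data`. -/
theorem J_data' (p0 : SRG.Pl (RatFunc k0) L) (hp0 : Spl p0) (n : ℕ) (hn : 2 ≤ n) :
    ∃ (Ω : Type u) (_ : Field Ω) (_ : IsAlgClosed Ω) (i : k0 →+* Ω) (G : (RatFunc Ω)[X])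
      (y₁ : L →+* Ω) (μ : (L →+* Ω) →₀ ℤ) (φ : Ω →+* Ω),
      (∀ x, φ x = x ^ Nat.card k0) ∧ Pnt p0 i y₁ ∧ (∀ y, μ y ≠ 0 → Pnt p0 i y) ∧
      IsCoprime (p0.P.map (rm i)) G ∧
      ∀ y : L →+* Ω, Pnt p0 i y → OrdAt p0 i G y
        ((if y = y₁ then 1 else 0) + (Nat.card k0 : ℤ) ^ n * μ (φ.comp y) - μ y) := by
  obtain ⟨c, hc⟩ := exists_cv hp0
  obtain ⟨t⟩ := exists_th c
  have hN : 1 ≤ c.N := by
    have h1 : p0.P.natDegree = c.N := by
      rw [← hc, c.monic.natDegree_map, Cv.natDegree_eq]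
    rw [← h1]
    exact p0.irr.natDegree_pos
  obtain ⟨Ω, hΩ, hΩa, ⟨w⟩⟩ := exists_om k0
  obtain ⟨J⟩ := exists_jalg t (⟨0, hN⟩ : Fin c.N) hn
  have hT : w.sm (w.j PowerSeries.X) := w.v_jX PowerSeries.constantCoeff_X
  have hT0 : w.j PowerSeries.X ≠ 0 := fun h =>
    PowerSeries.X_ne_zero (w.inj (h.trans (map_zero w.j).symm))
  obtain ⟨ρ0, hρ0, hρs⟩ := root_exists c w hT (⟨0, hN⟩ : Fin c.N)
  obtain ⟨y₁, hy₁, hy₁T, hy₁θ⟩ := pnt_exists hc w.i (fun P hP => w.sm_tr hT hT0 hP) hρ0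
  obtain ⟨μ, hμ1, hμ2, hμ3⟩ := exists_mu hc w J.γ J.hγ
  obtain ⟨φ, hφ⟩ := fin_frob w.i
  refine ⟨Ω, hΩ, hΩa, w.i, GO w c.N J.M c.a J.ρ J.γ, y₁, μ, φ, hφ, hy₁, hμ1,
    coprime_G hc t hN w J.ρ J.hρ J.γ J.hγ, fun y hy => ?_⟩
  have hφy : Pnt p0 w.i (φ.comp y) := fin_pnt hφ hy
  by_cases hs : w.sm (y (cT p0))
  · obtain ⟨l, hl⟩ := root_cases c w hs (pnt_root hc hy)
    have h1 := ord_near hc hn J w hy hs hl
    have h2 : (y = y₁) ↔ (l = (⟨0, hN⟩ : Fin c.N) ∧ y (cT p0) = w.j PowerSeries.X) := by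
      constructor
      · intro h
        have hl' := hl
        rw [h, hy₁θ] at hl'
        exact ⟨idx_unique c w hl' hρs, by rw [h, hy₁T]⟩
      · rintro ⟨h3, h4⟩
        have h5 := pnt_root hc hy
        rw [h4] at h5
        rw [h3] at hl
        have h6 : y (th p0) = ρ0 := root_unique c w hT _ h5 hl hρ0 hρs
        exact pnt_ext (fun x => by rw [hy.ov, hy₁.ov]) (by rw [h4, hy₁T]) (by rw [h6, hy₁θ])
    have h3 : μ y = rootMultiplicity (y (cT p0)) ((gpol (J.γ l)).map w.j) := hμ2 y hy l hs hl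
    have h4 : μ (φ.comp y) =
        rootMultiplicity (y (cT p0) ^ Nat.card k0) ((gpol (J.γ l)).map w.j) := by
      have h5 := hμ2 (φ.comp y) hφy l (by
        rw [RingHom.comp_apply, hφ]
        exact (fin_sm_pow w _).2 hs) (by
        rw [RingHom.comp_apply, hφ]
        exact sm_frob c w hl)
      rw [h5, RingHom.comp_apply, hφ]
    rw [h3, h4]
    by_cases h6 : y = y₁
    · rw [if_pos h6]
      rw [if_pos (h2.1 h6)] at h1
      exact h1
    · rw [if_neg h6]
      rw [if_neg (fun h => h6 (h2.2 h))] at h1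
      exact h1
  · have h1 := ord_far hc hN w J.ρ J.hρ J.γ J.hγ hy hs
    have h2 : ¬ y = y₁ := by
      intro h
      apply hs
      rw [h, hy₁T]
      exact hT
    have h3 : μ y = 0 := hμ3 y hy hs
    have h4 : μ (φ.comp y) = 0 := hμ3 _ hφy (by
      rw [RingHom.comp_apply, hφ]
      exact fun h => hs ((fin_sm_pow w _).1 h))
    rw [if_neg h2, h3, h4, mul_zero, add_zero, sub_zero]
    exact h1

end TGJ
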