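import Pool.Agent.TGJ.Vdm

set_option autoImplicit false

/-!
# TGJ-4: elements of `B` with bounded poles

The elements `bel t x l = ∑ (pu (x_i) U^(a i)) θ_l^i`: bound of the degrees, injectivity and
linearity in `x`.
-/

noncomputable section

open Polynomial PowerSeries
open scoped Classical

namespace TGJ

universe u v

variable {k : Type u} [Field k]

theorem coeff_pu (x : k[X]) (j : ℕ) : (pu x).coeff (-j) = x.coeff j := by
  have hU : ∀ n : ℕ, U k ^ n = HahnSeries.single (-(n : ℤ)) (1 : k) := by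
    intro n
    unfold U
    rw [HahnSeries.single_pow, one_pow, nsmul_eq_mul, mul_neg_one]
  unfold pu
  induction x using Polynomial.induction_on' with
  | add p q hp hq =>
    rw [map_add, HahnSeries.coeff_add, hp, hq, Polynomial.coeff_add]
  | monomial n a =>
    rw [Polynomial.aeval_monomial, LaurentSeries.algebraMap_apply, hU, HahnSeries.C_apply,
      HahnSeries.single_mul_single, zero_add, mul_one, Polynomial.coeff_monomial]
    by_cases h : n = j
    · rw [if_pos h, h, HahnSeries.coeff_single_same]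
    · rw [if_neg h, HahnSeries.coeff_single_of_ne]
      intro h1
      exact h (by exact_mod_cast (neg_inj.1 h1).symm)

private theorem bm_pow (x : k[X]) (m : ℕ) : pu x * U k ^ m = pu (x * Polynomial.X ^ m) := by
  unfold pu
  rw [map_mul, map_pow, Polynomial.aeval_X]

private theorem bm_bel {c : Cv k} (t : Th c) (x : Fin c.N → k[X]) (l : Fin c.N) :
    bel t x l = ∑ i : Fin c.N, pu (x i * Polynomial.X ^ (c.a * (i : ℕ))) *
      (HahnSeries.ofPowerSeries ℤ k (t.θ l)) ^ (i : ℕ) := by
  unfold bel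
  refine Finset.sum_congr rfl fun i _ => ?_
  rw [← bm_pow, mul_pow, ← pow_mul, mul_assoc]

private theorem bm_mem {c : Cv k} (t : Th c) (m : ℤ) (x : Fin c.N → k[X])
    (h : ∀ l, bel t x l ∈ Lm k m) (i : Fin c.N) :
    pu (x i * Polynomial.X ^ (c.a * (i : ℕ))) ∈ Lm k m :=
  vdm_int t m (fun i => pu (x i * Polynomial.X ^ (c.a * (i : ℕ)))) (fun l => by
    rw [← bm_bel]
    exact h l) i

private theorem bm_sub {c : Cv k} (t : Th c) (x y : Fin c.N → k[X]) (l : Fin c.N) :
    bel t (x - y) l = bel t x l - bel t y l := by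
  unfold bel
  rw [← Finset.sum_sub_distrib]
  refine Finset.sum_congr rfl fun i _ => ?_
  have h : pu ((x - y) i) = pu (x i) - pu (y i) := by
    unfold pu
    rw [Pi.sub_apply, map_sub]
  rw [h, sub_mul]

theorem bel_bound {c : Cv k} (t : Th c) (M : ℕ) (x : Fin c.N → k[X])
    (h : ∀ l, bel t x l ∈ Lm k (-M)) (i : Fin c.N) : (x i).natDegree ≤ M := by
  have h1 := bm_mem t (-M) x h i
  by_contra hM
  have hM' : M < (x i).natDegree := not_le.1 hM
  have h0 : M < (x i).natDegree + c.a * (i : ℕ) := Nat.lt_of_lt_of_le hM' (Nat.le_add_right _ _)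
  have h2 := h1 (-(((x i).natDegree + c.a * (i : ℕ) : ℕ) : ℤ)) (neg_lt_neg (by exact_mod_cast h0))
  rw [coeff_pu, Polynomial.coeff_mul_X_pow] at h2
  have h3 : x i = 0 := Polynomial.leadingCoeff_eq_zero.1 h2
  rw [h3, Polynomial.natDegree_zero] at hM'
  exact absurd hM' (Nat.not_lt_zero _)

theorem bel_inj {c : Cv k} (t : Th c) (x y : Fin c.N → k[X])
    (h : ∀ l, bel t x l = bel t y l) : x = y := by
  have h0 : ∀ l, bel t (x - y) l = 0 := by
    intro l
    rw [bm_sub, h l, sub_self]
  funext i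
  rw [← sub_eq_zero]
  ext j
  have h1 := bm_mem t (-((j + c.a * (i : ℕ) : ℕ) : ℤ) + 1) (x - y) (fun l => by
    rw [h0]
    exact (Lm k _).zero_mem) i
  have h2 := h1 (-((j + c.a * (i : ℕ) : ℕ) : ℤ)) (by omega)
  rw [coeff_pu, Polynomial.coeff_mul_X_pow] at h2
  rw [Polynomial.coeff_zero]
  exact h2

theorem bel_mul {c : Cv k} (t : Th c) (x : Fin c.N → k[X]) (p : k[X]) (l : Fin c.N) :
    pu p * bel t x l = bel t (fun i => p * x i) l := by
  unfold bel
  rw [Finset.mul_sum]
  refine Finset.sum_congr rfl fun i _ => ?_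
  have h : pu (p * x i) = pu p * pu (x i) := by
    unfold pu
    rw [map_mul]
  rw [h, mul_assoc]

theorem bel_add {c : Cv k} (t : Th c) (x y : Fin c.N → k[X]) (l : Fin c.N) :
    bel t x l + bel t y l = bel t (x + y) l := by
  unfold bel
  rw [← Finset.sum_add_distrib]
  refine Finset.sum_congr rfl fun i _ => ?_
  have h : pu ((x + y) i) = pu (x i) + pu (y i) := by
    unfold pu
    rw [Pi.add_apply, map_add]
  rw [h, add_mul]

end TGJ
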