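import Mathlib

set_option autoImplicit false

/-!
# TGJ: section 8 of the proof, definitions

`Cv k`: a monic polynomial `F(T, Y)` over `k[T]` whose specialisation at `T = 0` splits with
distinct roots `η i`.  `Cv.a` bounds the degrees of its coefficients.
`Th c`: the roots `θ i ∈ k[[T]]` of `F(T, Y)` with `θ i (0) = η i`.
`Lm m`: the Laurent series (in `T`) with all exponents `≥ m`.  `U = T⁻¹`.
`Om k Ω`: an injection `j` of `k[[s]]` into a field `Ω`, algebraic over `k[[s]]`, and a valuation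
subring `A` of `Ω` containing `k[[s]]` with `s` in its maximal ideal.
-/

noncomputable section

open Polynomial PowerSeries
open scoped Classical

namespace TGJ

universe u v

/-- A polynomial `F(T, Y)`, monic in `Y`, with `F(0, Y) = ∏ (Y - η i)`, the `η i` distinct. -/
structure Cv (k : Type u) [Field k] where
  N : ℕ
  F : k[X][X]
  η : Fin N → k
  monic : F.Monic
  inj : Function.Injective η
  split : F.map (evalRingHom 0) = ∏ i, (Polynomial.X - Polynomial.C (η i))

section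
variable {k : Type u} [Field k]

/-- A bound for the degrees (in `T`) of the coefficients of `F`. -/
def Cv.a (c : Cv k) : ℕ := c.F.support.sup (fun i => (c.F.coeff i).natDegree)

/-- The roots of `F(T, Y)` in `k[[T]]`. -/
structure Th (c : Cv k) where
  θ : Fin c.N → k⟦X⟧
  cc : ∀ i, PowerSeries.constantCoeff (θ i) = c.η i
  root : ∀ i, (c.F.map Polynomial.coeToPowerSeries.ringHom).eval (θ i) = 0

/-- The Laurent series with all exponents at least `m`. -/
def Lm (k : Type u) [Field k] (m : ℤ) : Submodule k (LaurentSeries k) where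
  carrier := {x | ∀ n < m, x.coeff n = 0}
  add_mem' := by
    intro x y hx hy n hn
    rw [HahnSeries.coeff_add, hx n hn, hy n hn, add_zero]
  zero_mem' := by
    intro n _
    rfl
  smul_mem' := by
    intro r x hx n hn
    rw [HahnSeries.coeff_smul, hx n hn, smul_zero]

/-- `T⁻¹`. -/
def U (k : Type u) [Field k] : LaurentSeries k := HahnSeries.single (-1) 1

/-- The element `x(T⁻¹)` of `k((T))`. -/
def pu (x : k[X]) : LaurentSeries k := Polynomial.aeval (U k) x

/-- The element `∑ x_i(T⁻¹) (T^(-a) θ_l)^i` of the `l`-th factor. -/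
def bel {c : Cv k} (t : Th c) (x : Fin c.N → k[X]) (l : Fin c.N) : LaurentSeries k :=
  ∑ i : Fin c.N, pu (x i) * (U k ^ c.a * (HahnSeries.ofPowerSeries ℤ k (t.θ l))) ^ (i : ℕ)

/-- The gap element `∑ c_m T^(-m)`, `m < g`. -/
def gel {g : ℕ} (c : Fin g → k) : LaurentSeries k := ∑ m : Fin g, c m • U k ^ (m : ℕ)

/-- The polynomial `T^g + ∑ c_m T^(g - m)`. -/
def gpol {g : ℕ} {A : Type v} [CommRing A] (c : Fin g → A) : A[X] :=
  Polynomial.X ^ g + ∑ m : Fin g, Polynomial.C (c m) * Polynomial.X ^ (g - (m : ℕ))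

/-- The polynomial `T^(g e) + ∑ c_m T^((g - m) e)`. -/
def gpol' {g : ℕ} {A : Type v} [CommRing A] (e : ℕ) (c : Fin g → A) : A[X] :=
  Polynomial.X ^ (g * e) +
    ∑ m : Fin g, Polynomial.C (c m) * Polynomial.X ^ ((g - (m : ℕ)) * e)

/-- The polynomial `∑ ρ_(i,j) T^(M + a N - j - a i) Y^i`, `i < N`, `j ≤ M`. -/
def hpol {A : Type v} [CommRing A] (N M a : ℕ) (ρ : Fin N → Fin (M + 1) → A) : A[X][X] :=
  ∑ i : Fin N, ∑ j : Fin (M + 1),
    Polynomial.C (Polynomial.C (ρ i j) * Polynomial.X ^ (M + a * N - (j : ℕ) - a * (i : ℕ))) *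
      Polynomial.X ^ (i : ℕ)

/-- The algebraic form of (J): identity of power series in `T` over `k[[s]]`. -/
structure JAlg (c : Cv k) (t : Th c) (i0 : Fin c.N) (Q e : ℕ) where
  M : ℕ
  g : ℕ
  ρ : Fin c.N → Fin (M + 1) → k⟦X⟧
  γ : Fin c.N → Fin g → k⟦X⟧
  o : Fin c.N → k⟦X⟧⟦X⟧
  e1 : ℕ
  e2 : ℕ
  hρ : ∀ (i : Fin c.N) (j : Fin (M + 1)),
    PowerSeries.constantCoeff (ρ i j) = if (i : ℕ) = 0 ∧ (j : ℕ) = 0 then 1 else 0
  hγ : ∀ l m, PowerSeries.constantCoeff (γ l m) = 0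
  ho : ∀ l, PowerSeries.constantCoeff (o l) = 1
  eq : ∀ l : Fin c.N,
    ((hpol c.N M c.a ρ).map Polynomial.coeToPowerSeries.ringHom).eval
        (PowerSeries.map (PowerSeries.C) (t.θ l)) *
      (gpol (γ l) : k⟦X⟧⟦X⟧) * o l * PowerSeries.X ^ e1 =
    (gpol' e (fun m => γ l m ^ Q) : k⟦X⟧⟦X⟧) *
      (if l = i0 then PowerSeries.X - PowerSeries.C PowerSeries.X else PowerSeries.X) *
      (∏ l', (gpol (γ l') : k⟦X⟧⟦X⟧)) * PowerSeries.X ^ e2

end

/-- `k[[s]]` in a field `Ω`, algebraic over it, with a valuation subring above it. -/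
structure Om (k : Type u) (Ω : Type v) [Field k] [Field Ω] where
  j : k⟦X⟧ →+* Ω
  inj : Function.Injective j
  alg : ∀ x : Ω, ∃ P : k⟦X⟧[X], P ≠ 0 ∧ P.eval₂ j x = 0
  A : ValuationSubring Ω
  mem : ∀ r, j r ∈ A
  non : A.valuation (j PowerSeries.X) < 1

section
variable {k : Type u} {Ω : Type v} [Field k] [Field Ω]

/-- The embedding of `k`. -/
def Om.i (w : Om k Ω) : k →+* Ω := w.j.comp PowerSeries.C

/-- `|x| < 1`. -/
def Om.sm (w : Om k Ω) (x : Ω) : Prop := w.A.valuation x < 1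

/-- The polynomial `F(β, Y)`. -/
def Cv.at (c : Cv k) (i : k →+* Ω) (β : Ω) : Polynomial Ω := c.F.map (eval₂RingHom i β)

/-- Evaluation of power series over `k[[s]]` at `T = β + ε`. -/
structure Ev (w : Om k Ω) (β : Ω) where
  ev : k⟦X⟧⟦X⟧ →+* PowerSeries Ω
  hC : ∀ r : k⟦X⟧, ev (PowerSeries.C r) = PowerSeries.C (w.j r)
  hX : ev PowerSeries.X = PowerSeries.C β + PowerSeries.X
  hA : ∀ h, PowerSeries.constantCoeff (ev h) ∈ w.A

end

end TGJ
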