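import Pool.Agent.TGJ.Val

set_option autoImplicit false

/-!
# TGJ-10: small elements are roots of distinguished polynomials

See the header of `Val` (`dist`).
-/

noncomputable section

open Polynomial PowerSeries
open scoped Classical

namespace TGJ

universe u v

variable {k : Type u} [Field k] {Ω : Type v} [Field Ω]

/-- an element algebraic over `k[[s]]` is a root of a polynomial which is not `0` modulo `s` -/
private theorem dist_prim (w : Om k Ω) (x : Ω) : ∃ P : k⟦X⟧[X], P.eval₂ w.j x = 0 ∧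
    ∃ i, PowerSeries.constantCoeff (P.coeff i) ≠ 0 := by
  obtain ⟨P, hP, h0⟩ := w.alg x
  have hu : ¬ IsUnit (Polynomial.C (PowerSeries.X : k⟦X⟧)) := by
    rw [Polynomial.isUnit_C]
    exact PowerSeries.X_prime.not_isUnit
  obtain ⟨Q, hQ, hn⟩ := (FiniteMultiplicity.of_not_isUnit hu hP).exists_eq_pow_mul_and_not_dvd
  refine ⟨Q, ?_, ?_⟩
  · rw [hQ, Polynomial.eval₂_mul, Polynomial.eval₂_pow, Polynomial.eval₂_C] at h0
    refine (mul_eq_zero.1 h0).resolve_left (pow_ne_zero _ ?_)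
    rw [Ne, map_eq_zero_iff w.j w.inj]
    exact PowerSeries.X_ne_zero
  · by_contra hc
    push Not at hc
    refine hn ?_
    rw [Polynomial.C_dvd_iff_dvd_coeff]
    intro i
    rw [PowerSeries.X_dvd_iff]
    exact hc i

/-- values of polynomials over `k[[s]]` at `x` -/
private theorem dist_val (w : Om k Ω) {x : Ω} (hx : w.sm x) (P : k⟦X⟧[X]) :
    w.A.valuation (P.eval₂ w.j x) ≤ 1 := by
  rw [ValuationSubring.valuation_le_one_iff, Polynomial.eval₂_eq_sum, Polynomial.sum]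
  refine w.A.sum_mem fun i _ => w.A.mul_mem _ _ (w.mem _) (w.A.pow_mem ?_ _)
  exact (ValuationSubring.valuation_le_one_iff w.A x).1 (le_of_lt hx)

/-- a polynomial whose constant coefficient is a unit does not vanish at small elements -/
private theorem dist_unit (w : Om k Ω) {x : Ω} (hx : w.sm x) (Q : k⟦X⟧[X])
    (hQ : IsUnit (Q.coeff 0)) : Q.eval₂ w.j x ≠ 0 := by
  intro h
  obtain ⟨u, hu⟩ := hQ
  rw [← Polynomial.divX_mul_X_add Q, Polynomial.eval₂_add, Polynomial.eval₂_mul, Polynomial.eval₂_X,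
    Polynomial.eval₂_C] at h
  have h1 : w.sm (w.j (Q.coeff 0)) := by
    have h2 : w.j (Q.coeff 0) = x * -(Q.divX.eval₂ w.j x) := by
      linear_combination h
    rw [h2]
    refine w.sm_mul hx ?_
    rw [Valuation.map_neg]
    exact dist_val w hx _
  have h3 : w.sm (w.j (Q.coeff 0) * w.j (↑u⁻¹ : k⟦X⟧)) := w.sm_mul h1 (w.v_j _)
  rw [← map_mul, ← hu, Units.mul_inv, map_one] at h3
  have h4 : w.A.valuation (1 : Ω) < 1 := h3
  rw [map_one] at h4
  exact lt_irrefl _ h4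

theorem Om.dist (w : Om k Ω) {x : Ω} (hx : w.sm x) : ∃ D : k⟦X⟧[X],
    D.IsDistinguishedAt (Ideal.span {(PowerSeries.X : k⟦X⟧)}) ∧ D.eval₂ w.j x = 0 := by
  obtain ⟨P, hP, i, hi⟩ := dist_prim w x
  have hI : IsLocalRing.maximalIdeal k⟦X⟧ = Ideal.span {(PowerSeries.X : k⟦X⟧)} :=
    PowerSeries.maximalIdeal_eq_span_X
  have hac : IsAdicComplete (IsLocalRing.maximalIdeal k⟦X⟧) k⟦X⟧ := by
    rw [hI]
    infer_instance
  have hg : (P : k⟦X⟧⟦X⟧).map (IsLocalRing.residue k⟦X⟧) ≠ 0 := by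
    intro h
    have h1 := congrArg (PowerSeries.coeff i) h
    rw [PowerSeries.coeff_map, Polynomial.coeff_coe, map_zero, IsLocalRing.residue_eq_zero_iff, hI,
      Ideal.mem_span_singleton, PowerSeries.X_dvd_iff] at h1
    exact hi h1
  obtain ⟨D, h, hD⟩ := PowerSeries.exists_isWeierstrassFactorization hg
  have hd : D.IsDistinguishedAt (IsLocalRing.maximalIdeal k⟦X⟧) := hD.isDistinguishedAt
  have hne : IsLocalRing.maximalIdeal k⟦X⟧ ≠ ⊤ := Ideal.IsMaximal.ne_top inferInstance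
  have hw := hd.isWeierstrassDivisorAt hne
  have ho : (D.natDegree : ℕ∞) =
      ((D : k⟦X⟧⟦X⟧).map (Ideal.Quotient.mk (IsLocalRing.maximalIdeal k⟦X⟧))).order :=
    hd.coe_natDegree_eq_order_map (D : k⟦X⟧⟦X⟧) 1
      (by rwa [PowerSeries.constantCoeff_one, ← Ideal.ne_top_iff_one]) (by rw [mul_one])
  have hpd : P = P %ₘ D + D * (P /ₘ D) := (Polynomial.modByMonic_add_div P D).symm
  have hm : (D : k⟦X⟧⟦X⟧) * (h - ((P /ₘ D : k⟦X⟧[X]) : k⟦X⟧⟦X⟧)) =
      ((P %ₘ D : k⟦X⟧[X]) : k⟦X⟧⟦X⟧) := by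
    have h1 : (P : k⟦X⟧⟦X⟧) = D * h := hD.eq_mul
    have h2 : (P : k⟦X⟧⟦X⟧) = ((P %ₘ D : k⟦X⟧[X]) : k⟦X⟧⟦X⟧) + D * ((P /ₘ D : k⟦X⟧[X]) : k⟦X⟧⟦X⟧) := by
      rw [← Polynomial.coe_mul, ← Polynomial.coe_add, ← hpd]
    rw [mul_sub, ← h1, h2]
    ring
  have hdeg : (P %ₘ D).degree <
      ((D : k⟦X⟧⟦X⟧).map (Ideal.Quotient.mk (IsLocalRing.maximalIdeal k⟦X⟧))).order.toNat := by
    rw [← ho, ENat.toNat_natCast, ← Polynomial.degree_eq_natDegree hd.monic.ne_zero]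
    exact Polynomial.degree_modByMonic_lt P hd.monic
  obtain ⟨e1, e2⟩ := hw.eq_zero_of_mul_eq hdeg hm
  have hq : h = ((P /ₘ D : k⟦X⟧[X]) : k⟦X⟧⟦X⟧) := sub_eq_zero.1 e1
  have hu : IsUnit ((P /ₘ D).coeff 0) := by
    have h1 := PowerSeries.isUnit_iff_constantCoeff.1 hD.isUnit
    rw [hq, ← PowerSeries.coeff_zero_eq_constantCoeff_apply, Polynomial.coeff_coe] at h1
    exact h1
  refine ⟨D, hI ▸ hd, ?_⟩
  have h3 : P = D * (P /ₘ D) := by
    rw [e2, zero_add] at hpd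
    exact hpd
  rw [h3, Polynomial.eval₂_mul] at hP
  exact (mul_eq_zero.1 hP).resolve_right (dist_unit w hx _ hu)

end TGJ
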