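import Pool.Agent.TGJ.Dist

set_option autoImplicit false

/-!
# TGJ-11: evaluation of power series at `T = β + ε`

Let `D` be distinguished with `D(β) = 0` (`Om.dist`).  For every `n` the polynomial `D^n` is
distinguished, so `k[[s]][[T]] / (D^n)` is isomorphic to `k[[s]][T] / (D^n)`
(`Polynomial.IsDistinguishedAt.algEquivQuotient`), and this maps to `Ω[[ε]] / (ε^n)` by
`T ↦ β + ε` (`D(β + ε)` is divisible by `ε`).  The composites
`k[[s]][[T]] → Ω[[ε]] / (ε^n)` are compatible, and `Ω[[ε]]` is `(ε)`-adically complete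
(`IsAdicComplete.liftRingHom`, or define the coefficients directly).
`hA`: by division, `h = q D + r` with `r` a polynomial over `k[[s]]`; the constant coefficient
of `ev h` is `r(β)`, in `A`.
`ev_poly`: both sides are ring homomorphisms in the polynomial.
-/

noncomputable section

open Polynomial PowerSeries
open scoped Classical

namespace TGJ

universe u v

variable {k : Type u} [Field k] {Ω : Type v} [Field Ω]

/-- the evaluation of polynomials at `β + ε` -/
private def eva_phi (w : Om k Ω) (β : Ω) : Polynomial (PowerSeries k) →+* PowerSeries Ω :=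
  (Polynomial.coeToPowerSeries.ringHom (R := Ω)).comp
    ((Polynomial.compRingHom (Polynomial.X + Polynomial.C β)).comp (Polynomial.mapRingHom w.j))

private theorem eva_phi_apply (w : Om k Ω) (β : Ω) (P : Polynomial (PowerSeries k)) :
    eva_phi w β P =
      (((P.map w.j).comp (Polynomial.X + Polynomial.C β) : Polynomial Ω) : PowerSeries Ω) := rfl

private theorem eva_phi_C (w : Om k Ω) (β : Ω) (r : PowerSeries k) :
    eva_phi w β (Polynomial.C r) = PowerSeries.C (w.j r) := by
  rw [eva_phi_apply]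
  simp

private theorem eva_phi_X (w : Om k Ω) (β : Ω) :
    eva_phi w β Polynomial.X = PowerSeries.C β + PowerSeries.X := by
  rw [eva_phi_apply]
  simp [add_comm]

private theorem eva_phi_cc (w : Om k Ω) (β : Ω) (P : Polynomial (PowerSeries k)) :
    PowerSeries.constantCoeff (eva_phi w β P) = P.eval₂ w.j β := by
  rw [eva_phi_apply, ← PowerSeries.coeff_zero_eq_constantCoeff_apply, Polynomial.coeff_coe,
    Polynomial.coeff_zero_eq_eval_zero, Polynomial.eval_comp, Polynomial.eval_map]
  simp

private theorem eva_pow {D : Polynomial (PowerSeries k)}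
    (hD : D.IsDistinguishedAt (Ideal.span {(PowerSeries.X : PowerSeries k)})) (n : ℕ) :
    (D ^ n).IsDistinguishedAt (Ideal.span {(PowerSeries.X : PowerSeries k)}) := by
  induction n with
  | zero =>
    rw [pow_zero]
    refine ⟨⟨fun {i} hi => ?_⟩, Polynomial.monic_one⟩
    rw [Polynomial.natDegree_one] at hi
    exact absurd hi (Nat.not_lt_zero i)
  | succ n ih => rw [pow_succ]; exact ih.mul hD

private theorem eva_top :
    Ideal.span {(PowerSeries.X : PowerSeries k)} ≠ ⊤ := by
  intro h
  rw [Ideal.span_singleton_eq_top, PowerSeries.isUnit_iff_constantCoeff] at h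
  simp at h

/-- divisibility of polynomials can be tested for power series -/
private theorem eva_dvd {D : Polynomial (PowerSeries k)}
    (hD : D.IsDistinguishedAt (Ideal.span {(PowerSeries.X : PowerSeries k)}))
    {P : Polynomial (PowerSeries k)}
    (h : (D : PowerSeries (PowerSeries k)) ∣ (P : PowerSeries (PowerSeries k))) : D ∣ P := by
  obtain ⟨c, hc⟩ := h
  have h1 : (D : PowerSeries (PowerSeries k)) * (c - ((P /ₘ D : Polynomial (PowerSeries k)) :
      PowerSeries (PowerSeries k))) = ((P %ₘ D : Polynomial (PowerSeries k)) :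
      PowerSeries (PowerSeries k)) := by
    rw [mul_sub, ← hc, ← Polynomial.coe_mul, ← Polynomial.coe_sub]
    congr 1
    rw [Polynomial.modByMonic_eq_sub_mul_div]
  have h20 := hD.coe_natDegree_eq_order_map (D : PowerSeries (PowerSeries k)) 1
    (by rw [map_one, ← Ideal.ne_top_iff_one]; exact eva_top) (by simp)
  have h2 : D.natDegree = (PowerSeries.map (Ideal.Quotient.mk
      (Ideal.span {(PowerSeries.X : PowerSeries k)}))
      (D : PowerSeries (PowerSeries k))).order.toNat := by
    rw [← h20, ENat.toNat_coe]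
  have h3 : (P %ₘ D).degree < ((PowerSeries.map (Ideal.Quotient.mk
      (Ideal.span {(PowerSeries.X : PowerSeries k)}))
      (D : PowerSeries (PowerSeries k))).order.toNat : WithBot ℕ) := by
    rw [← h2]
    refine (Polynomial.degree_modByMonic_lt P hD.monic).trans_le ?_
    exact Polynomial.degree_le_natDegree
  have h4 := ((hD.isWeierstrassDivisorAt').eq_zero_of_mul_eq h3 h1).2
  exact (Polynomial.modByMonic_eq_zero_iff_dvd hD.monic).1 h4

private theorem eva_ex {D : Polynomial (PowerSeries k)}
    (hD : D.IsDistinguishedAt (Ideal.span {(PowerSeries.X : PowerSeries k)}))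
    (h : PowerSeries (PowerSeries k)) : ∃ P : Polynomial (PowerSeries k),
    (D : PowerSeries (PowerSeries k)) ∣ h - (P : PowerSeries (PowerSeries k)) := by
  have h1 := (hD.isWeierstrassDivisorAt').isWeierstrassDivisionAt_div_mod h
  refine ⟨(hD.isWeierstrassDivisorAt').mod h, (hD.isWeierstrassDivisorAt').div h, ?_⟩
  rw [sub_eq_iff_eq_add]
  exact h1.eq_mul_add

private theorem eva_phi_dvd (w : Om k Ω) {β : Ω} {D : Polynomial (PowerSeries k)}
    (hD : D.IsDistinguishedAt (Ideal.span {(PowerSeries.X : PowerSeries k)}))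
    (h0 : D.eval₂ w.j β = 0) (n : ℕ) {P : Polynomial (PowerSeries k)}
    (h : (D : PowerSeries (PowerSeries k)) ^ n ∣ (P : PowerSeries (PowerSeries k))) :
    (PowerSeries.X : PowerSeries Ω) ^ n ∣ eva_phi w β P := by
  have h1 : D ^ n ∣ P := by
    refine eva_dvd (eva_pow hD n) ?_
    rwa [Polynomial.coe_pow]
  have h2 : (PowerSeries.X : PowerSeries Ω) ∣ eva_phi w β D := by
    rw [PowerSeries.X_dvd_iff, eva_phi_cc, h0]
  have h3 := map_dvd (eva_phi w β) h1
  rw [map_pow] at h3
  exact (pow_dvd_pow_of_dvd h2 n).trans h3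

private theorem eva_ex_n {D : Polynomial (PowerSeries k)}
    (hD : D.IsDistinguishedAt (Ideal.span {(PowerSeries.X : PowerSeries k)}))
    (h : PowerSeries (PowerSeries k)) (n : ℕ) : ∃ P : Polynomial (PowerSeries k),
    (D : PowerSeries (PowerSeries k)) ^ n ∣ h - (P : PowerSeries (PowerSeries k)) := by
  obtain ⟨P, hP⟩ := eva_ex (eva_pow hD n) h
  rw [Polynomial.coe_pow] at hP
  exact ⟨P, hP⟩

/-- the evaluation of power series -/
private def eva_fun (w : Om k Ω) (β : Ω) {D : Polynomial (PowerSeries k)}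
    (hD : D.IsDistinguishedAt (Ideal.span {(PowerSeries.X : PowerSeries k)}))
    (h : PowerSeries (PowerSeries k)) : PowerSeries Ω :=
  PowerSeries.mk fun n => PowerSeries.coeff n (eva_phi w β (eva_ex_n hD h (n + 1)).choose)

private theorem eva_fun_dvd (w : Om k Ω) {β : Ω} {D : Polynomial (PowerSeries k)}
    (hD : D.IsDistinguishedAt (Ideal.span {(PowerSeries.X : PowerSeries k)}))
    (h0 : D.eval₂ w.j β = 0) (n : ℕ) (h : PowerSeries (PowerSeries k))
    {P : Polynomial (PowerSeries k)}
    (hP : (D : PowerSeries (PowerSeries k)) ^ n ∣ h - (P : PowerSeries (PowerSeries k))) :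
    (PowerSeries.X : PowerSeries Ω) ^ n ∣ eva_fun w β hD h - eva_phi w β P := by
  rw [PowerSeries.X_pow_dvd_iff]
  intro m hm
  have h1 := (eva_ex_n hD h (m + 1)).choose_spec
  set Q := (eva_ex_n hD h (m + 1)).choose with hQ
  have h2 : (D : PowerSeries (PowerSeries k)) ^ (m + 1) ∣
      ((Q - P : Polynomial (PowerSeries k)) : PowerSeries (PowerSeries k)) := by
    have h3 := dvd_sub ((pow_dvd_pow _ hm).trans hP) h1
    rw [Polynomial.coe_sub]
    have h4 : h - (P : PowerSeries (PowerSeries k)) - (h - (Q : PowerSeries (PowerSeries k))) =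
      (Q : PowerSeries (PowerSeries k)) - P := by ring
    rwa [h4] at h3
  have h5 := eva_phi_dvd w hD h0 (m + 1) h2
  rw [PowerSeries.X_pow_dvd_iff] at h5
  have h6 := h5 m (Nat.lt_succ_self m)
  rw [map_sub, map_sub] at h6
  rw [map_sub, eva_fun, PowerSeries.coeff_mk]
  exact h6

private theorem eva_zero {a b : PowerSeries Ω}
    (h : ∀ n, (PowerSeries.X : PowerSeries Ω) ^ n ∣ a - b) : a = b := by
  ext n
  have h1 := (PowerSeries.X_pow_dvd_iff.1 (h (n + 1))) n (Nat.lt_succ_self n)
  rw [map_sub] at h1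
  exact sub_eq_zero.1 h1

private theorem eva_mul {R : Type*} [CommRing R] {d a b c e : R} (h1 : d ∣ a - b)
    (h2 : d ∣ c - e) : d ∣ a * c - b * e := by
  have h3 : a * c - b * e = (a - b) * c + b * (c - e) := by ring
  rw [h3]
  exact dvd_add (h1.mul_right c) (h2.mul_left b)

private theorem eva_add {R : Type*} [CommRing R] {d a b c e : R} (h1 : d ∣ a - b)
    (h2 : d ∣ c - e) : d ∣ (a + c) - (b + e) := by
  have h3 : (a + c) - (b + e) = (a - b) + (c - e) := by ring
  rw [h3]
  exact dvd_add h1 h2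

private theorem eva_tr {R : Type*} [CommRing R] {d a b c : R} (h1 : d ∣ a - c)
    (h2 : d ∣ b - c) : d ∣ a - b := by
  have h3 : a - b = (a - c) - (b - c) := by ring
  rw [h3]
  exact dvd_sub h1 h2

private theorem eva_fun_poly (w : Om k Ω) {β : Ω} {D : Polynomial (PowerSeries k)}
    (hD : D.IsDistinguishedAt (Ideal.span {(PowerSeries.X : PowerSeries k)}))
    (h0 : D.eval₂ w.j β = 0) (P : Polynomial (PowerSeries k)) :
    eva_fun w β hD (P : PowerSeries (PowerSeries k)) = eva_phi w β P := by
  refine eva_zero fun n => eva_fun_dvd w hD h0 n _ ?_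
  rw [sub_self]
  exact dvd_zero _

/-- the evaluation of power series as a ring homomorphism -/
private def eva_hom (w : Om k Ω) {β : Ω} {D : Polynomial (PowerSeries k)}
    (hD : D.IsDistinguishedAt (Ideal.span {(PowerSeries.X : PowerSeries k)}))
    (h0 : D.eval₂ w.j β = 0) : PowerSeries (PowerSeries k) →+* PowerSeries Ω where
  toFun := eva_fun w β hD
  map_one' := by
    have h1 := eva_fun_poly w hD h0 1
    rw [Polynomial.coe_one, map_one] at h1
    exact h1
  map_zero' := by
    have h1 := eva_fun_poly w hD h0 0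
    rw [Polynomial.coe_zero, map_zero] at h1
    exact h1
  map_mul' := by
    intro a b
    refine eva_zero fun n => ?_
    obtain ⟨P, hP⟩ := eva_ex_n hD a n
    obtain ⟨Q, hQ⟩ := eva_ex_n hD b n
    have h1 := eva_mul hP hQ
    rw [← Polynomial.coe_mul] at h1
    have h2 := eva_fun_dvd w hD h0 n _ h1
    rw [map_mul] at h2
    exact eva_tr h2 (eva_mul (eva_fun_dvd w hD h0 n _ hP) (eva_fun_dvd w hD h0 n _ hQ))
  map_add' := by
    intro a b
    refine eva_zero fun n => ?_
    obtain ⟨P, hP⟩ := eva_ex_n hD a n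
    obtain ⟨Q, hQ⟩ := eva_ex_n hD b n
    have h1 := eva_add hP hQ
    rw [← Polynomial.coe_add] at h1
    have h2 := eva_fun_dvd w hD h0 n _ h1
    rw [map_add] at h2
    exact eva_tr h2 (eva_add (eva_fun_dvd w hD h0 n _ hP) (eva_fun_dvd w hD h0 n _ hQ))

private theorem eva_mem (w : Om k Ω) {β : Ω} (hβ : w.sm β) (P : Polynomial (PowerSeries k)) :
    P.eval₂ w.j β ∈ w.A := by
  have h1 : β ∈ w.A := by
    rw [← ValuationSubring.valuation_le_one_iff]
    exact le_of_lt hβ
  rw [Polynomial.eval₂_eq_sum_range]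
  exact sum_mem fun i _ => mul_mem (w.mem _) (pow_mem h1 i)

theorem exists_ev (w : Om k Ω) {β : Ω} (hβ : w.sm β) : Nonempty (Ev w β) := by
  obtain ⟨D, hD, h0⟩ := w.dist hβ
  refine ⟨⟨eva_hom w hD h0, fun r => ?_, ?_, fun h => ?_⟩⟩
  · show eva_fun w β hD (PowerSeries.C r) = _
    rw [← Polynomial.coe_C, eva_fun_poly w hD h0, eva_phi_C]
  · show eva_fun w β hD PowerSeries.X = _
    rw [← Polynomial.coe_X, eva_fun_poly w hD h0, eva_phi_X]
  · show PowerSeries.constantCoeff (eva_fun w β hD h) ∈ w.A
    obtain ⟨P, hP⟩ := eva_ex_n hD h 1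
    have h1 := eva_fun_dvd w hD h0 1 _ hP
    rw [pow_one, PowerSeries.X_dvd_iff, map_sub, sub_eq_zero, eva_phi_cc] at h1
    rw [h1]
    exact eva_mem w hβ P

theorem ev_poly {w : Om k Ω} {β : Ω} (E : Ev w β) (P : k⟦X⟧[X]) :
    E.ev (P : k⟦X⟧⟦X⟧) =
      (((P.map w.j).comp (Polynomial.X + Polynomial.C β) : Polynomial Ω) : PowerSeries Ω) := by
  rw [← eva_phi_apply]
  have h1 : E.ev.comp (Polynomial.coeToPowerSeries.ringHom (R := PowerSeries k)) =
      eva_phi w β := by
    refine Polynomial.ringHom_ext (fun r => ?_) ?_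
    · rw [eva_phi_C, ← E.hC, RingHom.comp_apply, Polynomial.coeToPowerSeries.ringHom_apply,
        Polynomial.coe_C]
    · rw [eva_phi_X, ← E.hX, RingHom.comp_apply, Polynomial.coeToPowerSeries.ringHom_apply,
        Polynomial.coe_X]
  rw [← h1, RingHom.comp_apply, Polynomial.coeToPowerSeries.ringHom_apply]

end TGJ
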