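import Mathlib

set_option autoImplicit false

/-!
# TGJ-14: orders and multiplicities

The order of the power series of `P(X + β)` is the multiplicity of the root `β` of `P`.
-/

noncomputable section

open Polynomial PowerSeries
open scoped Classical

namespace TGJ

universe u v

theorem order_comp {Ω : Type u} [Field Ω] {P : Polynomial Ω} (hP : P ≠ 0) (β : Ω) :
    PowerSeries.order ((P.comp (Polynomial.X + Polynomial.C β) : Polynomial Ω) : PowerSeries Ω) =
      (rootMultiplicity β P : ℕ) := by
  rw [Polynomial.rootMultiplicity_eq_natTrailingDegree]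
  have h0 : P.comp (Polynomial.X + Polynomial.C β) ≠ 0 := by
    rw [Ne, Polynomial.comp_X_add_C_eq_zero_iff]
    exact hP
  rw [PowerSeries.order_eq_nat]
  refine ⟨?_, fun i hi => ?_⟩
  · rw [Polynomial.coeff_coe]
    exact Polynomial.trailingCoeff_nonzero_iff_nonzero.2 h0
  · rw [Polynomial.coeff_coe]
    exact Polynomial.coeff_eq_zero_of_lt_natTrailingDegree hi

end TGJ
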