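import Pool.Agent.TGJ.Ser
import Pool.Agent.TGJ.Ord
import Pool.Agent.TGJ.Mult

set_option autoImplicit false

/-!
# TGJ-16: the order at the points with `|β| < 1`

Apply `E.ev` (`exists_ev`) to `J.eq l`.  `g := E.ev (map C (θ l))` is the branch (`ev_theta`;
if `ĥ` is any root of `F(β + ε, Y)` in `Ω[[ε]]` whose constant coefficient is congruent to
`i (η l)`, then `ĥ = g` by `root_unique`, `root_simple`, `ser_unique`).  `ev` of the first factor is
`H(β + ε, g)` for `H = hpol` (ring homomorphisms), of the polynomials by `ev_poly`; take orders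
(`PowerSeries.order_mul`, `order_comp`): `ev X = C β + X` has order `0` (`β ≠ 0`), `o l` is a unit,
so `ev (o l)` is a unit, of order `0`; `ev (X - C X) = C (β - j X) + X` has order `1` if `β = j X` and
`0` otherwise; `gpol'` by `mult_gpol'` (with `w.j (γ l m ^ Q) = (w.j (γ l m)) ^ Q`).
In particular nothing vanishes.
-/

noncomputable section

open Polynomial PowerSeries
open scoped Classical

namespace TGJ

universe u v

variable {k : Type u} [Field k] {Ω : Type v} [Field Ω]

/-- The value of the polynomial `H` over `k[[s]][T]` at `T = β + ε`, `Y = g`. -/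
def evh (w : Om k Ω) (β : Ω) (H : k⟦X⟧[X][X]) (g : PowerSeries Ω) : PowerSeries Ω :=
  (H.map (eval₂RingHom ((PowerSeries.C : Ω →+* PowerSeries Ω).comp w.j)
    (PowerSeries.C β + PowerSeries.X))).eval g

private theorem near_order {w : Om k Ω} {β : Ω} (E : Ev w β) {P : Polynomial (PowerSeries k)}
    (hP : P ≠ 0) : PowerSeries.order (E.ev (P : PowerSeries (PowerSeries k))) =
      (rootMultiplicity β (P.map w.j) : ℕ) := by
  rw [ev_poly]
  refine order_comp ?_ β
  rw [Ne, Polynomial.map_eq_zero_iff w.inj]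
  exact hP

private theorem near_root (c : Cv k) (i : k →+* Ω) {β : Ω} {g : PowerSeries Ω}
    (h : (c.ser i β).eval g = 0) : (c.at i β).eval (PowerSeries.constantCoeff g) = 0 := by
  rw [← ser_cc, Polynomial.eval_map_apply, h, map_zero]

private theorem near_evh {w : Om k Ω} {β : Ω} (E : Ev w β)
    (H : Polynomial (Polynomial (PowerSeries k))) (θ : PowerSeries (PowerSeries k)) :
    E.ev ((H.map Polynomial.coeToPowerSeries.ringHom).eval θ) = evh w β H (E.ev θ) := by
  have h1 : E.ev.comp (Polynomial.coeToPowerSeries.ringHom (R := PowerSeries k)) =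
      eval₂RingHom ((PowerSeries.C : Ω →+* PowerSeries Ω).comp w.j)
        (PowerSeries.C β + PowerSeries.X) := by
    refine Polynomial.ringHom_ext (fun r => ?_) ?_
    · rw [RingHom.comp_apply, Polynomial.coeToPowerSeries.ringHom_apply, Polynomial.coe_C, E.hC,
        Polynomial.coe_eval₂RingHom, Polynomial.eval₂_C, RingHom.comp_apply]
    · rw [RingHom.comp_apply, Polynomial.coeToPowerSeries.ringHom_apply, Polynomial.coe_X, E.hX,
        Polynomial.coe_eval₂RingHom, Polynomial.eval₂_X]
  rw [evh, ← h1, ← Polynomial.map_map, Polynomial.eval_map_apply]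

private theorem near_gpol' {g : ℕ} (e Q : ℕ) (hQ : Q ≠ 0) {c : Fin g → PowerSeries k}
    (hc : ∀ m, PowerSeries.constantCoeff (c m) = 0) : gpol' e (fun m => c m ^ Q) ≠ 0 := by
  intro h
  have h1 : (gpol' e (fun m => c m ^ Q)).map (PowerSeries.constantCoeff (R := k)) = 0 := by
    rw [h, Polynomial.map_zero]
  rw [gpol'_map] at h1
  have h2 : (fun m => PowerSeries.constantCoeff (R := k) (c m ^ Q)) = fun _ : Fin g => (0 : k) := by
    funext m
    rw [map_pow, hc m, zero_pow hQ]
  rw [h2, gpol'] at h1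
  simp only [Polynomial.C_0, zero_mul, Finset.sum_const_zero, add_zero] at h1
  exact pow_ne_zero _ Polynomial.X_ne_zero h1

private theorem near_X {β : Ω} (h0 : β ≠ 0) :
    PowerSeries.order (PowerSeries.C β + PowerSeries.X : PowerSeries Ω) = 0 := by
  refine PowerSeries.order_zero_of_unit ?_
  rw [PowerSeries.isUnit_iff_constantCoeff, map_add, PowerSeries.constantCoeff_C,
    PowerSeries.constantCoeff_X, add_zero]
  exact isUnit_iff_ne_zero.2 h0

theorem near [Finite k] [IsAlgClosed Ω] {c : Cv k} {t : Th c} {i0 : Fin c.N} {n : ℕ}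
    (hn : 2 ≤ n) (J : JAlg c t i0 (Nat.card k ^ (n - 1)) (Nat.card k ^ n)) (w : Om k Ω) {β : Ω}
    (hβ : w.sm β) (h0 : β ≠ 0) (l : Fin c.N) {g : PowerSeries Ω}
    (hg : (c.ser w.i β).eval g = 0) (hl : w.sm (PowerSeries.constantCoeff g - w.i (c.η l))) :
    evh w β (hpol c.N J.M c.a J.ρ) g ≠ 0 ∧
      PowerSeries.order (evh w β (hpol c.N J.M c.a J.ρ) g) +
        (rootMultiplicity β ((gpol (J.γ l)).map w.j) : ℕ) =
      ((if l = i0 ∧ β = w.j PowerSeries.X then 1 else 0) +
        (∑ l', rootMultiplicity β ((gpol (J.γ l')).map w.j)) +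
        Nat.card k ^ n * rootMultiplicity (β ^ Nat.card k) ((gpol (J.γ l)).map w.j) : ℕ) := by
  obtain ⟨E⟩ := exists_ev w hβ
  obtain ⟨h1, h2⟩ := ev_theta t hβ E l
  have hg1 := near_root c w.i hg
  have hg2 := near_root c w.i h1
  have hcc := root_unique c w hβ l hg1 hl hg2 h2
  have hgg : g = E.ev (PowerSeries.map PowerSeries.C (t.θ l)) :=
    ser_unique c w.i β hg h1 hcc (root_simple c w hβ hg1)
  have hq0 : 0 < Nat.card k := Nat.card_pos
  have hQ0 : Nat.card k ^ (n - 1) ≠ 0 := (pow_pos hq0 _).ne'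
  -- the characteristic
  have := Fintype.ofFinite k
  obtain ⟨p, hp, f, hpp, hf⟩ := FiniteField.card' k
  have := Fact.mk hpp
  have := hp
  have hpΩ : CharP Ω p := charP_of_injective_ringHom w.i.injective p
  rw [Fintype.card_eq_nat_card] at hf
  have hmul := mult_gpol' (Ω := Ω) (n := n) (by omega) hf f.ne_zero (fun m => w.j (J.γ l m)) β
  -- orders of the factors
  have hγ : ∀ l', PowerSeries.order (E.ev ((gpol (J.γ l') : Polynomial (PowerSeries k)) :
      PowerSeries (PowerSeries k))) = (rootMultiplicity β ((gpol (J.γ l')).map w.j) : ℕ) :=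
    fun l' => near_order E (gpol_ne (J.hγ l'))
  have hγ' : PowerSeries.order (E.ev ((gpol' (Nat.card k ^ n)
      (fun m => J.γ l m ^ (Nat.card k ^ (n - 1))) : Polynomial (PowerSeries k)) :
      PowerSeries (PowerSeries k))) =
      (Nat.card k ^ n * rootMultiplicity (β ^ Nat.card k) ((gpol (J.γ l)).map w.j) : ℕ) := by
    rw [near_order E (near_gpol' _ _ hQ0 (J.hγ l)), gpol'_map, gpol_map]
    simp only [map_pow]
    rw [hmul]
  have hX : PowerSeries.order (E.ev PowerSeries.X) = 0 := by
    rw [E.hX]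
    exact near_X h0
  have hXe : ∀ e : ℕ, PowerSeries.order (E.ev (PowerSeries.X ^ e)) = 0 := by
    intro e
    rw [map_pow, PowerSeries.order_pow, hX, smul_zero]
  have ho : PowerSeries.order (E.ev (J.o l)) = 0 := by
    refine PowerSeries.order_zero_of_unit (IsUnit.map E.ev ?_)
    rw [PowerSeries.isUnit_iff_constantCoeff, J.ho l]
    exact isUnit_one
  have hif : PowerSeries.order (E.ev (if l = i0 then PowerSeries.X - PowerSeries.C PowerSeries.X
      else PowerSeries.X)) = ((if l = i0 ∧ β = w.j PowerSeries.X then 1 else 0 : ℕ) : ℕ∞) := by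
    by_cases hl0 : l = i0
    · rw [if_pos hl0, map_sub, E.hX, E.hC]
      by_cases hb : β = w.j PowerSeries.X
      · rw [if_pos ⟨hl0, hb⟩, hb, add_sub_cancel_left, PowerSeries.order_X]
        rfl
      · rw [if_neg (fun h => hb h.2)]
        have h3 : (PowerSeries.C β + PowerSeries.X - PowerSeries.C (w.j PowerSeries.X) :
            PowerSeries Ω) = PowerSeries.C (β - w.j PowerSeries.X) + PowerSeries.X := by
          rw [map_sub]
          ring
        rw [h3, near_X (sub_ne_zero.2 hb)]
        rfl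
    · rw [if_neg hl0, if_neg (fun h => hl0 h.1), hX]
      rfl
  have heq := congrArg (fun z => PowerSeries.order (E.ev z)) (J.eq l)
  simp only [map_mul, PowerSeries.order_mul, map_prod, PowerSeries.order_prod] at heq
  rw [near_evh, ← hgg, hγ l, ho, hXe, hγ', hif, hXe, Finset.sum_congr rfl fun l' _ => hγ l',
    add_zero, add_zero, add_zero] at heq
  have hfin : PowerSeries.order (evh w β (hpol c.N J.M c.a J.ρ) g) +
        (rootMultiplicity β ((gpol (J.γ l)).map w.j) : ℕ) =
      ((if l = i0 ∧ β = w.j PowerSeries.X then 1 else 0) +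
        (∑ l', rootMultiplicity β ((gpol (J.γ l')).map w.j)) +
        Nat.card k ^ n * rootMultiplicity (β ^ Nat.card k) ((gpol (J.γ l)).map w.j) : ℕ) := by
    rw [heq]
    push_cast
    ring
  refine ⟨fun h => ?_, hfin⟩
  rw [h, PowerSeries.order_zero, top_add] at hfin
  exact (ENat.natCast_ne_top _) hfin.symm

end TGJ
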