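import Pool.Agent.TGJ.Pts
import Pool.Agent.TGJ.Near

set_option autoImplicit false

/-!
# TGJ-20: expansions

`exp_ps`: `E (th p0)` is `0` or has order `0` (`hE.ord`), so it is the image of a power series `g`
with constant coefficient `y (th p0)` (`hE.co`); apply `E ∘ p0.r` to `p0.P`, and use that
`HahnSeries.ofPowerSeries` is injective (`hE.C`, `hE.T`).
`tau_poly`: both sides are ring homomorphisms in `P`.
`tau_h`: the same for the two variables.
`order_ofPS`: the order of a power series and of its image.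
-/

noncomputable section

open Polynomial PowerSeries
open scoped Classical

namespace TGJ

open TGF

universe u v

variable {k0 L Ω : Type u} [Field k0] [Field L] [Field Ω]

theorem order_ofPS {g : PowerSeries Ω} {m : ℕ} (h : PowerSeries.order g = (m : ℕ∞)) :
    HahnSeries.ofPowerSeries ℤ Ω g ≠ 0 ∧ (HahnSeries.ofPowerSeries ℤ Ω g).order = (m : ℤ) := by
  obtain ⟨h1, h2⟩ := PowerSeries.order_eq_nat.1 h
  have h3 : (HahnSeries.ofPowerSeries ℤ Ω g).coeff (m : ℤ) ≠ 0 := by
    rw [HahnSeries.ofPowerSeries_apply_coeff]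
    exact h1
  have h4 : HahnSeries.ofPowerSeries ℤ Ω g ≠ 0 := HahnSeries.ne_zero_of_coeff_ne_zero h3
  refine ⟨h4, le_antisymm (HahnSeries.order_le_of_coeff_ne_zero h3) ?_⟩
  by_contra hlt
  rw [not_le] at hlt
  have h5 : (HahnSeries.ofPowerSeries ℤ Ω g).coeff (HahnSeries.ofPowerSeries ℤ Ω g).order ≠ 0 :=
    HahnSeries.coeff_order_eq_zero.not.2 h4
  have h6 := PowerSeries.coeff_coe g (HahnSeries.ofPowerSeries ℤ Ω g).order
  by_cases hneg : (HahnSeries.ofPowerSeries ℤ Ω g).order < 0
  · rw [if_pos hneg] at h6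
    exact h5 h6
  · rw [if_neg hneg, h2 _ (by omega)] at h6
    exact h5 h6

private theorem exp_C (x : Ω) :
    HahnSeries.ofPowerSeries ℤ Ω (PowerSeries.C x) = HahnSeries.C x :=
  HahnSeries.ofPowerSeries_C x

private theorem exp_X (b : Ω) :
    HahnSeries.ofPowerSeries ℤ Ω (PowerSeries.C b + PowerSeries.X) =
      HahnSeries.C b + HahnSeries.single 1 1 := by
  rw [map_add, HahnSeries.ofPowerSeries_C, HahnSeries.ofPowerSeries_X]

theorem exp_ps {p0 : SRG.Pl (RatFunc k0) L} {c : Cv k0}
    (hc : c.F.map (algebraMap k0[X] (RatFunc k0)) = p0.P) {i : k0 →+* Ω} {y : L →+* Ω}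
    {E : L →+* LaurentSeries Ω} (hE : IsExp p0 i y E) : ∃ g : PowerSeries Ω,
      HahnSeries.ofPowerSeries ℤ Ω g = E (th p0) ∧
      PowerSeries.constantCoeff g = y (th p0) ∧ (c.ser i (y (cT p0))).eval g = 0 := by
  have h1 : ∃ g : PowerSeries Ω, HahnSeries.ofPowerSeries ℤ Ω g = E (th p0) := by
    by_cases h0 : th p0 = 0
    · exact ⟨0, by rw [h0, map_zero, map_zero]⟩
    · refine ⟨(E (th p0)).powerSeriesPart, ?_⟩
      rw [LaurentSeries.ofPowerSeries_powerSeriesPart, hE.ord _ h0, neg_zero]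
      exact one_mul _
  obtain ⟨g, hg⟩ := h1
  refine ⟨g, hg, ?_, ?_⟩
  · rw [← hE.co, ← hg, ← PowerSeries.coeff_zero_eq_constantCoeff_apply]
    exact (HahnSeries.ofPowerSeries_apply_coeff (Γ := ℤ) g 0).symm
  · apply HahnSeries.ofPowerSeries_injective (Γ := ℤ)
    rw [map_zero, Cv.ser, Polynomial.eval_map, Polynomial.hom_eval₂, hg]
    have h2 : (HahnSeries.ofPowerSeries ℤ Ω).comp
        (eval₂RingHom ((PowerSeries.C : Ω →+* PowerSeries Ω).comp i)
          (PowerSeries.C (y (cT p0)) + PowerSeries.X)) =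
        ((E.comp p0.r).comp Polynomial.C).comp (algebraMap k0[X] (RatFunc k0)) := by
      refine Polynomial.ringHom_ext (fun a => ?_) ?_
      · rw [RingHom.comp_apply, coe_eval₂RingHom, Polynomial.eval₂_C, RingHom.comp_apply, exp_C,
          RingHom.comp_apply, RatFunc.algebraMap_C]
        exact (hE.C a).symm
      · rw [RingHom.comp_apply, coe_eval₂RingHom, Polynomial.eval₂_X, exp_X, RingHom.comp_apply,
          RatFunc.algebraMap_X]
        exact hE.T.symm
    rw [h2, ← Polynomial.eval₂_map, hc]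
    have h3 : p0.P.eval₂ ((E.comp p0.r).comp Polynomial.C) (E (th p0)) =
        (E.comp p0.r) (p0.P.eval₂ Polynomial.C Polynomial.X) :=
      (Polynomial.hom_eval₂ p0.P Polynomial.C (E.comp p0.r) Polynomial.X).symm
    rw [h3, Polynomial.eval₂_C_X, RingHom.comp_apply, (p0.ker p0.P).2 dvd_rfl, map_zero]

theorem tau_poly {b : Ω} {τ : RatFunc Ω →+* LaurentSeries Ω} (h : IsTau b τ)
    (P : Polynomial Ω) : τ (algebraMap (Polynomial Ω) (RatFunc Ω) P) =
      HahnSeries.ofPowerSeries ℤ Ω
        ((P.comp (Polynomial.X + Polynomial.C b) : Polynomial Ω) : PowerSeries Ω) := by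
  have h1 : τ.comp (algebraMap (Polynomial Ω) (RatFunc Ω)) =
      ((HahnSeries.ofPowerSeries ℤ Ω).comp Polynomial.coeToPowerSeries.ringHom).comp
        (Polynomial.compRingHom (Polynomial.X + Polynomial.C b)) := by
    refine Polynomial.ringHom_ext (fun a => ?_) ?_
    · rw [RingHom.comp_apply, RatFunc.algebraMap_C, h.C, RingHom.comp_apply,
        Polynomial.coe_compRingHom_apply, Polynomial.C_comp, RingHom.comp_apply,
        Polynomial.coeToPowerSeries.ringHom_apply, Polynomial.coe_C, exp_C]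
    · rw [RingHom.comp_apply, RatFunc.algebraMap_X, h.X, RingHom.comp_apply,
        Polynomial.coe_compRingHom_apply, Polynomial.X_comp, RingHom.comp_apply,
        Polynomial.coeToPowerSeries.ringHom_apply, Polynomial.coe_add, Polynomial.coe_C,
        Polynomial.coe_X, map_add, HahnSeries.ofPowerSeries_C, HahnSeries.ofPowerSeries_X,
        add_comm]
  exact RingHom.congr_fun h1 P

theorem tau_h (w : Om k0 Ω) {b : Ω} {τ : RatFunc Ω →+* LaurentSeries Ω} (h : IsTau b τ)
    (H : k0⟦X⟧[X][X]) (g : PowerSeries Ω) :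
    (H.map ((algebraMap (Polynomial Ω) (RatFunc Ω)).comp (mapRingHom w.j))).eval₂ τ
      (HahnSeries.ofPowerSeries ℤ Ω g) = HahnSeries.ofPowerSeries ℤ Ω (evh w b H g) := by
  rw [evh, Polynomial.eval_map, Polynomial.hom_eval₂, Polynomial.eval₂_map]
  have h1 : τ.comp ((algebraMap (Polynomial Ω) (RatFunc Ω)).comp (mapRingHom w.j)) =
      (HahnSeries.ofPowerSeries ℤ Ω).comp
        (eval₂RingHom ((PowerSeries.C : Ω →+* PowerSeries Ω).comp w.j)
          (PowerSeries.C b + PowerSeries.X)) := by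
    refine Polynomial.ringHom_ext (fun a => ?_) ?_
    · rw [RingHom.comp_apply, RingHom.comp_apply, coe_mapRingHom, Polynomial.map_C,
        RatFunc.algebraMap_C, h.C, RingHom.comp_apply, coe_eval₂RingHom, Polynomial.eval₂_C,
        RingHom.comp_apply, exp_C]
    · rw [RingHom.comp_apply, RingHom.comp_apply, coe_mapRingHom, Polynomial.map_X,
        RatFunc.algebraMap_X, h.X, RingHom.comp_apply, coe_eval₂RingHom, Polynomial.eval₂_X, exp_X]
  rw [h1]

end TGJ
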