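import Mathlib

set_option autoImplicit false

/-!
# TGJ-5: the fixed point

`fp`: for a function `Φ` on sequences such that `(Φ x) n` depends only on the `x m`, `m < n`, there
is a fixed point: `x n = (Φ^[n + 1] x0) n`.
`fact`: `B`, `O` are subsets (additive subgroups) of the commutative ring `V`, `γ`, `γ'` functions on
`G`, every element of `V` is of the form `b + γ c + o`.  Write `a = 1 + a⁺`, `Γ = 1 + Γ⁺`,
`o = 1 + o⁺` with `a⁺ = ∑_(m ≥ 1) b_m s^m`, `Γ⁺ = ∑_(m ≥ 1) γ(c_m) s^m`, `o⁺ = ∑_(m ≥ 1) o_m s^m`.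
The coefficient of `s^m` (`m ≥ 1`) in `a Γ o` is `b_m + γ(c_m) + o_m + (terms of lower index)`, that
in the left side depends only on `c_l`, `l < m` (`m / Q < m` as `Q ≥ 2`), so one chooses
`(b_m, c_m, o_m)` recursively (`fp`, with a choice of the decomposition `b + γ c + o` for
every element of `V`), with `c_0 = 0`.
-/

noncomputable section

open PowerSeries
open scoped Classical

namespace TGJ

universe u v

private lemma fix_iter {X : Type u} (Φ : (ℕ → X) → (ℕ → X))
    (h : ∀ (x y : ℕ → X) (n : ℕ), (∀ m < n, x m = y m) → Φ x n = Φ y n) (x0 : ℕ → X) (k : ℕ) :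
    ∀ m < k, ∀ j, k ≤ j → (Φ^[j] x0) m = (Φ^[k] x0) m := by
  induction k with
  | zero => intro m hm; exact absurd hm (Nat.not_lt_zero m)
  | succ k ih =>
    intro m hm j hj
    obtain ⟨j', rfl⟩ : ∃ j', j = j' + 1 := ⟨j - 1, by omega⟩
    rw [Function.iterate_succ_apply', Function.iterate_succ_apply']
    exact h _ _ _ fun m' hm' => ih m' (by omega) j' (by omega)

theorem fp {X : Type u} [Nonempty X] (Φ : (ℕ → X) → (ℕ → X))
    (h : ∀ (x y : ℕ → X) (n : ℕ), (∀ m < n, x m = y m) → Φ x n = Φ y n) :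
    ∃ x : ℕ → X, Φ x = x := by
  let x0 : ℕ → X := fun _ => Classical.arbitrary X
  refine ⟨fun n => (Φ^[n + 1] x0) n, ?_⟩
  funext n
  have h1 := h (fun n => (Φ^[n + 1] x0) n) (Φ^[n] x0) n (fun m hm =>
    (fix_iter Φ h x0 (m + 1) m (Nat.lt_succ_self m) n hm).symm)
  rw [h1, ← Function.iterate_succ_apply' Φ n x0]

private lemma fix_mul {V : Type u} [CommRing V] {f f' g g' : PowerSeries V} {n : ℕ}
    (hf0 : coeff 0 f = 0) (hf0' : coeff 0 f' = 0) (hg0 : coeff 0 g = 0) (hg0' : coeff 0 g' = 0)
    (hf : ∀ m < n, coeff m f = coeff m f') (hg : ∀ m < n, coeff m g = coeff m g') :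
    ∀ m ≤ n, coeff m (f * g) = coeff m (f' * g') := by
  intro m hm
  rw [coeff_mul, coeff_mul]
  refine Finset.sum_congr rfl fun ij hij => ?_
  rw [Finset.HasAntidiagonal.mem_antidiagonal] at hij
  by_cases hi : ij.1 = 0
  · rw [hi, hf0, hf0', zero_mul, zero_mul]
  by_cases hj : ij.2 = 0
  · rw [hj, hg0, hg0', mul_zero, mul_zero]
  rw [hf ij.1 (by omega), hg ij.2 (by omega)]

private lemma fix_mul' {V : Type u} [CommRing V] {f g g' : PowerSeries V} {n : ℕ}
    (hg : ∀ m ≤ n, coeff m g = coeff m g') : coeff n (f * g) = coeff n (f * g') := by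
  rw [coeff_mul, coeff_mul]
  refine Finset.sum_congr rfl fun ij hij => ?_
  rw [Finset.HasAntidiagonal.mem_antidiagonal] at hij
  rw [hg ij.2 (by omega)]

/-- the sequence with the term of index `0` replaced by `0` -/
private def fixZ {A : Type u} [Zero A] (f : ℕ → A) : ℕ → A := fun m => if m = 0 then 0 else f m

private lemma fixZ_congr {A : Type u} [Zero A] {f g : ℕ → A} {m : ℕ} (h : f m = g m) :
    fixZ f m = fixZ g m := by
  unfold fixZ
  split_ifs
  · rfl
  · exact h

theorem fact {V : Type u} [CommRing V] (B O : AddSubgroup V) {G : Type v} [AddCommGroup G]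
    (γ γ' : G →+ V) (surj : ∀ v : V, ∃ b ∈ B, ∃ c : G, ∃ o ∈ O, v = b + γ c + o) (w : V)
    {Q : ℕ} (hQ : 2 ≤ Q) : ∃ (b : ℕ → V) (c : ℕ → G) (o : ℕ → V), b 0 = 1 ∧ c 0 = 0 ∧ o 0 = 1 ∧
      (∀ m, 1 ≤ m → b m ∈ B) ∧ (∀ m, 1 ≤ m → o m ∈ O) ∧
      (1 + PowerSeries.X * PowerSeries.C w) *
          (1 + PowerSeries.mk (fun m => if Q ∣ m then γ' (c (m / Q)) else 0)) =
        PowerSeries.mk b * (1 + PowerSeries.mk (fun m => γ (c m))) * PowerSeries.mk o := by
  choose b hb c o ho hv using surj
  -- the three series of a sequence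
  let a1 : (ℕ → V × G × V) → PowerSeries V := fun x => PowerSeries.mk (fixZ fun m => (x m).1)
  let cc : (ℕ → V × G × V) → ℕ → G := fun x => fixZ fun m => (x m).2.1
  let g1 : (ℕ → V × G × V) → PowerSeries V := fun x => PowerSeries.mk fun m => γ (cc x m)
  let o1 : (ℕ → V × G × V) → PowerSeries V := fun x => PowerSeries.mk (fixZ fun m => (x m).2.2)
  let g2 : (ℕ → V × G × V) → PowerSeries V :=
    fun x => PowerSeries.mk fun m => if Q ∣ m then γ' (cc x (m / Q)) else 0
  let L : (ℕ → V × G × V) → PowerSeries V :=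
    fun x => (1 + PowerSeries.X * PowerSeries.C w) * (1 + g2 x)
  let E : (ℕ → V × G × V) → PowerSeries V := fun x => L x - 1 -
    (a1 x * g1 x + a1 x * o1 x + g1 x * o1 x + a1 x * g1 x * o1 x)
  have ha0 : ∀ x, coeff 0 (a1 x) = 0 := fun x => by
    simp only [a1, coeff_mk, fixZ, if_pos]
  have hc0 : ∀ x, cc x 0 = 0 := fun x => by
    simp only [cc, fixZ, if_pos]
  have hg0 : ∀ x, coeff 0 (g1 x) = 0 := fun x => by
    simp only [g1, coeff_mk, hc0, map_zero]
  have ho0 : ∀ x, coeff 0 (o1 x) = 0 := fun x => by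
    simp only [o1, coeff_mk, fixZ, if_pos]
  let Φ : (ℕ → V × G × V) → (ℕ → V × G × V) := fun x n =>
    (b (coeff n (E x)), c (coeff n (E x)), o (coeff n (E x)))
  have hE0 : ∀ x, coeff 0 (E x) = 0 := fun x => by
    have e1 : coeff 0 (L x) = 1 := by
      simp only [L, g2, coeff_zero_eq_constantCoeff, map_mul, map_add, map_one,
        constantCoeff_X, zero_mul, add_zero, one_mul]
      rw [← coeff_zero_eq_constantCoeff, coeff_mk, if_pos (dvd_zero Q), Nat.zero_div, hc0,
        map_zero, add_zero]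
    have e2 : coeff 0 (1 : PowerSeries V) = 1 := by simp
    have ha := ha0 x
    have hg := hg0 x
    have ho' := ho0 x
    rw [coeff_zero_eq_constantCoeff] at ha hg ho' e1 ⊢
    simp only [E, map_sub, map_add, map_mul, ha, hg, e1, map_one, zero_mul, mul_zero, add_zero,
      sub_self]
  have hΦ : ∀ (x y : ℕ → V × G × V) (n : ℕ), (∀ m < n, x m = y m) → Φ x n = Φ y n := by
    intro x y n hxy
    have key : coeff n (E x) = coeff n (E y) := by
      rcases Nat.eq_zero_or_pos n with rfl | hn
      · rw [hE0, hE0]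
      have ea : ∀ m < n, coeff m (a1 x) = coeff m (a1 y) := fun m hm => by
        simp only [a1, coeff_mk]
        exact fixZ_congr (by rw [hxy m hm])
      have ec : ∀ m < n, cc x m = cc y m := fun m hm => fixZ_congr (by rw [hxy m hm])
      have eg : ∀ m < n, coeff m (g1 x) = coeff m (g1 y) := fun m hm => by
        simp only [g1, coeff_mk, ec m hm]
      have eo : ∀ m < n, coeff m (o1 x) = coeff m (o1 y) := fun m hm => by
        simp only [o1, coeff_mk]
        exact fixZ_congr (by rw [hxy m hm])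
      have e1 := fix_mul (ha0 x) (ha0 y) (hg0 x) (hg0 y) ea eg
      have e2 := fix_mul (ha0 x) (ha0 y) (ho0 x) (ho0 y) ea eo n le_rfl
      have e3 := fix_mul (hg0 x) (hg0 y) (ho0 x) (ho0 y) eg eo n le_rfl
      have z1 : ∀ z, coeff 0 (a1 z * g1 z) = 0 := fun z => by
        have h1 := ha0 z
        rw [coeff_zero_eq_constantCoeff] at h1 ⊢
        rw [map_mul, h1, zero_mul]
      have e4 := fix_mul (z1 x) (z1 y) (ho0 x) (ho0 y) (fun m hm => e1 m hm.le) eo n le_rfl
      have e5 : coeff n (L x) = coeff n (L y) := by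
        refine fix_mul' fun m hm => ?_
        have e6 : coeff m (g2 x) = coeff m (g2 y) := by
          simp only [g2, coeff_mk]
          have h1 : m / Q < n := by
            rcases Nat.eq_zero_or_pos m with rfl | hm0
            · simpa using hn
            · exact lt_of_lt_of_le (Nat.div_lt_self hm0 (by omega)) hm
          rw [ec _ h1]
        rw [map_add, map_add, e6]
      simp only [E, map_sub, map_add]
      rw [e1 n le_rfl, e2, e3, e4, e5]
    simp only [Φ, key]
  obtain ⟨x, hx⟩ := fp Φ hΦ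
  have hx' : ∀ n, x n = (b (coeff n (E x)), c (coeff n (E x)), o (coeff n (E x))) := fun n =>
    (congrFun hx n).symm
  refine ⟨fun m => if m = 0 then 1 else (x m).1, cc x, fun m => if m = 0 then 1 else (x m).2.2,
    by simp, hc0 x, by simp, ?_, ?_, ?_⟩
  · intro m hm
    simp only [Nat.one_le_iff_ne_zero.1 hm, if_false]
    rw [hx' m]
    exact hb _
  · intro m hm
    simp only [Nat.one_le_iff_ne_zero.1 hm, if_false]
    rw [hx' m]
    exact ho _
  · have eb : PowerSeries.mk (fun m => if m = 0 then (1 : V) else (x m).1) = 1 + a1 x := by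
      ext m
      simp only [a1, coeff_mk, map_add, coeff_one, fixZ]
      by_cases hm : m = 0
      · simp [hm]
      · simp [hm]
    have eo : PowerSeries.mk (fun m => if m = 0 then (1 : V) else (x m).2.2) = 1 + o1 x := by
      ext m
      simp only [o1, coeff_mk, map_add, coeff_one, fixZ]
      by_cases hm : m = 0
      · simp [hm]
      · simp [hm]
    have key : E x = a1 x + g1 x + o1 x := by
      ext m
      by_cases hm : m = 0
      · subst hm
        rw [hE0, map_add, map_add, ha0, hg0, ho0]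
        simp
      · rw [map_add, map_add]
        simp only [a1, g1, o1, cc, coeff_mk, fixZ, hm, if_false]
        rw [hx' m]
        exact hv _
    rw [eb, eo]
    have e7 : L x = 1 + E x + (a1 x * g1 x + a1 x * o1 x + g1 x * o1 x +
        a1 x * g1 x * o1 x) := by
      simp only [E]
      ring
    change L x = (1 + a1 x) * (1 + g1 x) * (1 + o1 x)
    rw [e7, key]
    ring

end TGJ
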