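import Pool.Agent.TGJ.Surj
import Pool.Agent.TGJ.Bm
import Pool.Agent.TGJ.Fix

set_option autoImplicit false

/-!
# TGJ-7: the factorisation over `k((T))[[s]]`

Apply `fact` with `V = Fin N → LaurentSeries k`, `B` the set of the `(bel t x l)_l`
(`bel_add`, negation), `O` the `(o_l)_l` with `o_l ∈ Lm 1`, `G = Fin N → Fin g → k`, `g = a N`,
`γ c = (gel (c l))_l`, `γ' c = (∑ c_(l,m) U^(m e))_l`, `w = - U` in the factor `i0`, `0`
elsewhere, and `surj`.  We get `b`, `d`, `o`; `b 0 = 1 = bel t (1, 0, 0, ...)` (`N ≥ 1` because of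
`i0`).  In the factor `l` (in `LaurentSeries k ⟦X⟧`; the ring of power series over the product is
mapped to it by `PowerSeries.map (Pi.evalRingHom _ l)`):
`u_l Γ'_l = a_l Γ_l o_l`, `Γ_l = 1 + ∑_m gel(d_m l) s^m`.  Let `P = ∏_j Γ_j`, with coefficients
in `pu (k[X])`.  Multiply by `P`: `b'_l := a_l P` has its coefficients in `B` (`bel_mul`), say
`coeff m b'_l = bel t (x m) l`, and `b'_l Γ_l o_l = u_l Γ'_l P`.  Cancel `Γ_l` (constant coefficient
`1`): `b'_l o_l = u_l Γ'_l ∏_(j ≠ l) Γ_j`, and `o_l` is invertible with inverse with coefficients in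
`Lm 0`; the coefficients of the right side are in `Lm (-M)`, `M = 1 + g e + g N` (`U_mem`,
`Lm_mul`), so the coefficients of `b'_l` are in `Lm (-M)`, and `bel_bound` gives the bound of the
degrees.
-/

noncomputable section

open Polynomial PowerSeries
open scoped Classical

namespace TGJ

universe u v

variable {k : Type u} [Field k]

/-- The gap element with exponents multiplied by `e`. -/
def gel' {g : ℕ} (e : ℕ) (c : Fin g → k) : LaurentSeries k :=
  ∑ m : Fin g, c m • U k ^ ((m : ℕ) * e)

private theorem jv_mono {m n : ℤ} (h : m ≤ n) {x : LaurentSeries k} (hx : x ∈ Lm k n) :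
    x ∈ Lm k m :=
  fun i hi => hx i (lt_of_lt_of_le hi h)

private theorem jv_mul {m n : ℤ} {f g : PowerSeries (LaurentSeries k)}
    (hf : ∀ i, PowerSeries.coeff i f ∈ Lm k m) (hg : ∀ i, PowerSeries.coeff i g ∈ Lm k n) (i : ℕ) :
    PowerSeries.coeff i (f * g) ∈ Lm k (m + n) := by
  rw [PowerSeries.coeff_mul]
  exact Submodule.sum_mem _ (fun p _ => Lm_mul (hf _) (hg _))

private theorem jv_one_mem : (1 : LaurentSeries k) ∈ Lm k 0 := by
  have h := U_mem (k := k) 0
  simpa using h

private theorem jv_one (i : ℕ) :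
    PowerSeries.coeff i (1 : PowerSeries (LaurentSeries k)) ∈ Lm k 0 := by
  rw [PowerSeries.coeff_one]
  split_ifs
  · exact jv_one_mem
  · exact Submodule.zero_mem _

private theorem jv_gel {g : ℕ} (d : Fin g → k) : gel d ∈ Lm k (-(g : ℤ)) := by
  refine Submodule.sum_mem _ (fun m _ => Submodule.smul_mem _ _ (jv_mono ?_ (U_mem (m : ℕ))))
  have h : ((m : ℕ) : ℤ) ≤ (g : ℤ) := by exact_mod_cast m.2.le
  linarith

private theorem jv_gel' {g : ℕ} (e : ℕ) (d : Fin g → k) : gel' e d ∈ Lm k (-((g * e : ℕ) : ℤ)) := by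
  refine Submodule.sum_mem _ (fun m _ => Submodule.smul_mem _ _ (jv_mono ?_ (U_mem ((m : ℕ) * e))))
  have h : (((m : ℕ) * e : ℕ) : ℤ) ≤ ((g * e : ℕ) : ℤ) := by
    exact_mod_cast Nat.mul_le_mul_right e m.2.le
  linarith

private theorem jv_onemk {m : ℤ} (hm : m ≤ 0) {f : ℕ → LaurentSeries k} (hf : ∀ n, f n ∈ Lm k m)
    (i : ℕ) : PowerSeries.coeff i (1 + PowerSeries.mk f) ∈ Lm k m := by
  rw [map_add, PowerSeries.coeff_mk]
  exact Submodule.add_mem _ (jv_mono hm (jv_one i)) (hf i)

private theorem jv_prod {ι : Type} {m : ℕ} {f : ι → PowerSeries (LaurentSeries k)}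
    (hf : ∀ j i, PowerSeries.coeff i (f j) ∈ Lm k (-(m : ℤ))) (s : Finset ι) (i : ℕ) :
    PowerSeries.coeff i (∏ j ∈ s, f j) ∈ Lm k (-((m * s.card : ℕ) : ℤ)) := by
  induction s using Finset.induction_on generalizing i with
  | empty =>
    rw [Finset.prod_empty]
    have h := jv_one (k := k) i
    simpa using h
  | insert j s hj ih =>
    rw [Finset.prod_insert hj, Finset.card_insert_of_notMem hj]
    have h := jv_mul (hf j) ih i
    have h2 : (-(m : ℤ)) + (-((m * s.card : ℕ) : ℤ)) = -((m * (s.card + 1) : ℕ) : ℤ) := by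
      push_cast
      ring
    rw [h2] at h
    exact h

private theorem jv_div {m : ℤ} {r o q : PowerSeries (LaurentSeries k)} (h : r * o = q)
    (h0 : PowerSeries.coeff 0 o = 1) (ho : ∀ i, PowerSeries.coeff i o ∈ Lm k 0)
    (hq : ∀ i, PowerSeries.coeff i q ∈ Lm k m) (n : ℕ) : PowerSeries.coeff n r ∈ Lm k m := by
  induction n using Nat.strong_induction_on with
  | _ n ih =>
    have h1 := congrArg (PowerSeries.coeff n) h
    rw [PowerSeries.coeff_mul, Finset.Nat.sum_antidiagonal_eq_sum_range_succ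
      (fun i j => PowerSeries.coeff i r * PowerSeries.coeff j o) n, Finset.sum_range_succ,
      Nat.sub_self, h0, mul_one] at h1
    rw [eq_sub_of_add_eq' h1]
    refine Submodule.sub_mem _ (hq n) (Submodule.sum_mem _ fun i hi => ?_)
    have h3 := Lm_mul (ih i (Finset.mem_range.mp hi)) (ho (n - i))
    rw [add_zero] at h3
    exact h3

private theorem jv_map_mk {R : Type u} {S : Type u} [CommRing R] [CommRing S] (φ : R →+* S)
    (f : ℕ → R) : PowerSeries.map φ (PowerSeries.mk f) = PowerSeries.mk (fun n => φ (f n)) := by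
  ext n
  rw [PowerSeries.coeff_map, PowerSeries.coeff_mk, PowerSeries.coeff_mk]

/-- the ring homomorphism `pu` -/
private def jv_pu (k : Type u) [Field k] : k[X] →+* LaurentSeries k :=
  (Polynomial.aeval (U k)).toRingHom

private theorem jv_pu_apply (x : k[X]) : jv_pu k x = pu x := rfl

/-- the polynomial of `gel` -/
private def jv_gp {g : ℕ} (d : Fin g → k) : k[X] :=
  ∑ m : Fin g, Polynomial.C (d m) * Polynomial.X ^ (m : ℕ)

private theorem jv_gp_pu {g : ℕ} (d : Fin g → k) : jv_pu k (jv_gp d) = gel d := by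
  rw [jv_gp, map_sum, gel]
  refine Finset.sum_congr rfl (fun m _ => ?_)
  rw [jv_pu_apply, pu, map_mul, map_pow, Polynomial.aeval_C, Polynomial.aeval_X]
  have h : (algebraMap k (LaurentSeries k)) (d m) = HahnSeries.C (d m) := by
    rw [HahnSeries.algebraMap_apply', ← HahnSeries.ofPowerSeries_C]
    rfl
  rw [h]
  exact HahnSeries.C_mul_eq_smul

private theorem jv_gp_zero {g : ℕ} : jv_gp (0 : Fin g → k) = 0 := by
  rw [jv_gp]
  refine Finset.sum_eq_zero (fun m _ => ?_)
  rw [Pi.zero_apply, map_zero, zero_mul]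

private theorem jv_gel_zero {g : ℕ} : gel (0 : Fin g → k) = 0 := by
  rw [gel]
  refine Finset.sum_eq_zero (fun m _ => ?_)
  rw [Pi.zero_apply, zero_smul]

private theorem jv_gel_add {g : ℕ} (c d : Fin g → k) : gel (c + d) = gel c + gel d := by
  rw [gel, gel, gel, ← Finset.sum_add_distrib]
  refine Finset.sum_congr rfl (fun m _ => ?_)
  rw [Pi.add_apply, add_smul]

private theorem jv_gel'_add {g : ℕ} (e : ℕ) (c d : Fin g → k) :
    gel' e (c + d) = gel' e c + gel' e d := by
  rw [gel', gel', gel', ← Finset.sum_add_distrib]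
  refine Finset.sum_congr rfl (fun m _ => ?_)
  rw [Pi.add_apply, add_smul]

/-- `bel` as a homomorphism -/
private def jv_bel {c : Cv k} (t : Th c) : (Fin c.N → k[X]) →+ (Fin c.N → LaurentSeries k) :=
  AddMonoidHom.mk' (fun x l => bel t x l) (by
    intro x y
    funext l
    exact (bel_add t x y l).symm)

private theorem jv_bel_apply {c : Cv k} (t : Th c) (x : Fin c.N → k[X]) (l : Fin c.N) :
    jv_bel t x l = bel t x l := rfl

/-- the vectors with components in `Lm 1` -/
private def jv_O (k : Type u) [Field k] (N : ℕ) : AddSubgroup (Fin N → LaurentSeries k) where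
  carrier := {o | ∀ l, o l ∈ Lm k 1}
  add_mem' := fun hx hy l => Submodule.add_mem _ (hx l) (hy l)
  zero_mem' := fun _ => Submodule.zero_mem _
  neg_mem' := fun hx l => Submodule.neg_mem _ (hx l)

/-- `gel` on the components -/
private def jv_ga (k : Type u) [Field k] (N g : ℕ) :
    (Fin N → Fin g → k) →+ (Fin N → LaurentSeries k) :=
  AddMonoidHom.mk' (fun d l => gel (d l)) (by
    intro x y
    funext l
    exact jv_gel_add (x l) (y l))

/-- `gel'` on the components -/
private def jv_ga' (k : Type u) [Field k] (N g e : ℕ) :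
    (Fin N → Fin g → k) →+ (Fin N → LaurentSeries k) :=
  AddMonoidHom.mk' (fun d l => gel' e (d l)) (by
    intro x y
    funext l
    exact jv_gel'_add e (x l) (y l))

private theorem jv_bel_one {c : Cv k} (t : Th c) (i0 : Fin c.N) (l : Fin c.N) :
    bel t (fun i => if (i : ℕ) = 0 then 1 else 0) l = 1 := by
  have hN : 0 < c.N := lt_of_le_of_lt (Nat.zero_le _) i0.2
  rw [bel, Finset.sum_eq_single (⟨0, hN⟩ : Fin c.N)]
  · rw [if_pos rfl, pow_zero, mul_one, pu, map_one]
  · intro j _ hj
    have h1 : ¬ ((j : ℕ) = 0) := fun h => hj (Fin.ext h)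
    rw [if_neg h1, pu, map_zero, zero_mul]
  · intro h
    exact absurd (Finset.mem_univ _) h

private theorem jv_U (l : ℕ) : PowerSeries.coeff l
    (1 - PowerSeries.X * PowerSeries.C (U k)) ∈ Lm k (-1) := by
  rw [map_sub]
  refine Submodule.sub_mem _ (jv_mono (by norm_num) (jv_one l)) ?_
  cases l with
  | zero =>
    rw [PowerSeries.coeff_zero_X_mul]
    exact Submodule.zero_mem _
  | succ l =>
    rw [PowerSeries.coeff_succ_X_mul, PowerSeries.coeff_C]
    split_ifs
    · have h := U_mem (k := k) 1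
      rw [pow_one] at h
      exact h
    · exact Submodule.zero_mem _

theorem jv {c : Cv k} (t : Th c) (i0 : Fin c.N) {Q : ℕ} (hQ : 2 ≤ Q) (e : ℕ) :
    ∃ (M g : ℕ) (x : ℕ → Fin c.N → k[X]) (d : ℕ → Fin c.N → Fin g → k)
      (o : Fin c.N → ℕ → LaurentSeries k),
      (∀ m i, (x m i).natDegree ≤ M) ∧ (∀ i, x 0 i = if (i : ℕ) = 0 then 1 else 0) ∧ d 0 = 0 ∧
      (∀ l, o l 0 = 1) ∧ (∀ l m, 1 ≤ m → o l m ∈ Lm k 1) ∧
      ∀ l : Fin c.N,
        (PowerSeries.mk (fun m => bel t (x m) l)) *
          (1 + PowerSeries.mk (fun m => gel (d m l))) * PowerSeries.mk (o l) =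
        (if l = i0 then 1 - PowerSeries.X * PowerSeries.C (U k) else 1) *
          (1 + PowerSeries.mk (fun m => if Q ∣ m then gel' e (d (m / Q) l) else 0)) *
          ∏ l', (1 + PowerSeries.mk (fun m => gel (d m l'))) := by
  obtain ⟨b, d, o, hb0, hd0, ho0, hb, ho, hE⟩ := fact (jv_bel t).range (jv_O k c.N)
    (jv_ga k c.N (c.a * c.N)) (jv_ga' k c.N (c.a * c.N) e) (by
      intro v
      obtain ⟨y, d, o, h1, h2⟩ := surj t v
      refine ⟨jv_bel t y, ⟨y, rfl⟩, d, o, h1, ?_⟩
      funext l
      exact h2 l) (fun l => if l = i0 then -(U k) else 0) hQ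
  -- the vectors `y m`
  have hy : ∀ m : ℕ, ∃ y : Fin c.N → k[X], (∀ l, bel t y l = b m l) ∧
      (m = 0 → ∀ i, y i = if (i : ℕ) = 0 then 1 else 0) := by
    intro m
    rcases Nat.eq_zero_or_pos m with hm | hm
    · refine ⟨fun i => if (i : ℕ) = 0 then 1 else 0, ?_, fun _ _ => rfl⟩
      intro l
      rw [jv_bel_one t i0 l, hm, hb0, Pi.one_apply]
    · obtain ⟨y, hy⟩ := hb m hm
      refine ⟨y, ?_, fun h => absurd h (by omega)⟩
      intro l
      rw [← hy, jv_bel_apply]
  choose y hy1 hy2 using hy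
  -- the identity in the factor `l`
  have hEl : ∀ l : Fin c.N,
      (if l = i0 then 1 - PowerSeries.X * PowerSeries.C (U k) else 1) *
        (1 + PowerSeries.mk (fun m => if Q ∣ m then gel' e (d (m / Q) l) else 0)) =
      PowerSeries.mk (fun m => bel t (y m) l) * (1 + PowerSeries.mk (fun m => gel (d m l))) *
        PowerSeries.mk (fun m => o m l) := by
    intro l
    have h := congrArg (PowerSeries.map (Pi.evalRingHom (fun _ : Fin c.N => LaurentSeries k) l)) hE
    rw [map_mul, map_mul, map_mul, map_add, map_add, map_add, map_one, map_mul, PowerSeries.map_X,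
      PowerSeries.map_C, jv_map_mk, jv_map_mk, jv_map_mk, jv_map_mk] at h
    have h1 : (if l = i0 then 1 - PowerSeries.X * PowerSeries.C (U k) else
        (1 : PowerSeries (LaurentSeries k))) = 1 + PowerSeries.X * PowerSeries.C
          (Pi.evalRingHom (fun _ : Fin c.N => LaurentSeries k) l
            (fun l => if l = i0 then -(U k) else 0)) := by
      rw [Pi.evalRingHom_apply]
      split_ifs
      · rw [map_neg, mul_neg, sub_eq_add_neg]
      · rw [map_zero, mul_zero, add_zero]
    have h2 : (fun m => if Q ∣ m then gel' e (d (m / Q) l) else 0) = fun m =>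
        Pi.evalRingHom (fun _ : Fin c.N => LaurentSeries k) l
          (if Q ∣ m then jv_ga' k c.N (c.a * c.N) e (d (m / Q)) else 0) := by
      funext m
      rw [Pi.evalRingHom_apply]
      split_ifs
      · rfl
      · rfl
    have h3 : (fun m => bel t (y m) l) = fun m =>
        Pi.evalRingHom (fun _ : Fin c.N => LaurentSeries k) l (b m) := by
      funext m
      exact hy1 m l
    rw [h1, h2, h3]
    exact h
  -- the product
  obtain ⟨P, hP⟩ : ∃ P : PowerSeries k[X],
      P = ∏ l', (1 + PowerSeries.mk (fun m => jv_gp (d m l'))) := ⟨_, rfl⟩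
  have hP0 : PowerSeries.coeff 0 P = 1 := by
    rw [PowerSeries.coeff_zero_eq_constantCoeff_apply, hP, map_prod]
    refine Finset.prod_eq_one (fun l' _ => ?_)
    rw [map_add, map_one, ← PowerSeries.coeff_zero_eq_constantCoeff_apply, PowerSeries.coeff_mk,
      hd0, Pi.zero_apply, jv_gp_zero, add_zero]
  have hPm : PowerSeries.map (jv_pu k) P =
      ∏ l', (1 + PowerSeries.mk (fun m => gel (d m l'))) := by
    rw [hP, map_prod]
    refine Finset.prod_congr rfl (fun l' _ => ?_)
    rw [map_add, map_one, jv_map_mk]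
    have h : (fun n => jv_pu k (jv_gp (d n l'))) = fun m => gel (d m l') := by
      funext m
      exact jv_gp_pu _
    rw [h]
  obtain ⟨x, hx⟩ : ∃ x : ℕ → Fin c.N → k[X], x = fun m =>
      ∑ p ∈ Finset.HasAntidiagonal.antidiagonal m, fun i => PowerSeries.coeff p.2 P * y p.1 i := ⟨_, rfl⟩
  have hxb : ∀ l, PowerSeries.mk (fun m => bel t (x m) l) =
      PowerSeries.mk (fun m => bel t (y m) l) * PowerSeries.map (jv_pu k) P := by
    intro l
    ext m
    rw [PowerSeries.coeff_mk, PowerSeries.coeff_mul, ← jv_bel_apply, hx, map_sum,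
      Finset.sum_apply]
    refine congrArg (fun z : LaurentSeries k => HahnSeries.coeff z _) ?_
    refine Finset.sum_congr rfl (fun p _ => ?_)
    rw [jv_bel_apply, ← bel_mul, PowerSeries.coeff_mk, PowerSeries.coeff_map, jv_pu_apply, mul_comm]
  have hx0 : ∀ i, x 0 i = if (i : ℕ) = 0 then 1 else 0 := by
    intro i
    rw [hx]
    show (∑ p ∈ Finset.HasAntidiagonal.antidiagonal 0, fun i => PowerSeries.coeff p.2 P * y p.1 i) i = _
    rw [Finset.Nat.antidiagonal_zero, Finset.sum_singleton, hP0, one_mul, hy2 0 rfl i]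
  have hmain : ∀ l : Fin c.N,
      (PowerSeries.mk (fun m => bel t (x m) l)) *
        (1 + PowerSeries.mk (fun m => gel (d m l))) * PowerSeries.mk (fun m => o m l) =
      (if l = i0 then 1 - PowerSeries.X * PowerSeries.C (U k) else 1) *
        (1 + PowerSeries.mk (fun m => if Q ∣ m then gel' e (d (m / Q) l) else 0)) *
        ∏ l', (1 + PowerSeries.mk (fun m => gel (d m l'))) := by
    intro l
    rw [hEl l, hxb l, hPm]
    ring
  refine ⟨1 + (c.a * c.N * e + c.a * c.N * c.N), c.a * c.N, x, d, fun l m => o m l, ?_, hx0, hd0,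
    ?_, ?_, hmain⟩
  · intro m i
    refine bel_bound t _ (x m) ?_ i
    intro l
    obtain ⟨Γ, hΓ⟩ : ∃ Γ : Fin c.N → PowerSeries (LaurentSeries k),
        Γ = fun l => 1 + PowerSeries.mk (fun m => gel (d m l)) := ⟨_, rfl⟩
    have hΓ0 : Γ l ≠ 0 := by
      intro h
      have h1 := congrArg (PowerSeries.coeff 0) h
      rw [hΓ] at h1
      rw [map_add, PowerSeries.coeff_mk, hd0, Pi.zero_apply, jv_gel_zero, add_zero,
        PowerSeries.coeff_zero_one, map_zero] at h1
      exact one_ne_zero h1
    have h1 : PowerSeries.mk (fun m => bel t (x m) l) * Γ l * PowerSeries.mk (fun m => o m l) =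
        (if l = i0 then 1 - PowerSeries.X * PowerSeries.C (U k) else 1) *
          (1 + PowerSeries.mk (fun m => if Q ∣ m then gel' e (d (m / Q) l) else 0)) *
          ∏ l', Γ l' := by
      rw [hΓ]
      exact hmain l
    rw [← Finset.mul_prod_erase Finset.univ Γ (Finset.mem_univ l)] at h1
    have h2 : PowerSeries.mk (fun m => bel t (x m) l) * PowerSeries.mk (fun m => o m l) =
        (if l = i0 then 1 - PowerSeries.X * PowerSeries.C (U k) else 1) *
          (1 + PowerSeries.mk (fun m => if Q ∣ m then gel' e (d (m / Q) l) else 0)) *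
          ∏ l' ∈ Finset.univ.erase l, Γ l' := by
      refine mul_left_cancel₀ hΓ0 ?_
      linear_combination h1
    have h3 : ∀ i, PowerSeries.coeff i (PowerSeries.mk (fun m => o m l)) ∈ Lm k 0 := by
      intro i
      rw [PowerSeries.coeff_mk]
      rcases Nat.eq_zero_or_pos i with hi | hi
      · rw [hi, ho0, Pi.one_apply]
        exact jv_one_mem
      · exact jv_mono (by norm_num) (ho i hi l)
    have h4 : PowerSeries.coeff 0 (PowerSeries.mk (fun m => o m l)) = 1 := by
      rw [PowerSeries.coeff_mk, ho0, Pi.one_apply]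
    have h5 : ∀ i, PowerSeries.coeff i
        (if l = i0 then 1 - PowerSeries.X * PowerSeries.C (U k) else
          (1 : PowerSeries (LaurentSeries k))) ∈ Lm k (-1) := by
      intro i
      split_ifs
      · exact jv_U i
      · exact jv_mono (by norm_num) (jv_one i)
    have h6 : ∀ i, PowerSeries.coeff i
        (1 + PowerSeries.mk (fun m => if Q ∣ m then gel' e (d (m / Q) l) else 0)) ∈
          Lm k (-((c.a * c.N * e : ℕ) : ℤ)) := by
      intro i
      refine jv_onemk (neg_nonpos.mpr (Int.natCast_nonneg _)) ?_ i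
      intro n
      split_ifs
      · exact jv_gel' e _
      · exact Submodule.zero_mem _
    have h7 : ∀ i, PowerSeries.coeff i (∏ l' ∈ Finset.univ.erase l, Γ l') ∈
        Lm k (-((c.a * c.N * c.N : ℕ) : ℤ)) := by
      intro i
      have h8 := jv_prod (m := c.a * c.N) (f := Γ) (by
        intro j i
        rw [hΓ]
        refine jv_onemk (neg_nonpos.mpr (Int.natCast_nonneg _)) ?_ i
        intro n
        exact jv_gel _) (Finset.univ.erase l) i
      refine jv_mono ?_ h8
      have h9 : (Finset.univ.erase l).card ≤ c.N := by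
        refine le_trans (Finset.card_le_card (Finset.erase_subset _ _)) ?_
        rw [Finset.card_univ, Fintype.card_fin]
      have h10 : c.a * c.N * (Finset.univ.erase l).card ≤ c.a * c.N * c.N :=
        Nat.mul_le_mul_left _ h9
      have h11 : ((c.a * c.N * (Finset.univ.erase l).card : ℕ) : ℤ) ≤
          ((c.a * c.N * c.N : ℕ) : ℤ) := by exact_mod_cast h10
      linarith
    have h8 := jv_div h2 h4 h3 (jv_mul (jv_mul h5 h6) h7) m
    rw [PowerSeries.coeff_mk] at h8
    refine jv_mono ?_ h8
    push_cast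
    linarith
  · intro l
    show o 0 l = 1
    rw [ho0, Pi.one_apply]
  · intro l m hm
    exact ho m hm l

end TGJ
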