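import Pool.Agent.TGJ.Exp
import Pool.Agent.TGJ.GG

set_option autoImplicit false

/-!
# TGJ-22: the order of `G` at the points with `|β| < 1`

Let `E`, `τ` be as in `OrdAt`.  `exp_ps` gives `g`; `G.eval₂ τ (E θ) = τ(b)⁻¹ H.eval₂ τ (E θ)`;
`tau_h`, `near` for `H`, `tau_poly`, `order_comp` for `b` (`rootMultiplicity` of a product,
`bO_ne`), `order_ofPS`, `HahnSeries.order_mul`, `order_inv`.  `β ≠ 0` by `hy.tr` (`P = X`).
-/

noncomputable section

open Polynomial PowerSeries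
open scoped Classical

namespace TGJ

open TGF

universe u v

variable {k0 L Ω : Type u} [Field k0] [Field L] [Field Ω]

private theorem ordn_prod {ι : Type} (f : ι → Polynomial Ω) (b : Ω) (s : Finset ι)
    (h : ∏ l ∈ s, f l ≠ 0) :
    rootMultiplicity b (∏ l ∈ s, f l) = ∑ l ∈ s, rootMultiplicity b (f l) := by
  induction s using Finset.induction_on with
  | empty =>
    rw [Finset.prod_empty, Finset.sum_empty]
    exact Polynomial.rootMultiplicity_eq_zero (by simp)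
  | insert a s ha ih =>
    rw [Finset.prod_insert ha] at h ⊢
    rw [Finset.sum_insert ha, Polynomial.rootMultiplicity_mul h, ih (right_ne_zero_of_mul h)]

theorem ord_near [Finite k0] [IsAlgClosed Ω] {p0 : SRG.Pl (RatFunc k0) L} {c : Cv k0}
    (hc : c.F.map (algebraMap k0[X] (RatFunc k0)) = p0.P) {t : Th c} {i0 : Fin c.N} {n : ℕ}
    (hn : 2 ≤ n) (J : JAlg c t i0 (Nat.card k0 ^ (n - 1)) (Nat.card k0 ^ n)) (w : Om k0 Ω)
    {y : L →+* Ω} (hy : Pnt p0 w.i y) (hs : w.sm (y (cT p0))) {l : Fin c.N}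
    (hl : w.sm (y (th p0) - w.i (c.η l))) :
    OrdAt p0 w.i (GO w c.N J.M c.a J.ρ J.γ) y
      ((if l = i0 ∧ y (cT p0) = w.j PowerSeries.X then 1 else 0) +
        (Nat.card k0 : ℤ) ^ n *
          rootMultiplicity (y (cT p0) ^ Nat.card k0) ((gpol (J.γ l)).map w.j) -
        rootMultiplicity (y (cT p0)) ((gpol (J.γ l)).map w.j)) := by
  intro E τ hE hτ
  obtain ⟨g, hgE, hgc, hgr⟩ := exp_ps hc hE
  have hβ0 : y (cT p0) ≠ 0 := by
    have h := hy.tr Polynomial.X Polynomial.X_ne_zero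
    rwa [Polynomial.eval₂_X] at h
  have hl' : w.sm (PowerSeries.constantCoeff g - w.i (c.η l)) := by
    rw [hgc]
    exact hl
  obtain ⟨h1, h2⟩ := near hn J w hs hβ0 l hgr hl'
  have hb := bO_ne w J.γ J.hγ
  have h3 := tau_poly hτ (bO w J.γ)
  have h5 := order_ofPS (order_comp hb (y (cT p0)))
  rw [← h3] at h5
  obtain ⟨e, he⟩ : ∃ e : ℕ, PowerSeries.order
      (evh w (y (cT p0)) (hpol c.N J.M c.a J.ρ) g) = (e : ℕ∞) := by
    have h6 : PowerSeries.order (evh w (y (cT p0)) (hpol c.N J.M c.a J.ρ) g) ≠ ⊤ := by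
      rw [Ne, PowerSeries.order_eq_top]
      exact h1
    obtain ⟨e, he⟩ := ENat.ne_top_iff_exists.1 h6
    exact ⟨e, he.symm⟩
  obtain ⟨h7, h8⟩ := order_ofPS he
  rw [he] at h2
  have h2' : e + rootMultiplicity (y (cT p0)) ((gpol (J.γ l)).map w.j) =
      (if l = i0 ∧ y (cT p0) = w.j PowerSeries.X then 1 else 0) +
        (∑ l', rootMultiplicity (y (cT p0)) ((gpol (J.γ l')).map w.j)) +
        Nat.card k0 ^ n *
          rootMultiplicity (y (cT p0) ^ Nat.card k0) ((gpol (J.γ l)).map w.j) := by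
    exact_mod_cast h2
  have h9 : rootMultiplicity (y (cT p0)) (bO w J.γ) =
      ∑ l', rootMultiplicity (y (cT p0)) ((gpol (J.γ l')).map w.j) :=
    ordn_prod _ _ _ hb
  have hev : (τ (algebraMap (Polynomial Ω) (RatFunc Ω) (bO w J.γ))) *
      (GO w c.N J.M c.a J.ρ J.γ).eval₂ τ (E (th p0)) =
      HahnSeries.ofPowerSeries ℤ Ω (evh w (y (cT p0)) (hpol c.N J.M c.a J.ρ) g) := by
    unfold GO
    rw [Polynomial.eval₂_mul, Polynomial.eval₂_C, map_inv₀, ← hgE, tau_h w hτ, ← mul_assoc,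
      mul_inv_cancel₀ h5.1, one_mul]
  have h10 : (GO w c.N J.M c.a J.ρ J.γ).eval₂ τ (E (th p0)) ≠ 0 := by
    intro h
    rw [h, mul_zero] at hev
    exact h7 hev.symm
  refine ⟨h10, ?_⟩
  have h11 := congrArg HahnSeries.order hev
  rw [HahnSeries.order_mul h5.1 h10, h5.2, h8, h9] at h11
  have h12 : (e : ℤ) + (rootMultiplicity (y (cT p0)) ((gpol (J.γ l)).map w.j) : ℕ) =
      (if l = i0 ∧ y (cT p0) = w.j PowerSeries.X then 1 else 0) +
        ((∑ l', rootMultiplicity (y (cT p0)) ((gpol (J.γ l')).map w.j) : ℕ) : ℤ) +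
        (Nat.card k0 : ℤ) ^ n *
          (rootMultiplicity (y (cT p0) ^ Nat.card k0) ((gpol (J.γ l)).map w.j) : ℕ) := by
    exact_mod_cast h2'
  linarith

end TGJ
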