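import Pool.Agent.TGJ.Defs
import Pool.Agent.TGF.JD

set_option autoImplicit false

/-!
# TGJ-18: the points of the curve

A nonconstant point of `L` over `i` is a ring homomorphism `y` from `L`; composed with the
surjection `p0.r` it is determined by its values on constants, `T` and `θ`, and it exists for any
transcendental value of `T` and any root of the specialised polynomial.
-/

noncomputable section

open Polynomial PowerSeries
open scoped Classical

namespace TGJ

open TGF

universe u v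

variable {k0 L Ω : Type u} [Field k0] [Field L] [Field Ω]

private theorem pts_eval {K Ω : Type u} [Field K] [Field Ω] (φ : Polynomial K →+* Ω)
    (A : Polynomial K) : φ A = A.eval₂ (φ.comp Polynomial.C) (φ Polynomial.X) := by
  have h : φ = eval₂RingHom (φ.comp Polynomial.C) (φ Polynomial.X) :=
    Polynomial.ringHom_ext (by simp) (by simp)
  exact congrArg (fun f : Polynomial K →+* Ω => f A) h

private theorem pts_rat {k0 Ω : Type u} [Field k0] [Field Ω] {f g : RatFunc k0 →+* Ω}
    (h1 : ∀ x, f (RatFunc.C x) = g (RatFunc.C x)) (h2 : f RatFunc.X = g RatFunc.X) : f = g := by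
  refine IsLocalization.ringHom_ext (nonZeroDivisors (Polynomial k0)) ?_
  refine Polynomial.ringHom_ext (fun a => ?_) ?_
  · show f (algebraMap (Polynomial k0) (RatFunc k0) (Polynomial.C a)) =
      g (algebraMap (Polynomial k0) (RatFunc k0) (Polynomial.C a))
    rw [RatFunc.algebraMap_C]
    exact h1 a
  · show f (algebraMap (Polynomial k0) (RatFunc k0) Polynomial.X) =
      g (algebraMap (Polynomial k0) (RatFunc k0) Polynomial.X)
    rw [RatFunc.algebraMap_X]
    exact h2

private theorem pts_at (c : Cv k0) (i : k0 →+* Ω) (β ρ : Ω) :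
    (c.at i β).eval ρ = c.F.eval₂ (eval₂RingHom i β) ρ := by
  unfold Cv.at
  rw [eval_map]

theorem exists_cv {p0 : SRG.Pl (RatFunc k0) L} (h : Spl p0) :
    ∃ c : Cv k0, c.F.map (algebraMap k0[X] (RatFunc k0)) = p0.P := by
  obtain ⟨F, N, η, h1, h2, h3, h4⟩ := h
  exact ⟨⟨N, F, η, h1, h2, h4⟩, h3⟩

theorem pnt_root {p0 : SRG.Pl (RatFunc k0) L} {c : Cv k0}
    (hc : c.F.map (algebraMap k0[X] (RatFunc k0)) = p0.P) {i : k0 →+* Ω} {y : L →+* Ω}
    (hy : Pnt p0 i y) : (c.at i (y (cT p0))).eval (y (th p0)) = 0 := by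
  have h1 : (y.comp p0.r) p0.P = 0 := by
    show y (p0.r p0.P) = 0
    rw [(p0.ker p0.P).2 dvd_rfl, map_zero]
  rw [pts_eval, ← hc, eval₂_map] at h1
  rw [pts_at]
  have h2 : eval₂RingHom i (y (cT p0)) = ((y.comp p0.r).comp Polynomial.C).comp
      (algebraMap (Polynomial k0) (RatFunc k0)) := by
    refine Polynomial.ringHom_ext (fun a => ?_) ?_
    · show (Polynomial.C a).eval₂ i (y (cT p0)) =
        y (p0.r (Polynomial.C (algebraMap (Polynomial k0) (RatFunc k0) (Polynomial.C a))))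
      rw [Polynomial.eval₂_C, RatFunc.algebraMap_C]
      exact (hy.ov a).symm
    · show Polynomial.X.eval₂ i (y (cT p0)) =
        y (p0.r (Polynomial.C (algebraMap (Polynomial k0) (RatFunc k0) Polynomial.X)))
      rw [Polynomial.eval₂_X, RatFunc.algebraMap_X]
      rfl
  rw [h2]
  exact h1

theorem pnt_ext {p0 : SRG.Pl (RatFunc k0) L} {y y' : L →+* Ω}
    (hC : ∀ x, y (cC p0 x) = y' (cC p0 x)) (hT : y (cT p0) = y' (cT p0))
    (hth : y (th p0) = y' (th p0)) : y = y' := by
  have h1 : y.comp p0.r = y'.comp p0.r := by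
    refine Polynomial.ringHom_ext' (pts_rat (fun x => ?_) ?_) ?_
    · exact hC x
    · exact hT
    · exact hth
  ext x
  obtain ⟨A, rfl⟩ := p0.surj x
  exact congrArg (fun f : Polynomial (RatFunc k0) →+* Ω => f A) h1

theorem pnt_exists {p0 : SRG.Pl (RatFunc k0) L} {c : Cv k0}
    (hc : c.F.map (algebraMap k0[X] (RatFunc k0)) = p0.P) (i : k0 →+* Ω) {β ρ : Ω}
    (tr : ∀ P : k0[X], P ≠ 0 → P.eval₂ i β ≠ 0) (hρ : (c.at i β).eval ρ = 0) :
    ∃ y : L →+* Ω, Pnt p0 i y ∧ y (cT p0) = β ∧ y (th p0) = ρ := by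
  have hg : ∀ P : nonZeroDivisors (Polynomial k0), IsUnit (eval₂RingHom i β P) := fun P =>
    isUnit_iff_ne_zero.2 (tr P (nonZeroDivisors.ne_zero P.2))
  let ψ : RatFunc k0 →+* Ω := IsLocalization.lift (M := nonZeroDivisors (Polynomial k0)) hg
  have hψ : ψ.comp (algebraMap (Polynomial k0) (RatFunc k0)) = eval₂RingHom i β :=
    IsLocalization.lift_comp hg
  have hψC : ∀ x, ψ (RatFunc.C x) = i x := by
    intro x
    have h := congrArg (fun f : Polynomial k0 →+* Ω => f (Polynomial.C x)) hψ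
    simp only [RingHom.comp_apply, RatFunc.algebraMap_C, coe_eval₂RingHom, Polynomial.eval₂_C] at h
    exact h
  have hψX : ψ RatFunc.X = β := by
    have h := congrArg (fun f : Polynomial k0 →+* Ω => f Polynomial.X) hψ
    simp only [RingHom.comp_apply, RatFunc.algebraMap_X, coe_eval₂RingHom, Polynomial.eval₂_X] at h
    exact h
  let φ : Polynomial (RatFunc k0) →+* Ω := eval₂RingHom ψ ρ
  have hφ : φ p0.P = 0 := by
    show p0.P.eval₂ ψ ρ = 0
    rw [← hc, eval₂_map, hψ, ← pts_at]
    exact hρ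
  have hk : RingHom.ker p0.r ≤ RingHom.ker φ := by
    intro A hA
    obtain ⟨B, rfl⟩ := (p0.ker A).1 hA
    show φ (p0.P * B) = 0
    rw [map_mul, hφ, zero_mul]
  let y : L →+* Ω := RingHom.liftOfSurjective p0.r p0.surj ⟨φ, hk⟩
  have hy : ∀ A, y (p0.r A) = φ A := fun A =>
    RingHom.liftOfRightInverse_comp_apply p0.r _ (Function.rightInverse_surjInv p0.surj) ⟨φ, hk⟩ A
  have hT : y (cT p0) = β := by
    show y (p0.r (Polynomial.C RatFunc.X)) = β
    rw [hy]
    show (Polynomial.C RatFunc.X).eval₂ ψ ρ = β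
    rw [Polynomial.eval₂_C, hψX]
  refine ⟨y, ⟨fun x => ?_, fun P hP => ?_⟩, hT, ?_⟩
  · show y (p0.r (Polynomial.C (RatFunc.C x))) = i x
    rw [hy]
    show (Polynomial.C (RatFunc.C x)).eval₂ ψ ρ = i x
    rw [Polynomial.eval₂_C, hψC]
  · rw [hT]
    exact tr P hP
  · show y (p0.r Polynomial.X) = ρ
    rw [hy]
    show Polynomial.X.eval₂ ψ ρ = ρ
    rw [Polynomial.eval₂_X]

end TGJ
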