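import Pool.Agent.TGJ.Root
import Pool.Agent.TGJ.Eva

set_option autoImplicit false

/-!
# TGJ-13: the branches at `(β, ρ)`

`ser`: the polynomial `F(β + ε, Y)` over `Ω[[ε]]`.  `ser_unique`: roots with the same simple constant
coefficient are equal (Taylor expansion to the first order).  `ev_theta`: the image of `θ_l` is such a
root.
-/

noncomputable section

open Polynomial PowerSeries
open scoped Classical

namespace TGJ

universe u v

variable {k : Type u} [Field k] {Ω : Type v} [Field Ω]

/-- The polynomial `F(β + ε, Y)`. -/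
def Cv.ser (c : Cv k) (i : k →+* Ω) (β : Ω) : Polynomial (PowerSeries Ω) :=
  c.F.map (eval₂RingHom ((PowerSeries.C : Ω →+* PowerSeries Ω).comp i)
    (PowerSeries.C β + PowerSeries.X))

theorem ser_cc (c : Cv k) (i : k →+* Ω) (β : Ω) :
    (c.ser i β).map (PowerSeries.constantCoeff) = c.at i β := by
  unfold Cv.ser Cv.at
  rw [Polynomial.map_map]
  congr 1
  refine Polynomial.ringHom_ext (fun a => ?_) ?_
  · rw [RingHom.comp_apply, Polynomial.coe_eval₂RingHom, Polynomial.coe_eval₂RingHom,
      Polynomial.eval₂_C, Polynomial.eval₂_C, RingHom.comp_apply, PowerSeries.constantCoeff_C]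
  · rw [RingHom.comp_apply, Polynomial.coe_eval₂RingHom, Polynomial.coe_eval₂RingHom,
      Polynomial.eval₂_X, Polynomial.eval₂_X, map_add, PowerSeries.constantCoeff_C,
      PowerSeries.constantCoeff_X, add_zero]

theorem ser_unique (c : Cv k) (i : k →+* Ω) (β : Ω) {g g' : PowerSeries Ω}
    (h : (c.ser i β).eval g = 0) (h' : (c.ser i β).eval g' = 0)
    (hc : PowerSeries.constantCoeff g = PowerSeries.constantCoeff g')
    (hd : (c.at i β).derivative.eval (PowerSeries.constantCoeff g) ≠ 0) : g = g' := by
  obtain ⟨q, hq⟩ := Polynomial.binomExpansion (c.ser i β) g (g' - g)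
  rw [add_sub_cancel, h, h', zero_add] at hq
  have h1 : (g' - g) * ((c.ser i β).derivative.eval g + q * (g' - g)) = 0 := by
    rw [hq]
    ring
  have h2 : PowerSeries.constantCoeff ((c.ser i β).derivative.eval g) =
      (c.at i β).derivative.eval (PowerSeries.constantCoeff g) := by
    rw [← ser_cc, Polynomial.derivative_map, Polynomial.eval_map, Polynomial.eval₂_at_apply]
  rcases mul_eq_zero.1 h1 with h3 | h3
  · exact (sub_eq_zero.1 h3).symm
  · exfalso
    apply hd
    have h4 := congrArg PowerSeries.constantCoeff h3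
    rw [map_add, map_mul, map_sub, hc, sub_self, mul_zero, add_zero, map_zero, h2] at h4
    exact h4

theorem ev_theta {c : Cv k} (t : Th c) {w : Om k Ω} {β : Ω} (hβ : w.sm β) (E : Ev w β)
    (l : Fin c.N) :
    (c.ser w.i β).eval (E.ev (PowerSeries.map PowerSeries.C (t.θ l))) = 0 ∧
      w.sm (PowerSeries.constantCoeff (E.ev (PowerSeries.map PowerSeries.C (t.θ l))) -
        w.i (c.η l)) := by
  have hC : ∀ a : k, E.ev (PowerSeries.map PowerSeries.C (PowerSeries.C a)) =
      PowerSeries.C (w.i a) := by
    intro a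
    rw [PowerSeries.map_C, E.hC]
    rfl
  have hX : E.ev (PowerSeries.map (PowerSeries.C : k →+* k⟦X⟧) PowerSeries.X) =
      PowerSeries.C β + PowerSeries.X := by
    rw [PowerSeries.map_X, E.hX]
  constructor
  · have h1 : (E.ev.comp (PowerSeries.map (PowerSeries.C : k →+* k⟦X⟧))).comp
        Polynomial.coeToPowerSeries.ringHom =
        eval₂RingHom ((PowerSeries.C : Ω →+* PowerSeries Ω).comp w.i)
          (PowerSeries.C β + PowerSeries.X) := by
      refine Polynomial.ringHom_ext (fun a => ?_) ?_
      · rw [RingHom.comp_apply, RingHom.comp_apply, Polynomial.coeToPowerSeries.ringHom_apply,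
          Polynomial.coe_C, hC, Polynomial.coe_eval₂RingHom, Polynomial.eval₂_C,
          RingHom.comp_apply]
      · rw [RingHom.comp_apply, RingHom.comp_apply, Polynomial.coeToPowerSeries.ringHom_apply,
          Polynomial.coe_X, hX, Polynomial.coe_eval₂RingHom, Polynomial.eval₂_X]
    have h2 := congrArg (E.ev.comp (PowerSeries.map (PowerSeries.C : k →+* k⟦X⟧))) (t.root l)
    rw [map_zero, ← Polynomial.eval₂_at_apply, ← Polynomial.eval_map, Polynomial.map_map, h1,
      RingHom.comp_apply] at h2
    exact h2
  · have h1 : (PowerSeries.X : k⟦X⟧) ∣ t.θ l - PowerSeries.C (c.η l) := by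
      rw [PowerSeries.X_dvd_iff, map_sub, t.cc, PowerSeries.constantCoeff_C, sub_self]
    obtain ⟨r, hr⟩ := h1
    have h2 : t.θ l = PowerSeries.C (c.η l) + PowerSeries.X * r := by
      rw [← hr]
      ring
    rw [h2, map_add, map_add, hC, map_mul, map_mul, hX, map_add, map_mul, map_add,
      PowerSeries.constantCoeff_C, PowerSeries.constantCoeff_C, PowerSeries.constantCoeff_X,
      add_zero, add_sub_cancel_left]
    exact w.sm_mul hβ ((ValuationSubring.valuation_le_one_iff _ _).2 (E.hA _))

end TGJ
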