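import Pool.Agent.TGJ.Vdm

set_option autoImplicit false

/-!
# TGJ-3: `V = B + Gap + O`

By `vdm`, `v l = ∑ x_i θ_l^i`.  Write `x_i = p_i + z_i`, `p_i` the part of `x_i` with exponents
`≤ - a i`, `z_i` the rest, so `z_i ∈ Lm (1 - a i)`.  `p_i = pu (y_i) U^(a i)` with a polynomial `y_i`,
and
`p_i θ_l^i = pu (y_i) (U^a θ_l)^i`, so the `p`-part is `bel t y l`.  The components
`∑ z_i θ_l^i` are in `Lm (1 - a (N - 1))` (if `N ≥ 1`; for `N = 0` there is nothing to prove), and
an element of it is `gel (c l)` (exponents from `-(a N - 1)` to `0`; if `a = 0` it is already in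
`Lm 1`) plus an element of `Lm 1`.
-/

noncomputable section

open Polynomial PowerSeries
open scoped Classical

namespace TGJ

universe u v

variable {k : Type u} [Field k]

private theorem surj_U (n : ℕ) : U k ^ n = HahnSeries.single (-(n : ℤ)) (1 : k) := by
  unfold U
  rw [HahnSeries.single_pow, one_pow, nsmul_eq_mul, mul_neg_one]

private theorem surj_coeff_pu (x : k[X]) (j : ℕ) : (pu x).coeff (-j) = x.coeff j := by
  unfold pu
  induction x using Polynomial.induction_on' with
  | add p q hp hq =>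
    rw [map_add, HahnSeries.coeff_add, hp, hq, Polynomial.coeff_add]
  | monomial n a =>
    rw [Polynomial.aeval_monomial, LaurentSeries.algebraMap_apply, surj_U, HahnSeries.C_apply,
      HahnSeries.single_mul_single, zero_add, mul_one, Polynomial.coeff_monomial]
    by_cases h : n = j
    · rw [if_pos h, h, HahnSeries.coeff_single_same]
    · rw [if_neg h, HahnSeries.coeff_single_of_ne]
      intro h1
      exact h (by exact_mod_cast (neg_inj.1 h1).symm)

private theorem surj_pow (x : k[X]) (m : ℕ) : pu x * U k ^ m = pu (x * Polynomial.X ^ m) := by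
  unfold pu
  rw [map_mul, map_pow, Polynomial.aeval_X]

/-- a lower bound for the support -/
private theorem surj_bound (x : LaurentSeries k) : ∃ M : ℕ, ∀ n : ℤ, n < -M → x.coeff n = 0 := by
  by_cases hx : x = 0
  · exact ⟨0, fun n _ => by rw [hx]; rfl⟩
  · refine ⟨(HahnSeries.order x).natAbs, fun n hn => ?_⟩
    apply HahnSeries.coeff_eq_zero_of_lt_order
    omega

/-- the part of `x` with exponents at most `-m` -/
private theorem surj_split (x : LaurentSeries k) (m : ℕ) :
    ∃ y : k[X], x - pu y * U k ^ m ∈ Lm k (1 - m) := by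
  obtain ⟨M, hM⟩ := surj_bound x
  refine ⟨∑ n ∈ Finset.range (M + 1), Polynomial.C (x.coeff (-((n + m : ℕ) : ℤ))) *
    Polynomial.X ^ n, fun j hj => ?_⟩
  obtain ⟨n, hn⟩ := Int.eq_ofNat_of_zero_le (show (0 : ℤ) ≤ -j by omega)
  have hj' : j = -(n : ℤ) := by omega
  have hmn : m ≤ n := by omega
  rw [surj_pow, HahnSeries.coeff_sub, hj', surj_coeff_pu, Polynomial.coeff_mul_X_pow', if_pos hmn,
    Polynomial.finsetSum_coeff]
  simp only [Polynomial.coeff_C_mul_X_pow]
  rw [Finset.sum_ite_eq]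
  by_cases h : n - m ∈ Finset.range (M + 1)
  · rw [if_pos h, Nat.sub_add_cancel hmn, sub_self]
  · rw [if_neg h, sub_zero]
    apply hM
    rw [Finset.mem_range] at h
    omega

private theorem surj_gel {g : ℕ} (z : LaurentSeries k) (hz : z ∈ Lm k (1 - g)) :
    ∃ d : Fin g → k, z - gel d ∈ Lm k 1 := by
  refine ⟨fun m => z.coeff (-((m : ℕ) : ℤ)), fun j hj => ?_⟩
  obtain ⟨n, hn⟩ := Int.eq_ofNat_of_zero_le (show (0 : ℤ) ≤ -j by omega)
  have hj' : j = -(n : ℤ) := by omega
  have h1 : gel (fun m : Fin g => z.coeff (-((m : ℕ) : ℤ))) =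
      pu (∑ m : Fin g, Polynomial.C (z.coeff (-((m : ℕ) : ℤ))) * Polynomial.X ^ (m : ℕ)) := by
    unfold gel pu
    rw [map_sum]
    refine Finset.sum_congr rfl fun m _ => ?_
    rw [map_mul, map_pow, Polynomial.aeval_X, Polynomial.aeval_C, LaurentSeries.algebraMap_apply,
      HahnSeries.C_mul_eq_smul]
  rw [h1, HahnSeries.coeff_sub, hj', surj_coeff_pu, Polynomial.finsetSum_coeff]
  simp only [Polynomial.coeff_C_mul_X_pow]
  by_cases h : n < g
  · rw [Finset.sum_eq_single (⟨n, h⟩ : Fin g)]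
    · rw [if_pos rfl, sub_self]
    · intro b _ hb
      rw [if_neg]
      intro h2
      exact hb (Fin.ext h2.symm)
    · intro h2
      exact absurd (Finset.mem_univ _) h2
  · rw [Finset.sum_eq_zero, sub_zero]
    · apply hz
      omega
    · intro b _
      rw [if_neg]
      intro h2
      exact h (h2 ▸ b.2)

theorem surj {c : Cv k} (t : Th c) (v : Fin c.N → LaurentSeries k) :
    ∃ (y : Fin c.N → k[X]) (d : Fin c.N → Fin (c.a * c.N) → k) (o : Fin c.N → LaurentSeries k),
      (∀ l, o l ∈ Lm k 1) ∧ ∀ l, v l = bel t y l + gel (d l) + o l := by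
  obtain ⟨x, hx⟩ := vdm t v
  choose y hy using fun i : Fin c.N => surj_split (x i) (c.a * (i : ℕ))
  have h1 : ∀ l, v l = bel t y l + ∑ i : Fin c.N, (x i - pu (y i) * U k ^ (c.a * (i : ℕ))) *
      (HahnSeries.ofPowerSeries ℤ k (t.θ l)) ^ (i : ℕ) := by
    intro l
    rw [hx l]
    unfold bel
    rw [← Finset.sum_add_distrib]
    refine Finset.sum_congr rfl fun i _ => ?_
    rw [mul_pow, ← pow_mul, sub_mul]
    ring
  have h2 : ∀ l, ∑ i : Fin c.N, (x i - pu (y i) * U k ^ (c.a * (i : ℕ))) *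
      (HahnSeries.ofPowerSeries ℤ k (t.θ l)) ^ (i : ℕ) ∈ Lm k (1 - ((c.a * c.N : ℕ) : ℤ)) := by
    intro l
    refine Submodule.sum_mem _ fun i _ => ?_
    have h3 : (x i - pu (y i) * U k ^ (c.a * (i : ℕ))) ∈ Lm k (1 - ((c.a * c.N : ℕ) : ℤ)) := by
      intro n hn
      apply hy i
      have h4 : c.a * (i : ℕ) ≤ c.a * c.N := Nat.mul_le_mul_left _ i.2.le
      have h5 : ((c.a * (i : ℕ) : ℕ) : ℤ) ≤ ((c.a * c.N : ℕ) : ℤ) := by exact_mod_cast h4
      linarith
    have h4 : (HahnSeries.ofPowerSeries ℤ k (t.θ l)) ^ (i : ℕ) ∈ Lm k 0 := by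
      rw [← map_pow]
      exact ofPS_mem _
    have h5 := Lm_mul h3 h4
    rwa [add_zero] at h5
  choose d hd using fun l : Fin c.N => surj_gel _ (h2 l)
  exact ⟨y, d, _, hd, fun l => by rw [h1 l]; ring⟩

end TGJ
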