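import Pool.Agent.TGJ.Defs

set_option autoImplicit false

/-!
# TGJ-9: the field `Ω` and its valuation

`exists_om`: `Ω = AlgebraicClosure (FractionRing k⟦X⟧)`; the image of the local ring `k[[s]]` is
dominated by a valuation subring of `Ω` (`LocalSubring.exists_le_valuationSubring` or similar, or Zorn).
`mono_one`, `int`: a root of a monic polynomial over `A` is in `A` (valuation: if `v x > 1` then
`x^n` dominates).
`sm_tr`: an element `x ≠ 0` algebraic over `i k` with `k` finite is a root of unity, so its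
valuation is `1`.
`dist`: `x` small.  Take `P ≠ 0` over `k[[s]]` with `P(x) = 0`; dividing by a power of `s`
we may assume that `P` modulo `s` is not `0`.  By the Weierstrass preparation theorem
(`PowerSeries.exists_isWeierstrassFactorization` for `A = k⟦X⟧`; its maximal ideal is the span of
`X`, and `IsAdicComplete (Ideal.span {X}) k⟦X⟧` is an instance) `P = D h` with `D` distinguished and
`h` a unit in `k[[s]][[T]]`; `h` is a polynomial (divide `P` by the monic `D` and use the uniqueness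
of Weierstrass division), with `h(0)` a unit of `k[[s]]`; `h(x)` is `h(0)` plus a small element, so
`h(x) ≠ 0` and `D(x) = 0`.
-/

noncomputable section

open Polynomial PowerSeries
open scoped Classical

namespace TGJ

universe u v

variable {k : Type u} [Field k] {Ω : Type v} [Field Ω]

/-- the local ring is dominated by a valuation subring -/
private theorem val_dom {k : Type u} [Field k] {Ω : Type v} [Field Ω] (j : k⟦X⟧ →+* Ω)
    (hj : Function.Injective j) : ∃ B : ValuationSubring Ω, (∀ r, j r ∈ B) ∧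
      B.valuation (j PowerSeries.X) < 1 := by
  have hne : Ideal.span {(⟨j PowerSeries.X, ⟨_, rfl⟩⟩ : j.range)} ≠ ⊤ := by
    intro h
    rw [Ideal.span_singleton_eq_top] at h
    obtain ⟨⟨b, ⟨c, hc⟩⟩, hb⟩ := isUnit_iff_exists_inv.1 h
    have h1 : j PowerSeries.X * b = 1 := congrArg Subtype.val hb
    rw [← hc, ← map_mul, ← map_one j] at h1
    have h2 := hj h1
    have h3 : IsUnit (PowerSeries.X : k⟦X⟧) := IsUnit.of_mul_eq_one _ h2
    exact PowerSeries.X_prime.not_isUnit h3
  obtain ⟨B, hB1, hB2⟩ := Ideal.image_subset_nonunits_valuationSubring _ hne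
  refine ⟨B, fun r => hB1 ⟨r, rfl⟩, ?_⟩
  have h4 : j PowerSeries.X ∈ B.nonunits :=
    hB2 ⟨⟨j PowerSeries.X, ⟨_, rfl⟩⟩, Ideal.subset_span rfl, rfl⟩
  exact (ValuationSubring.mem_nonunits_iff B).1 h4

theorem exists_om (k : Type u) [Field k] : ∃ (Ω : Type u) (_ : Field Ω) (_ : IsAlgClosed Ω),
    Nonempty (Om k Ω) := by
  have hinj : Function.Injective ((algebraMap (FractionRing k⟦X⟧)
      (AlgebraicClosure (FractionRing k⟦X⟧))).comp (algebraMap k⟦X⟧ (FractionRing k⟦X⟧))) := by
    rw [RingHom.coe_comp]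
    exact (algebraMap (FractionRing k⟦X⟧) (AlgebraicClosure (FractionRing k⟦X⟧))).injective.comp
      (IsFractionRing.injective k⟦X⟧ (FractionRing k⟦X⟧))
  have halg : ∀ x : AlgebraicClosure (FractionRing k⟦X⟧), ∃ P : k⟦X⟧[X], P ≠ 0 ∧
      P.eval₂ ((algebraMap (FractionRing k⟦X⟧)
      (AlgebraicClosure (FractionRing k⟦X⟧))).comp (algebraMap k⟦X⟧ (FractionRing k⟦X⟧))) x = 0 := by
    intro x
    have h1 : IsAlgebraic (FractionRing k⟦X⟧) x := Algebra.IsAlgebraic.isAlgebraic x
    have h2 : IsAlgebraic k⟦X⟧ x :=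
      (IsFractionRing.isAlgebraic_iff k⟦X⟧ (FractionRing k⟦X⟧)
        (AlgebraicClosure (FractionRing k⟦X⟧))).2 h1
    obtain ⟨P, hP, h3⟩ := h2
    refine ⟨P, hP, ?_⟩
    rw [Polynomial.aeval_def, IsScalarTower.algebraMap_eq k⟦X⟧ (FractionRing k⟦X⟧)
      (AlgebraicClosure (FractionRing k⟦X⟧))] at h3
    exact h3
  obtain ⟨B, hB1, hB2⟩ := val_dom _ hinj
  exact ⟨AlgebraicClosure (FractionRing k⟦X⟧), inferInstance, inferInstance,
    ⟨⟨_, hinj, halg, B, hB1, hB2⟩⟩⟩

theorem Om.v_j (w : Om k Ω) (r : k⟦X⟧) : w.A.valuation (w.j r) ≤ 1 := by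
  exact (ValuationSubring.valuation_le_one_iff _ _).2 (w.mem r)

theorem Om.v_jX (w : Om k Ω) {r : k⟦X⟧} (h : PowerSeries.constantCoeff r = 0) :
    w.sm (w.j r) := by
  obtain ⟨q, hq⟩ := PowerSeries.X_dvd_iff.2 h
  have h1 : w.A.valuation (w.j r) = w.A.valuation (w.j PowerSeries.X) * w.A.valuation (w.j q) := by
    rw [hq, map_mul, map_mul]
  have h2 : w.A.valuation (w.j PowerSeries.X) * w.A.valuation (w.j q) ≤
      w.A.valuation (w.j PowerSeries.X) := mul_le_of_le_one_right' (w.v_j q)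
  unfold Om.sm
  rw [h1]
  exact h2.trans_lt w.non

theorem Om.v_i (w : Om k Ω) {x : k} (hx : x ≠ 0) : w.A.valuation (w.i x) = 1 := by
  have h1 : w.A.valuation (w.i x) ≤ 1 := w.v_j _
  have h2 : w.A.valuation (w.i x⁻¹) ≤ 1 := w.v_j _
  have h3 : w.A.valuation (w.i x) * w.A.valuation (w.i x⁻¹) = 1 := by
    rw [← map_mul, ← map_mul, mul_inv_cancel₀ hx, map_one, map_one]
  refine le_antisymm h1 ?_
  calc (1 : w.A.ValueGroup) = w.A.valuation (w.i x) * w.A.valuation (w.i x⁻¹) := h3.symm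
    _ ≤ w.A.valuation (w.i x) := mul_le_of_le_one_right' h2

theorem Om.sm_add (w : Om k Ω) {x y : Ω} (hx : w.sm x) (hy : w.sm y) : w.sm (x + y) := by
  exact Valuation.map_add_lt _ hx hy

theorem Om.sm_sub (w : Om k Ω) {x y : Ω} (hx : w.sm x) (hy : w.sm y) : w.sm (x - y) := by
  exact Valuation.map_sub_lt _ hx hy

theorem Om.sm_mul (w : Om k Ω) {x y : Ω} (hx : w.sm x) (hy : w.A.valuation y ≤ 1) :
    w.sm (x * y) := by
  unfold Om.sm at hx ⊢
  rw [map_mul]
  exact (mul_le_of_le_one_right' hy).trans_lt hx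

theorem Om.int (w : Om k Ω) {x : Ω} {P : Polynomial Ω} (hP : P.Monic) (h : P.eval x = 0)
    (hc : ∀ n, w.A.valuation (P.coeff n) ≤ 1) : w.A.valuation x ≤ 1 := by
  by_contra hx
  have hx1 : 1 < w.A.valuation x := not_le.1 hx
  have hx0 : w.A.valuation x ≠ 0 := (zero_lt_one.trans hx1).ne'
  have h1 : P.eval x = x ^ P.natDegree + ∑ i ∈ Finset.range P.natDegree, P.coeff i * x ^ i := by
    rw [Polynomial.eval_eq_sum_range, Finset.sum_range_succ, hP.coeff_natDegree, one_mul, add_comm]
  have h2 : x ^ P.natDegree = -∑ i ∈ Finset.range P.natDegree, P.coeff i * x ^ i := by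
    rw [h1] at h
    exact eq_neg_of_add_eq_zero_left h
  have h3 : w.A.valuation (∑ i ∈ Finset.range P.natDegree, P.coeff i * x ^ i) <
      w.A.valuation x ^ P.natDegree := by
    refine Valuation.map_sum_lt _ (pow_ne_zero _ hx0) fun i hi => ?_
    rw [map_mul, map_pow]
    refine (mul_le_of_le_one_left' (hc i)).trans_lt ?_
    exact pow_lt_pow_right₀ hx1 (Finset.mem_range.1 hi)
  have h4 : w.A.valuation (x ^ P.natDegree) =
      w.A.valuation (∑ i ∈ Finset.range P.natDegree, P.coeff i * x ^ i) := by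
    rw [h2, Valuation.map_neg]
  rw [map_pow] at h4
  rw [← h4] at h3
  exact lt_irrefl _ h3

theorem Om.sm_tr [Finite k] (w : Om k Ω) {x : Ω} (hx : w.sm x) (h0 : x ≠ 0) {P : k[X]}
    (hP : P ≠ 0) : P.eval₂ w.i x ≠ 0 := by
  intro h
  have hv0 : w.A.valuation x ≠ 0 := (Valuation.ne_zero_iff _).2 h0
  have hvp : 0 < w.A.valuation x := zero_lt_iff.2 hv0
  have hm : P.coeff P.natTrailingDegree ≠ 0 := Polynomial.trailingCoeff_nonzero_iff_nonzero.2 hP
  have hmem : P.natTrailingDegree ∈ P.support := Polynomial.mem_support_iff.2 hm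
  rw [Polynomial.eval₂_eq_sum, Polynomial.sum_def, ← Finset.add_sum_erase _ _ hmem] at h
  have h1 := eq_neg_of_add_eq_zero_left h
  have h2 : w.A.valuation (w.i (P.coeff P.natTrailingDegree) * x ^ P.natTrailingDegree) =
      w.A.valuation x ^ P.natTrailingDegree := by
    rw [map_mul, map_pow, w.v_i hm, one_mul]
  have h3 : w.A.valuation (∑ n ∈ P.support.erase P.natTrailingDegree,
      w.i (P.coeff n) * x ^ n) < w.A.valuation x ^ P.natTrailingDegree := by
    refine Valuation.map_sum_lt _ (pow_ne_zero _ hv0) fun n hn => ?_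
    rw [Finset.mem_erase] at hn
    have h4 : P.natTrailingDegree < n :=
      lt_of_le_of_ne (Polynomial.natTrailingDegree_le_of_mem_supp n hn.2) (Ne.symm hn.1)
    rw [map_mul, map_pow, w.v_i (Polynomial.mem_support_iff.1 hn.2), one_mul]
    exact pow_lt_pow_right_of_lt_one₀ hvp hx h4
  rw [← h2, h1, Valuation.map_neg] at h3
  exact lt_irrefl _ h3

end TGJ
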