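import Pool.Agent.TGJ.Defs

set_option autoImplicit false

/-!
# TGJ-2: the Vandermonde matrix of the roots

The constant coefficients of the `θ l` are distinct, so the determinant of the Vandermonde matrix
`(θ_l ^ i)` is a unit of `k[[T]]` (`Matrix.det_vandermonde`); the matrix and its inverse have
entries in `k[[T]]`, that is in `Lm k 0`.
`Lm_mul`, `ofPS_mem`: elementary (`HahnSeries.coeff_mul`, or orders).
-/

noncomputable section

open Polynomial PowerSeries
open scoped Classical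

namespace TGJ

universe u v

variable {k : Type u} [Field k]

theorem Lm_mul {m n : ℤ} {x y : LaurentSeries k} (hx : x ∈ Lm k m) (hy : y ∈ Lm k n) :
    x * y ∈ Lm k (m + n) := by
  intro a ha
  rw [HahnSeries.coeff_mul]
  apply Finset.sum_eq_zero
  rintro ⟨i, j⟩ hij
  rw [Finset.mem_addAntidiagonal] at hij
  obtain ⟨-, -, h3⟩ := hij
  simp only at h3 ⊢
  by_cases hi : i < m
  · rw [hx i hi, zero_mul]
  · have hj : j < n := by omega
    rw [hy j hj, mul_zero]

private theorem vdm_coe (x : k⟦X⟧) (n : ℤ) : (HahnSeries.ofPowerSeries ℤ k x).coeff n =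
    if n < 0 then 0 else PowerSeries.coeff n.natAbs x :=
  PowerSeries.coeff_coe x n

theorem ofPS_mem (x : k⟦X⟧) : (HahnSeries.ofPowerSeries ℤ k x) ∈ Lm k 0 := by
  intro n hn
  rw [vdm_coe, if_pos hn]

theorem mem_Lm_zero {x : LaurentSeries k} (hx : x ∈ Lm k 0) :
    ∃ y : k⟦X⟧, HahnSeries.ofPowerSeries ℤ k y = x := by
  refine ⟨PowerSeries.mk fun n => x.coeff n, ?_⟩
  apply HahnSeries.ext
  funext n
  rw [vdm_coe]
  by_cases hn : n < 0
  · rw [if_pos hn, hx n hn]
  · rw [if_neg hn, PowerSeries.coeff_mk]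
    congr 1
    omega

theorem U_mem (m : ℕ) : U k ^ m ∈ Lm k (-m) := by
  intro n hn
  have h1 : U k ^ m = HahnSeries.single (-(m : ℤ)) (1 : k) := by
    unfold U
    rw [HahnSeries.single_pow, one_pow]
    congr 1
    simp
  rw [h1, HahnSeries.coeff_single_of_ne (by omega)]

private def vdm_V {c : Cv k} (t : Th c) : Matrix (Fin c.N) (Fin c.N) k⟦X⟧ :=
  Matrix.vandermonde t.θ

private theorem vdm_det {c : Cv k} (t : Th c) : IsUnit (vdm_V t).det := by
  unfold vdm_V
  rw [Matrix.det_vandermonde, PowerSeries.isUnit_iff_constantCoeff, map_prod]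
  rw [isUnit_iff_ne_zero, Finset.prod_ne_zero_iff]
  intro i _
  rw [map_prod, Finset.prod_ne_zero_iff]
  intro j hj
  rw [map_sub, t.cc, t.cc, sub_ne_zero]
  intro h
  have h1 := c.inj h
  rw [Finset.mem_Ioi] at hj
  exact hj.ne' h1

private theorem vdm_left {c : Cv k} (t : Th c) :
    ((vdm_V t)⁻¹).map (HahnSeries.ofPowerSeries ℤ k) *
      (vdm_V t).map (HahnSeries.ofPowerSeries ℤ k) = 1 := by
  rw [← Matrix.map_mul, Matrix.nonsing_inv_mul _ (vdm_det t)]
  exact Matrix.map_one _ (map_zero _) (map_one _)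

private theorem vdm_right {c : Cv k} (t : Th c) :
    (vdm_V t).map (HahnSeries.ofPowerSeries ℤ k) *
      ((vdm_V t)⁻¹).map (HahnSeries.ofPowerSeries ℤ k) = 1 := by
  rw [← Matrix.map_mul, Matrix.mul_nonsing_inv _ (vdm_det t)]
  exact Matrix.map_one _ (map_zero _) (map_one _)

private theorem vdm_vec {c : Cv k} (t : Th c) (x : Fin c.N → LaurentSeries k) (l : Fin c.N) :
    ((vdm_V t).map (HahnSeries.ofPowerSeries ℤ k)).mulVec x l =
      ∑ i : Fin c.N, x i * (HahnSeries.ofPowerSeries ℤ k (t.θ l)) ^ (i : ℕ) := by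
  unfold vdm_V
  simp only [Matrix.mulVec, dotProduct, Matrix.map_apply, Matrix.vandermonde_apply, map_pow]
  exact Finset.sum_congr rfl fun i _ => mul_comm _ _

/-- Every vector over `k((T))` is a combination of the powers of `θ`. -/
theorem vdm {c : Cv k} (t : Th c) (v : Fin c.N → LaurentSeries k) :
    ∃ x : Fin c.N → LaurentSeries k,
      ∀ l, v l = ∑ i : Fin c.N, x i * (HahnSeries.ofPowerSeries ℤ k (t.θ l)) ^ (i : ℕ) := by
  refine ⟨(((vdm_V t)⁻¹).map (HahnSeries.ofPowerSeries ℤ k)).mulVec v, fun l => ?_⟩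
  rw [← vdm_vec, Matrix.mulVec_mulVec, vdm_right, Matrix.one_mulVec]

/-- The coefficients are as integral as the vector. -/
theorem vdm_int {c : Cv k} (t : Th c) (m : ℤ) (x : Fin c.N → LaurentSeries k)
    (h : ∀ l, ∑ i : Fin c.N, x i * (HahnSeries.ofPowerSeries ℤ k (t.θ l)) ^ (i : ℕ) ∈ Lm k m)
    (i : Fin c.N) : x i ∈ Lm k m := by
  have h1 : x = (((vdm_V t)⁻¹).map (HahnSeries.ofPowerSeries ℤ k)).mulVec
      (((vdm_V t).map (HahnSeries.ofPowerSeries ℤ k)).mulVec x) := by
    rw [Matrix.mulVec_mulVec, vdm_left, Matrix.one_mulVec]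
  rw [h1]
  simp only [Matrix.mulVec, dotProduct, Matrix.map_apply]
  refine Submodule.sum_mem _ fun l _ => ?_
  have h2 : ∑ j : Fin c.N, HahnSeries.ofPowerSeries ℤ k (vdm_V t l j) * x j ∈ Lm k m := by
    have h3 := vdm_vec t x l
    simp only [Matrix.mulVec, dotProduct, Matrix.map_apply] at h3
    rw [h3]
    exact h l
  have h4 := Lm_mul (ofPS_mem ((vdm_V t)⁻¹ i l)) h2
  rwa [zero_add] at h4

end TGJ
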